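import Mathlib

/-!
Abelian differentials `(C, ω)` of genus ten with a single zero: the curves `y ^ 6 = f (x)`, with `f`
a separable polynomial of degree five, and the differential `dx / y ^ 5`. Their periods, arithmetic
points, and the degree.
-/

set_option autoImplicit false

open Set

namespace Pool.Agent.W520.D3

/-- A separable polynomial `f` of degree five. It stands for the pair `(C, [ω])` where `C` is the
smooth projective curve of genus ten with the affine equation `y ^ 6 = f (x)` (one more point at
infinity) and `ω = dx / y ^ 5`, whose only zero, of multiplicity `18 = 2 g - 2`, is the point at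
infinity. So it is a point of the stratum `S_(18)`. -/
def IsPoint (f : Polynomial ℂ) : Prop := f.natDegree = 5 ∧ f.Separable

/-- The pairs `(C, [ω])` of `f` and of `g` are isomorphic: `f` and `g` differ by an affine change
of the variable and a scalar. (An isomorphism maps the zero of `ω` to the zero of `ω`, and `1, y`
and `1, y, x` are bases of the spaces of functions with a pole of order at most `5` and `6` there
and no other pole; so it has the form `(x, y) ↦ (a x + b, d y)`.) -/
def IsIso (f g : Polynomial ℂ) : Prop :=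
  ∃ a b c : ℂ, a ≠ 0 ∧ c ≠ 0 ∧ ∀ x : ℂ, g.eval (a * x + b) = c * f.eval x

/-- continuously differentiable paths on the affine curve `y ^ 6 = f (x)` which avoid the branch
points -/
structure Arc (f : Polynomial ℂ) where
  /-- the first coordinate -/
  x : ℝ → ℂ
  /-- the second coordinate -/
  y : ℝ → ℂ
  smooth : ContDiff ℝ 1 x
  cont : ContinuousOn y (Icc 0 1)
  ne : ∀ s ∈ Icc (0 : ℝ) 1, y s ≠ 0
  curve : ∀ s ∈ Icc (0 : ℝ) 1, y s ^ 6 = f.eval (x s)

/-- the boundary of a chain of paths -/
noncomputable def boundary {f : Polynomial ℂ} (c : Arc f →₀ ℤ) : (ℂ × ℂ) →₀ ℤ :=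
  c.sum fun γ n => Finsupp.single (γ.x 1, γ.y 1) n - Finsupp.single (γ.x 0, γ.y 0) n

/-- the integral of the form `θ (x, y) dx` over a chain of paths -/
noncomputable def period {f : Polynomial ℂ} (c : Arc f →₀ ℤ) (θ : ℂ → ℂ → ℂ) : ℂ :=
  c.sum fun γ n => (n : ℂ) * ∫ s in (0 : ℝ)..1, θ (γ.x s) (γ.y s) * deriv γ.x s

/-- the holomorphic forms: the span of the `x ^ k dx / y ^ j`, with `k + 2 ≤ j ≤ 5` -/
def forms : Submodule ℂ (ℂ → ℂ → ℂ) :=
  Submodule.span ℂ {θ | ∃ j k : ℕ, j ≤ 5 ∧ k + 2 ≤ j ∧ θ = fun x y => x ^ k / y ^ j}

/-- the form `dx / y ^ 5` -/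
noncomputable def omega : ℂ → ℂ → ℂ := fun _ y => 1 / y ^ 5

/-- Arithmetic points: the curve and the differential are, up to isomorphism and scaling, defined
over the algebraic numbers, and, up to a common factor, all the periods are algebraic. -/
def IsArithmetic (f : Polynomial ℂ) : Prop :=
  (∃ g : Polynomial ℂ, IsIso f g ∧ ∀ j, IsAlgebraic ℚ (g.coeff j)) ∧
    ∃ w : ℂ, w ≠ 0 ∧ ∀ c : Arc f →₀ ℤ, boundary c = 0 → IsAlgebraic ℚ (w * period c omega)

/-- the rank over the rational numbers of a set of complex valued functions -/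
noncomputable def ratRank {X : Type} (S : Set (X → ℂ)) : ℕ :=
  Module.finrank ℚ (Submodule.span ℚ S)

/-- the period of a chain, as a function on a space of forms -/
noncomputable def periodsOn {f : Polynomial ℂ} (V : Submodule ℂ (ℂ → ℂ → ℂ)) (c : Arc f →₀ ℤ) :
    V → ℂ := fun θ => period c θ

/-- The space `V` of holomorphic forms is the space of all invariant forms of an abelian variety
which is a quotient of the Jacobian: the group of the periods of `V` (over all cycles, in the dual of
`V`) has rank `2 dim V`. -/
def IsFactor (f : Polynomial ℂ) (V : Submodule ℂ (ℂ → ℂ → ℂ)) : Prop :=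
  ratRank {φ | ∃ c : Arc f →₀ ℤ, boundary c = 0 ∧ φ = periodsOn V c} = 2 * Module.finrank ℂ V

/-- The degree of `(C, [ω])` is at least `d`: every factor of the Jacobian whose space of
invariant forms contains `ω` has dimension at least `d`. -/
def DegreeAtLeast (f : Polynomial ℂ) (d : ℕ) : Prop :=
  ∀ V ≤ forms, omega ∈ V → IsFactor f V → d ≤ Module.finrank ℂ V

end Pool.Agent.W520.D3
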