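import Mathlib
import Pool.Agent.Helper620.Wg.KS
import Pool.Agent.Helper620.Wg.KI

/-!
Periods of closed paths on a Weierstrass cubic lie in the lattice.
-/

set_option autoImplicit false

open Set Filter Topology MeasureTheory

namespace Pool.Agent.W520

/-- a point of the cubic comes from a point of the plane -/
theorem exists_point (L : PeriodPair) (x y : ℂ) (h : y ^ 2 = 4 * x ^ 3 - L.g₂ * x - L.g₃) :
    ∃ u ∉ L.lattice, L.weierstrassP u = x ∧ L.derivWeierstrassP u = y := by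
  obtain ⟨u, hu, hx⟩ := Wg.wp_surj L x
  have h1 := L.derivWeierstrassP_sq u hu
  rw [hx, ← h] at h1
  rcases sq_eq_sq_iff_eq_or_eq_neg.1 h1 with h2 | h2
  · exact ⟨u, hu, hx, h2⟩
  · refine ⟨-u, fun hc => hu (by simpa using neg_mem hc), ?_, ?_⟩
    · rw [L.weierstrassP_neg, hx]
    · rw [L.derivWeierstrassP_neg, h2, neg_neg]

theorem tendsto_wp_cobounded (L : PeriodPair) {z : ℂ} (hz : z ∈ L.lattice) :
    Tendsto L.weierstrassP (𝓝[≠] z) (Bornology.cobounded ℂ) := by
  refine tendsto_cobounded_of_meromorphicOrderAt_neg ?_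
  rw [L.order_weierstrassP z hz]
  decide

/-- **Lifting.** The integral of the invariant form over a closed path on the affine cubic
`y ^ 2 = 4 x ^ 3 - g₂ x - g₃` lies in the lattice. -/
theorem lift_period (L : PeriodPair) {x y a : ℝ → ℂ} (ha : ContinuousOn a (Icc 0 1))
    (hx : ∀ s ∈ Icc (0 : ℝ) 1, HasDerivWithinAt x (y s * a s) (Icc 0 1) s)
    (hy : ∀ s ∈ Icc (0 : ℝ) 1,
      HasDerivWithinAt y ((6 * x s ^ 2 - L.g₂ / 2) * a s) (Icc 0 1) s)
    (h0 : y 0 ^ 2 = 4 * x 0 ^ 3 - L.g₂ * x 0 - L.g₃)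
    (hx1 : x 1 = x 0) (hy1 : y 1 = y 0) : ∫ s in (0 : ℝ)..1, a s ∈ L.lattice := by
  obtain ⟨u0, hu0, hux, huy⟩ := exists_point L _ _ h0
  set A : ℝ → ℂ := IccExtend (zero_le_one' ℝ) ((Icc (0 : ℝ) 1).domRestrict a) with hA
  have hAc : Continuous A := (continuousOn_iff_continuous_domRestrict.1 ha).Icc_extend'
  have hAa : ∀ s ∈ Icc (0 : ℝ) 1, A s = a s := by
    intro s hs
    rw [hA, IccExtend_of_mem _ _ hs]
    rfl
  set u : ℝ → ℂ := fun s => u0 + ∫ t in (0 : ℝ)..s, A t with hu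
  have hud : ∀ s, HasDerivAt u (A s) s := by
    intro s
    exact (intervalIntegral.integral_hasDerivAt_right (hAc.intervalIntegrable _ _)
      (hAc.stronglyMeasurableAtFilter _ _) hAc.continuousAt).const_add u0
  have huc : Continuous u := continuous_iff_continuousAt.2 fun s => (hud s).continuousAt
  have hxc : ContinuousOn x (Icc 0 1) := fun s hs => (hx s hs).continuousWithinAt
  have hyc : ContinuousOn y (Icc 0 1) := fun s hs => (hy s hs).continuousWithinAt
  have hop : IsOpen (L.lattice : Set ℂ)ᶜ := L.isClosed_lattice.isOpen_compl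
  set G : Set ℝ := {s | u s ∉ L.lattice ∧ L.weierstrassP (u s) = x s ∧
    L.derivWeierstrassP (u s) = y s} with hG
  have h0G : (0 : ℝ) ∈ G := by
    have : u 0 = u0 := by simp [hu]
    simp only [hG, mem_ofPred_eq, this]
    exact ⟨hu0, hux, huy⟩
  have hcl : IsClosed (G ∩ Icc 0 1) := by
    refine isClosed_of_closure_subset fun s hs => ?_
    have hsI : s ∈ Icc (0 : ℝ) 1 := by
      have := closure_mono (inter_subset_right : G ∩ Icc 0 1 ⊆ Icc 0 1) hs
      rwa [isClosed_Icc.closure_eq] at this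
    have hne : (𝓝[G ∩ Icc 0 1] s).NeBot := mem_closure_iff_nhdsWithin_neBot.1 hs
    have hxt : Tendsto x (𝓝[G ∩ Icc 0 1] s) (𝓝 (x s)) :=
      (hxc s hsI).tendsto.mono_left (nhdsWithin_mono _ inter_subset_right)
    have hyt : Tendsto y (𝓝[G ∩ Icc 0 1] s) (𝓝 (y s)) :=
      (hyc s hsI).tendsto.mono_left (nhdsWithin_mono _ inter_subset_right)
    have hut : Tendsto u (𝓝[G ∩ Icc 0 1] s) (𝓝 (u s)) :=
      huc.continuousAt.tendsto.mono_left nhdsWithin_le_nhds
    have hin : ∀ᶠ t in 𝓝[G ∩ Icc 0 1] s, t ∈ G := by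
      filter_upwards [self_mem_nhdsWithin] with t ht using ht.1
    have hus : u s ∉ L.lattice := by
      intro hc
      have h1 : Tendsto u (𝓝[G ∩ Icc 0 1] s) (𝓝[≠] (u s)) := by
        refine tendsto_nhdsWithin_iff.2 ⟨hut, ?_⟩
        filter_upwards [hin] with t ht heq
        exact ht.1 (by rw [show u t = u s from heq]; exact hc)
      have h2 := (tendsto_wp_cobounded L hc).comp h1
      have h3 : Tendsto (L.weierstrassP ∘ u) (𝓝[G ∩ Icc 0 1] s) (𝓝 (x s)) := by
        refine hxt.congr' ?_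
        filter_upwards [hin] with t ht using ht.2.1.symm
      have h4 := tendsto_norm_cobounded_atTop.comp h2
      have h5 := h3.norm
      exact not_tendsto_nhds_of_tendsto_atTop h4 _ h5
    refine ⟨⟨hus, ?_, ?_⟩, hsI⟩
    · have h1 : ContinuousAt L.weierstrassP (u s) :=
        (L.analyticOnNhd_weierstrassP _ hus).continuousAt
      have h2 : Tendsto (fun t => L.weierstrassP (u t)) (𝓝[G ∩ Icc 0 1] s)
        (𝓝 (L.weierstrassP (u s))) := h1.tendsto.comp hut
      refine tendsto_nhds_unique h2 (hxt.congr' ?_)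
      filter_upwards [hin] with t ht using ht.2.1.symm
    · have h1 : ContinuousAt L.derivWeierstrassP (u s) :=
        (L.analyticOnNhd_derivWeierstrassP _ hus).continuousAt
      have h2 : Tendsto (fun t => L.derivWeierstrassP (u t)) (𝓝[G ∩ Icc 0 1] s)
        (𝓝 (L.derivWeierstrassP (u s))) := h1.tendsto.comp hut
      refine tendsto_nhds_unique h2 (hyt.congr' ?_)
      filter_upwards [hin] with t ht using ht.2.2.symm
  have hopen : ∀ s ∈ G ∩ Ico 0 1, G ∈ 𝓝[>] s := by
    rintro s ⟨hsG, hs0, hs1⟩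
    have hev : ∀ᶠ t in 𝓝 s, u t ∉ L.lattice ∧ t < 1 :=
      (huc.continuousAt.eventually (hop.mem_nhds hsG.1)).and (eventually_lt_nhds hs1)
    obtain ⟨ε, hε, hball⟩ := Metric.eventually_nhds_iff.1 hev
    set b : ℝ := s + ε / 2 with hb
    have hsb : s < b := by linarith
    have hin : ∀ t ∈ Icc s b, u t ∉ L.lattice ∧ t < 1 := by
      intro t ht
      refine hball ?_
      rw [Real.dist_eq, abs_lt]
      constructor <;> linarith [ht.1, ht.2]
    have hIcc : Icc s b ⊆ Icc 0 1 := fun t ht => ⟨hs0.trans ht.1, (hin t ht).2.le⟩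
    set D : ℝ → ℂ × ℂ := fun t => (x t - L.weierstrassP (u t), y t - L.derivWeierstrassP (u t))
      with hD
    set D' : ℝ → ℂ × ℂ := fun t => ((D t).2 * A t,
      (6 * (x t + L.weierstrassP (u t))) * (D t).1 * A t) with hD'
    have hPd : ∀ t ∈ Icc s b, HasDerivAt (fun t => L.weierstrassP (u t))
        (L.derivWeierstrassP (u t) * A t) t := by
      intro t ht
      have h1 := Wg.wp_inj_hasDeriv L (u t) (hin t ht).1
      exact h1.comp_of_eq t (hud t) rfl
    have hPd' : ∀ t ∈ Icc s b, HasDerivAt (fun t => L.derivWeierstrassP (u t))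
        ((6 * L.weierstrassP (u t) ^ 2 - L.g₂ / 2) * A t) t := by
      intro t ht
      have h1 := Wg.wp_inj_hasDeriv' L (u t) (hin t ht).1
      rw [Wg.wp_inj_ode L (u t) (hin t ht).1] at h1
      exact h1.comp_of_eq t (hud t) rfl
    have hPc : ContinuousOn (fun t => L.weierstrassP (u t)) (Icc s b) :=
      fun t ht => (hPd t ht).continuousAt.continuousWithinAt
    have hPc' : ContinuousOn (fun t => L.derivWeierstrassP (u t)) (Icc s b) :=
      fun t ht => (hPd' t ht).continuousAt.continuousWithinAt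
    have hDc : ContinuousOn D (Icc s b) :=
      ((hxc.mono hIcc).sub hPc).prodMk ((hyc.mono hIcc).sub hPc')
    have hDd : ∀ t ∈ Ico s b, HasDerivWithinAt D (D' t) (Ici t) t := by
      intro t ht
      have ht' : t ∈ Icc s b := ⟨ht.1, ht.2.le⟩
      have ht1 : t ∈ Icc (0 : ℝ) 1 := hIcc ht'
      have hmono : Icc (0 : ℝ) 1 ∈ 𝓝[Ici t] t := by
        have : Ico t 1 ∈ 𝓝[≥] t := Ico_mem_nhdsGE (hin t ht').2
        exact mem_of_superset this fun r hr => ⟨ht1.1.trans hr.1, hr.2.le⟩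
      have e1 : HasDerivWithinAt x (y t * a t) (Ici t) t :=
        (hx t ht1).mono_of_mem_nhdsWithin hmono
      have e2 : HasDerivWithinAt y ((6 * x t ^ 2 - L.g₂ / 2) * a t) (Ici t) t :=
        (hy t ht1).mono_of_mem_nhdsWithin hmono
      have e3 := e1.sub (hPd t ht').hasDerivWithinAt
      have e4 := e2.sub (hPd' t ht').hasDerivWithinAt
      refine (e3.prodMk e4).congr_deriv ?_
      simp only [hD', hD]
      rw [hAa t ht1]
      ext <;> ring
    obtain ⟨K1, hK1⟩ := isCompact_Icc.exists_bound_of_continuousOn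
      (hAc.continuousOn (s := Icc s b))
    obtain ⟨K2, hK2⟩ := isCompact_Icc.exists_bound_of_continuousOn
      (((hxc.mono hIcc).add hPc).const_smul (6 : ℂ))
    have hK1' : ∀ t ∈ Icc s b, ‖A t‖ ≤ max K1 0 := fun t ht => (hK1 t ht).trans (le_max_left _ _)
    have hK2' : ∀ t ∈ Icc s b, ‖6 * (x t + L.weierstrassP (u t))‖ ≤ max K2 0 :=
      fun t ht => by
        have := (hK2 t ht).trans (le_max_left _ 0)
        simpa [smul_eq_mul] using this
    have hbd : ∀ t ∈ Ico s b, ‖D' t‖ ≤ ((max K2 0 + 1) * max K1 0) * ‖D t‖ := by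
      intro t ht
      have ht' : t ∈ Icc s b := ⟨ht.1, ht.2.le⟩
      have n1 : ‖(D t).1‖ ≤ ‖D t‖ := norm_fst_le _
      have n2 : ‖(D t).2‖ ≤ ‖D t‖ := norm_snd_le _
      have k1 := hK1' t ht'
      have k2 := hK2' t ht'
      have p1 : 0 ≤ max K1 0 := le_max_right _ _
      have p2 : 0 ≤ max K2 0 := le_max_right _ _
      have p3 : 0 ≤ ‖D t‖ := norm_nonneg _
      rw [Prod.norm_def]
      refine max_le ?_ ?_
      · simp only [hD', norm_mul]
        calc ‖(D t).2‖ * ‖A t‖ ≤ ‖D t‖ * max K1 0 := by gcongr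
          _ ≤ ((max K2 0 + 1) * max K1 0) * ‖D t‖ := by nlinarith [mul_nonneg (mul_nonneg p2 p1) p3]
      · simp only [hD']
        rw [norm_mul, norm_mul]
        calc ‖6 * (x t + L.weierstrassP (u t))‖ * ‖(D t).1‖ * ‖A t‖
            ≤ max K2 0 * ‖D t‖ * max K1 0 := by gcongr
          _ ≤ ((max K2 0 + 1) * max K1 0) * ‖D t‖ := by nlinarith [mul_nonneg p1 p3]
    have hD0 : D s = 0 := by
      simp only [hD, hsG.2.1, hsG.2.2, sub_self]
      rfl
    have hz := eq_zero_of_abs_deriv_le_mul_abs_self_of_eq_zero_right hDc hDd hD0 hbd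
    have : Ioc s b ∈ 𝓝[>] s := Ioc_mem_nhdsGT hsb
    refine mem_of_superset this fun t ht => ?_
    have ht' : t ∈ Icc s b := ⟨ht.1.le, ht.2⟩
    have h1 := hz t ht'
    have h2 : x t - L.weierstrassP (u t) = 0 := congrArg Prod.fst h1
    have h3 : y t - L.derivWeierstrassP (u t) = 0 := congrArg Prod.snd h1
    exact ⟨(hin t ht').1, (sub_eq_zero.1 h2).symm, (sub_eq_zero.1 h3).symm⟩
  have hall := hcl.Icc_subset_of_forall_mem_nhdsWithin h0G hopen
  have h1G : (1 : ℝ) ∈ G := hall (right_mem_Icc.2 zero_le_one)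
  have hkey := Wg.wp_inj_key L (u 1) u0 h1G.1 hu0 (by rw [h1G.2.1, hx1, hux])
    (by rw [h1G.2.2, hy1, huy])
  have h2 : u 1 - u0 = ∫ s in (0 : ℝ)..1, a s := by
    have : ∫ s in (0 : ℝ)..1, A s = ∫ s in (0 : ℝ)..1, a s := by
      refine intervalIntegral.integral_congr fun s hs => ?_
      rw [uIcc_of_le zero_le_one] at hs
      exact hAa s hs
    simp only [hu, add_sub_cancel_left, this]
  rwa [h2] at hkey

end Pool.Agent.W520
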