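import Mathlib
import Pool.Agent.Helper620.Wg.KS
import Pool.Agent.Helper620.Wg.KI
import Pool.Agent.Helper487.ECM.Addition

/-!
Half periods of a lattice, and the passage to a lattice containing it with index two.
-/

set_option autoImplicit false

open Set Filter Topology MeasureTheory

namespace Pool.Agent.W520

/-- two independent half periods of a lattice -/
structure Halves (L : PeriodPair) (h₁ h₂ : ℂ) : Prop where
  d1 : 2 * h₁ ∈ L.lattice
  d2 : 2 * h₂ ∈ L.lattice
  n1 : h₁ ∉ L.lattice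
  n2 : h₂ ∉ L.lattice
  n3 : h₁ + h₂ ∉ L.lattice

namespace Halves

variable {L : PeriodPair} {h₁ h₂ : ℂ} (H : Halves L h₁ h₂)

include H

theorem symm : Halves L h₂ h₁ := ⟨H.d2, H.d1, H.n2, H.n1, by rw [add_comm]; exact H.n3⟩

theorem third : Halves L h₁ (h₁ + h₂) := by
  refine ⟨H.d1, ?_, H.n1, H.n3, fun h => H.n2 ?_⟩
  · rw [mul_add]; exact add_mem H.d1 H.d2
  · have := sub_mem h H.d1
    have e : h₁ + (h₁ + h₂) - 2 * h₁ = h₂ := by ring
    rwa [e] at this

theorem deriv_zero : L.derivWeierstrassP h₁ = 0 := by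
  have h1 := L.derivWeierstrassP_sub_coe h₁ ⟨_, H.d1⟩
  have e : h₁ - 2 * h₁ = -h₁ := by ring
  simp only [e] at h1
  rw [L.derivWeierstrassP_neg] at h1
  linear_combination (-1 / 2 : ℂ) * h1

theorem ne12 : L.weierstrassP h₁ ≠ L.weierstrassP h₂ := by
  intro h
  rcases Wg.wp_inj L h₁ h₂ H.n1 H.n2 h with h1 | h1
  · apply H.n3
    have := add_mem h1 H.d2
    have e : h₁ - h₂ + 2 * h₂ = h₁ + h₂ := by ring
    rwa [e] at this
  · exact H.n3 h1

theorem cubic1 : 4 * L.weierstrassP h₁ ^ 3 - L.g₂ * L.weierstrassP h₁ - L.g₃ = 0 := by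
  rw [← L.derivWeierstrassP_sq h₁ H.n1, H.deriv_zero]
  ring

theorem sum_zero : L.weierstrassP h₁ + L.weierstrassP h₂ + L.weierstrassP (h₁ + h₂) = 0 := by
  have c1 := H.cubic1
  have c2 := H.symm.cubic1
  have c3 := H.third.symm.cubic1
  have n12 := sub_ne_zero.2 H.ne12
  have n13 := sub_ne_zero.2 H.third.ne12
  have n23 : L.weierstrassP h₂ - L.weierstrassP (h₁ + h₂) ≠ 0 := by
    have := H.symm.third.ne12
    rw [add_comm h₂ h₁] at this
    exact sub_ne_zero.2 this
  set e1 := L.weierstrassP h₁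
  set e2 := L.weierstrassP h₂
  set e3 := L.weierstrassP (h₁ + h₂)
  have q1 : 4 * (e1 ^ 2 + e1 * e2 + e2 ^ 2) - L.g₂ = 0 := by
    apply mul_left_cancel₀ n12
    linear_combination c1 - c2
  have q2 : 4 * (e1 ^ 2 + e1 * e3 + e3 ^ 2) - L.g₂ = 0 := by
    apply mul_left_cancel₀ n13
    linear_combination c1 - c3
  have : (e2 - e3) * (4 * (e1 + e2 + e3)) = (e2 - e3) * 0 := by
    linear_combination q1 - q2
  have := mul_left_cancel₀ n23 this
  linear_combination (1 / 4 : ℂ) * this

theorem g2_eq : L.g₂ = -4 * (L.weierstrassP h₁ * L.weierstrassP h₂ +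
    L.weierstrassP h₁ * L.weierstrassP (h₁ + h₂) + L.weierstrassP h₂ * L.weierstrassP (h₁ + h₂)) := by
  have c1 := H.cubic1
  have c2 := H.symm.cubic1
  have n12 := sub_ne_zero.2 H.ne12
  have s := H.sum_zero
  set e1 := L.weierstrassP h₁
  set e2 := L.weierstrassP h₂
  set e3 := L.weierstrassP (h₁ + h₂)
  have q1 : 4 * (e1 ^ 2 + e1 * e2 + e2 ^ 2) - L.g₂ = 0 := by
    apply mul_left_cancel₀ n12
    linear_combination c1 - c2
  linear_combination -q1 + 4 * (e1 + e2) * s

theorem g3_eq : L.g₃ = 4 * L.weierstrassP h₁ * L.weierstrassP h₂ * L.weierstrassP (h₁ + h₂) := by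
  have c1 := H.cubic1
  have s := H.sum_zero
  have g := H.g2_eq
  set e1 := L.weierstrassP h₁
  set e2 := L.weierstrassP h₂
  set e3 := L.weierstrassP (h₁ + h₂)
  linear_combination -c1 + 4 * e1 ^ 2 * s - e1 * g

/-- the value of the Weierstrass function at half of a half period -/
theorem quarter {q : ℂ} (hq : 2 * q - h₁ ∈ L.lattice) :
    (L.weierstrassP q - L.weierstrassP h₁) ^ 2 =
      (L.weierstrassP h₁ - L.weierstrassP h₂) * (L.weierstrassP h₁ - L.weierstrassP (h₁ + h₂)) := by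
  have hqL : q ∉ L.lattice := by
    intro h
    have := sub_mem (add_mem h h) hq
    have e : q + q - (2 * q - h₁) = h₁ := by ring
    rw [e] at this
    exact H.n1 this
  have hqh : q - h₁ ∉ L.lattice := by
    intro h
    have := sub_mem h hq
    have e : q - h₁ - (2 * q - h₁) = -q := by ring
    rw [e] at this
    exact hqL (by simpa using neg_mem this)
  have hqh' : q + h₁ ∉ L.lattice := by
    intro h
    have := sub_mem h H.d1
    have e : q + h₁ - 2 * h₁ = q - h₁ := by ring
    rw [e] at this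
    exact hqh this
  have hne : L.weierstrassP q ≠ L.weierstrassP h₁ := by
    intro h
    rcases Wg.wp_inj L q h₁ hqL H.n1 h with h1 | h1
    · exact hqh h1
    · exact hqh' h1
  have hv : L.weierstrassP (q - h₁) = L.weierstrassP q := by
    have h1 := L.weierstrassP_sub_coe q ⟨_, hq⟩
    have e : q - (2 * q - h₁) = -(q - h₁) := by ring
    simp only [e] at h1
    rw [L.weierstrassP_neg] at h1
    exact h1
  have hs := Helper487.ECM.wp_sub L (z := q) (w := h₁) hqL H.n1 hqh
    (by rw [Helper487.ECM.wp_zero_eq]; exact hne)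
  rw [Helper487.ECM.Q, Helper487.ECM.wp_zero_eq, Helper487.ECM.wp_one_eq, H.deriv_zero, hv,
    add_zero, div_pow, L.derivWeierstrassP_sq q hqL] at hs
  have g2 := H.g2_eq
  have g3 := H.g3_eq
  have s := H.sum_zero
  have hne' := sub_ne_zero.2 hne
  set X := L.weierstrassP q
  set e1 := L.weierstrassP h₁
  set e2 := L.weierstrassP h₂
  set e3 := L.weierstrassP (h₁ + h₂)
  have h4 : (2 * (X - e1)) ^ 2 ≠ 0 := pow_ne_zero _ (mul_ne_zero two_ne_zero hne')
  rw [eq_sub_iff_add_eq, eq_sub_iff_add_eq, eq_div_iff h4] at hs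
  have h5 : (X - e1) * ((X - e1) ^ 2 - (e1 - e2) * (e1 - e3)) = 0 := by
    have e3' : e3 = -(e1 + e2) := by linear_combination s
    rw [g2, g3, e3'] at hs
    rw [e3']
    linear_combination (1 / 4 : ℂ) * hs
  rcases mul_eq_zero.1 h5 with h6 | h6
  · exact absurd h6 hne'
  · exact sub_eq_zero.1 h6

end Halves

/-- The Weierstrass function of a lattice `L'` in which `L` has index two. -/
theorem wp_double (L L' : PeriodPair) (h : ℂ) (hh : h ∉ L.lattice)
    (hmem : ∀ z, z ∈ L'.lattice ↔ z ∈ L.lattice ∨ z - h ∈ L.lattice) (z : ℂ) :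
    L'.weierstrassP z = L.weierstrassP z + L.weierstrassP (z - h) - L.weierstrassP h := by
  classical
  set g : L'.lattice → ℂ := fun l => 1 / (z - l) ^ 2 - 1 / (l : ℂ) ^ 2 with hg
  have h0 : HasSum g (L'.weierstrassP z) := L'.hasSum_weierstrassP z
  have h1 : HasSum (fun l : L.lattice => 1 / (z - l) ^ 2 - 1 / (l : ℂ) ^ 2) (L.weierstrassP z) :=
    L.hasSum_weierstrassP z
  have h2 : HasSum (fun l : L.lattice => 1 / (z - (l + h)) ^ 2 - 1 / ((l : ℂ) + h) ^ 2)
      (L.weierstrassP (z - h) - L.weierstrassP h) := by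
    have a1 := L.hasSum_weierstrassP (z - h)
    have a2 := L.hasSum_weierstrassP (-h)
    rw [L.weierstrassP_neg] at a2
    refine (a1.sub a2).congr_fun fun l => ?_
    have e1 : z - h - (l : ℂ) = z - (l + h) := by ring
    have e2 : (-h - (l : ℂ)) ^ 2 = ((l : ℂ) + h) ^ 2 := by ring
    rw [e1, e2]
    ring
  set s : Set L'.lattice := {l | (l : ℂ) ∈ L.lattice} with hs
  let E1 : L.lattice ≃ s :=
    { toFun := fun l => ⟨⟨l.1, (hmem _).2 (Or.inl l.2)⟩, l.2⟩
      invFun := fun l => ⟨l.1.1, l.2⟩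
      left_inv := fun l => rfl
      right_inv := fun l => rfl }
  have hnot : ∀ l : L.lattice, (l : ℂ) + h ∉ L.lattice := by
    intro l hl
    have := sub_mem hl l.2
    rw [add_sub_cancel_left] at this
    exact hh this
  let E2 : L.lattice ≃ (sᶜ : Set L'.lattice) :=
    { toFun := fun l => ⟨⟨l.1 + h, (hmem _).2 (Or.inr (by rw [add_sub_cancel_right]; exact l.2))⟩,
        hnot l⟩
      invFun := fun l => ⟨l.1.1 - h, ((hmem _).1 l.1.2).resolve_left l.2⟩
      left_inv := fun l => by ext; simp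
      right_inv := fun l => by ext; simp }
  have k1 : HasSum (g ∘ ((↑) : s → L'.lattice)) (L.weierstrassP z) := by
    rw [← E1.hasSum_iff]
    exact h1
  have k2 : HasSum (g ∘ ((↑) : (sᶜ : Set L'.lattice) → L'.lattice))
      (L.weierstrassP (z - h) - L.weierstrassP h) := by
    rw [← E2.hasSum_iff]
    exact h2
  have k3 := k1.add_isCompl isCompl_compl k2
  rw [h0.unique k3]
  ring

end Pool.Agent.W520
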