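import Mathlib
import Pool.Agent.W520.Half
import Pool.Agent.H285R3.Str.PerCx

/-!
Rectangular lattices, and the chain of lattices `⟨2 ^ (-n), i⟩`.
-/

set_option autoImplicit false

open Set Filter Topology MeasureTheory

namespace Pool.Agent.W520

/-- the rectangular lattice with periods `u` and `i v` -/
noncomputable def rect (u v : ℝ) (hu : 0 < u) (hv : 0 < v) : PeriodPair where
  ω₁ := u
  ω₂ := v * Complex.I
  indep := by
    rw [LinearIndependent.pair_iff]
    intro s t h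
    have h1 := congrArg Complex.re h
    have h2 := congrArg Complex.im h
    simp at h1 h2
    exact ⟨h1.resolve_right hu.ne', h2.resolve_right hv.ne'⟩

section

variable {u v : ℝ} {hu : 0 < u} {hv : 0 < v}

theorem mem_rect {z : ℂ} : z ∈ (rect u v hu hv).lattice ↔
    ∃ m n : ℤ, (m : ℂ) * u + n * (v * Complex.I) = z := PeriodPair.mem_lattice

theorem rect_conj : ∀ l ∈ (rect u v hu hv).lattice,
    (starRingEnd ℂ) l ∈ (rect u v hu hv).lattice := by
  intro l hl
  obtain ⟨m, n, rfl⟩ := mem_rect.1 hl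
  refine mem_rect.2 ⟨m, -n, ?_⟩
  simp

theorem real_mem_rect {x : ℝ} : (x : ℂ) ∈ (rect u v hu hv).lattice ↔ ∃ m : ℤ, (m : ℝ) * u = x := by
  rw [mem_rect]
  constructor
  · rintro ⟨m, n, h⟩
    refine ⟨m, ?_⟩
    have := congrArg Complex.re h
    simpa using this
  · rintro ⟨m, rfl⟩
    exact ⟨m, 0, by simp⟩

theorem rect_halves : Halves (rect u v hu hv) ((u / 2 : ℝ) : ℂ) ((v / 2 : ℝ) * Complex.I) := by
  refine ⟨?_, ?_, ?_, ?_, ?_⟩
  · exact mem_rect.2 ⟨1, 0, by push_cast; ring⟩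
  · exact mem_rect.2 ⟨0, 1, by push_cast; ring⟩
  · intro h
    obtain ⟨m, n, h⟩ := mem_rect.1 h
    have h1 := congrArg Complex.re h
    simp at h1
    have h2 : ((2 * m - 1 : ℤ) : ℝ) * u = 0 := by push_cast; linarith
    have h3 := (mul_eq_zero.1 h2).resolve_right hu.ne'
    have : 2 * m - 1 = 0 := by exact_mod_cast h3
    omega
  · intro h
    obtain ⟨m, n, h⟩ := mem_rect.1 h
    have h1 := congrArg Complex.im h
    simp at h1
    have h2 : ((2 * n - 1 : ℤ) : ℝ) * v = 0 := by push_cast; linarith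
    have h3 := (mul_eq_zero.1 h2).resolve_right hv.ne'
    have : 2 * n - 1 = 0 := by exact_mod_cast h3
    omega
  · intro h
    obtain ⟨m, n, h⟩ := mem_rect.1 h
    have h1 := congrArg Complex.im h
    simp at h1
    have h2 : ((2 * n - 1 : ℤ) : ℝ) * v = 0 := by push_cast; linarith
    have h3 := (mul_eq_zero.1 h2).resolve_right hv.ne'
    have : 2 * n - 1 = 0 := by exact_mod_cast h3
    omega

theorem wp_re (x : ℝ) : (rect u v hu hv).weierstrassP x =
    (((rect u v hu hv).weierstrassP x).re : ℂ) := by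
  have h := Pool.Agent.H285R3.Str.P_conj (rect u v hu hv) rect_conj (x : ℂ)
  rw [Complex.conj_ofReal] at h
  exact (Complex.conj_eq_iff_re.1 h.symm).symm

theorem wpd_re (x : ℝ) : (rect u v hu hv).derivWeierstrassP x =
    (((rect u v hu hv).derivWeierstrassP x).re : ℂ) := by
  have h := Pool.Agent.H285R3.Str.P'_conj (rect u v hu hv) rect_conj (x : ℂ)
  rw [Complex.conj_ofReal] at h
  exact (Complex.conj_eq_iff_re.1 h.symm).symm

/-- the Weierstrass function on the real axis -/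
noncomputable def P (u v : ℝ) (hu : 0 < u) (hv : 0 < v) (x : ℝ) : ℝ :=
  ((rect u v hu hv).weierstrassP x).re

theorem P_spec (x : ℝ) : (rect u v hu hv).weierstrassP x = (P u v hu hv x : ℂ) := wp_re x

theorem notMem_of {x : ℝ} (h0 : 0 < x) (h1 : x < u) : (x : ℂ) ∉ (rect u v hu hv).lattice := by
  intro h
  obtain ⟨m, hm⟩ := real_mem_rect.1 h
  have h2 : (0 : ℝ) < m := by
    by_contra hc
    push Not at hc
    nlinarith
  have h3 : (m : ℝ) < 1 := by
    by_contra hc
    push Not at hc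
    nlinarith
  have h4 : (0 : ℤ) < m := by exact_mod_cast h2
  have h5 : m < (1 : ℤ) := by exact_mod_cast h3
  omega

theorem P_cont : ContinuousOn (P u v hu hv) (Ioo 0 u) := by
  intro x hx
  have h1 : ContinuousAt (rect u v hu hv).weierstrassP (x : ℂ) :=
    ((rect u v hu hv).analyticOnNhd_weierstrassP _ (notMem_of hx.1 hx.2)).continuousAt
  have h2 : ContinuousAt (fun x : ℝ => (rect u v hu hv).weierstrassP (x : ℂ)) x :=
    ContinuousAt.comp (f := fun x : ℝ => (x : ℂ)) h1 Complex.continuous_ofReal.continuousAt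
  exact (Complex.continuous_re.continuousAt.comp h2).continuousWithinAt

theorem P_inj {x y : ℝ} (hx : 0 < x) (hx' : x ≤ u / 2) (hy : 0 < y) (hy' : y ≤ u / 2)
    (h : P u v hu hv x = P u v hu hv y) : x = y := by
  have h1 : (rect u v hu hv).weierstrassP x = (rect u v hu hv).weierstrassP y := by
    rw [P_spec, P_spec, h]
  rcases Wg.wp_inj _ _ _ (notMem_of hx (by linarith)) (notMem_of hy (by linarith)) h1 with h2 | h2
  · have h3 : ((x - y : ℝ) : ℂ) ∈ (rect u v hu hv).lattice := by push_cast; exact h2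
    obtain ⟨m, hm⟩ := real_mem_rect.1 h3
    have a1 : (m : ℝ) < 1 := by
      by_contra hc
      push Not at hc
      nlinarith
    have a2 : (-1 : ℝ) < m := by
      by_contra hc
      push Not at hc
      nlinarith
    have b1 : m < (1 : ℤ) := by exact_mod_cast a1
    have b2 : (-1 : ℤ) < m := by exact_mod_cast a2
    have : m = 0 := by omega
    rw [this] at hm
    simp at hm
    linarith
  · have h3 : ((x + y : ℝ) : ℂ) ∈ (rect u v hu hv).lattice := by push_cast; exact h2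
    obtain ⟨m, hm⟩ := real_mem_rect.1 h3
    have a2 : (0 : ℝ) < m := by
      by_contra hc
      push Not at hc
      nlinarith
    have b2 : (0 : ℤ) < m := by exact_mod_cast a2
    have c2 : (1 : ℝ) ≤ m := by exact_mod_cast (by omega : (1 : ℤ) ≤ m)
    have : u ≤ x + y := by nlinarith
    linarith

theorem P_tendsto : Tendsto (P u v hu hv) (𝓝[>] 0) atTop := by
  have h1 := Helper487.ECM.tendsto_norm_wp_zero (rect u v hu hv)
  rw [Helper487.ECM.wp_zero_eq] at h1
  have h2 : Tendsto (fun x : ℝ => (x : ℂ)) (𝓝[>] (0 : ℝ)) (𝓝[≠] (0 : ℂ)) := by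
    refine tendsto_nhdsWithin_iff.2 ⟨?_, ?_⟩
    · have := Complex.continuous_ofReal.tendsto 0
      rw [Complex.ofReal_zero] at this
      exact this.mono_left nhdsWithin_le_nhds
    · filter_upwards [self_mem_nhdsWithin] with x hx
      simpa using (ne_of_gt hx : x ≠ 0)
  have h3 := h1.comp h2
  have h4 : Tendsto (fun x : ℝ => x ^ 2 * P u v hu hv x) (𝓝[>] 0) (𝓝 1) := by
    have h5 := (Complex.continuous_re.tendsto _).comp h3
    rw [Complex.one_re] at h5
    refine h5.congr fun x => ?_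
    simp only [Function.comp_apply]
    rw [P_spec]
    norm_cast
  have h5 : Tendsto (fun x : ℝ => (x ^ 2)⁻¹) (𝓝[>] 0) atTop := by
    have h6 : Tendsto (fun x : ℝ => x ^ 2) (𝓝[>] 0) (𝓝[>] 0) := by
      refine tendsto_nhdsWithin_iff.2 ⟨?_, ?_⟩
      · have : Tendsto (fun x : ℝ => x ^ 2) (𝓝 0) (𝓝 (0 ^ 2)) := (continuous_pow 2).tendsto 0
        rw [zero_pow two_ne_zero] at this
        exact this.mono_left nhdsWithin_le_nhds
      · filter_upwards [self_mem_nhdsWithin] with x hx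
        exact pow_pos (show 0 < x from hx) 2
    exact tendsto_inv_nhdsGT_zero.comp h6
  have h6 := h5.atTop_mul_pos one_pos h4
  refine h6.congr' ?_
  filter_upwards [self_mem_nhdsWithin] with x hx
  have : x ≠ 0 := ne_of_gt hx
  field_simp

theorem P_gt {x : ℝ} (h0 : 0 < x) (h1 : x < u / 2) : P u v hu hv (u / 2) < P u v hu hv x := by
  by_contra hc
  push Not at hc
  obtain ⟨y, hy1, hy0, hyx⟩ := ((P_tendsto (u := u) (v := v) (hu := hu) (hv := hv)).eventually
    (eventually_gt_atTop (P u v hu hv (u / 2)))).and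
    (Ioo_mem_nhdsGT h0) |>.exists
  have hcont : ContinuousOn (P u v hu hv) (Icc y x) :=
    P_cont.mono fun t ht => ⟨lt_of_lt_of_le hy0 ht.1, by linarith [ht.2]⟩
  obtain ⟨t, ht, hte⟩ := intermediate_value_Icc' hyx.le hcont ⟨hc, hy1.le⟩
  have := P_inj (u := u) (v := v) (hu := hu) (hv := hv) (x := t) (y := u / 2)
    (lt_of_lt_of_le hy0 ht.1) (by linarith [ht.2]) (by linarith) le_rfl hte
  linarith [ht.2]

theorem P_surj {X : ℝ} (hX : P u v hu hv (u / 2) < X) : ∃ x, 0 < x ∧ x < u / 2 ∧ P u v hu hv x = X := by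
  have hu2 : 0 < u / 2 := by linarith
  obtain ⟨y, hy1, hy0, hyx⟩ := ((P_tendsto (u := u) (v := v) (hu := hu) (hv := hv)).eventually
    (eventually_gt_atTop X)).and (Ioo_mem_nhdsGT hu2) |>.exists
  have hcont : ContinuousOn (P u v hu hv) (Icc y (u / 2)) :=
    P_cont.mono fun t ht => ⟨lt_of_lt_of_le hy0 ht.1, by linarith [ht.2]⟩
  obtain ⟨t, ht, hte⟩ := intermediate_value_Icc' hyx.le hcont ⟨hX.le, hy1.le⟩
  refine ⟨t, lt_of_lt_of_le hy0 ht.1, lt_of_le_of_ne ht.2 ?_, hte⟩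
  rintro rfl
  exact absurd hte hX.ne

end

/-- one step of the chain -/
theorem rect_step {u v : ℝ} {hu : 0 < u} {hv : 0 < v} {ε A B : ℝ} (hε : 0 < ε) (hA : 0 < A)
    (hB : 0 < B) (h1 : (rect u v hu hv).weierstrassP ((u / 2 : ℝ) : ℂ) = ((ε * ((A + B) / 3) : ℝ) : ℂ))
    (h2 : (rect u v hu hv).weierstrassP ((v / 2 : ℝ) * Complex.I) = ((ε * ((B - 2 * A) / 3) : ℝ) : ℂ)) :
    (rect (u / 2) v (half_pos hu) hv).weierstrassP ((u / 2 / 2 : ℝ) : ℂ) =
      ((ε * (((√A + √B) ^ 2 + 4 * √(A * B)) / 3) : ℝ) : ℂ) ∧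
    (rect (u / 2) v (half_pos hu) hv).weierstrassP ((v / 2 : ℝ) * Complex.I) =
      ((ε * ((4 * √(A * B) - 2 * (√A + √B) ^ 2) / 3) : ℝ) : ℂ) := by
  set L := rect u v hu hv with hL
  set L' := rect (u / 2) v (half_pos hu) hv with hL'
  have H : Halves L ((u / 2 : ℝ) : ℂ) ((v / 2 : ℝ) * Complex.I) := rect_halves
  have hmem : ∀ z, z ∈ L'.lattice ↔ z ∈ L.lattice ∨ z - ((u / 2 : ℝ) : ℂ) ∈ L.lattice := by
    intro z
    rw [hL', hL, mem_rect, mem_rect, mem_rect]
    constructor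
    · rintro ⟨m, n, rfl⟩
      rcases Int.even_or_odd' m with ⟨k, rfl | rfl⟩
      · left; exact ⟨k, n, by push_cast; ring⟩
      · right; exact ⟨k, n, by push_cast; ring⟩
    · rintro (⟨m, n, h⟩ | ⟨m, n, h⟩)
      · exact ⟨2 * m, n, by rw [← h]; push_cast; ring⟩
      · refine ⟨2 * m + 1, n, ?_⟩
        rw [eq_sub_iff_add_eq] at h
        rw [← h]; push_cast; ring
  have hd := wp_double L L' _ H.n1 hmem
  have s := H.sum_zero
  have q := H.quarter (q := ((u / 2 / 2 : ℝ) : ℂ)) (by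
    have : 2 * ((u / 2 / 2 : ℝ) : ℂ) - ((u / 2 : ℝ) : ℂ) = 0 := by push_cast; ring
    rw [this]; exact zero_mem _)
  have h3 : L.weierstrassP (((u / 2 : ℝ) : ℂ) + (v / 2 : ℝ) * Complex.I) =
      ((ε * ((A - 2 * B) / 3) : ℝ) : ℂ) := by
    rw [h1, h2] at s
    have : L.weierstrassP (((u / 2 : ℝ) : ℂ) + (v / 2 : ℝ) * Complex.I) =
      -(((ε * ((A + B) / 3) : ℝ) : ℂ) + ((ε * ((B - 2 * A) / 3) : ℝ) : ℂ)) := by
      linear_combination s
    rw [this]; push_cast; ring
  have hqv : P u v hu hv (u / 2 / 2) = ε * ((A + B) / 3) + ε * √(A * B) := by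
    have hgt : P u v hu hv (u / 2) < P u v hu hv (u / 2 / 2) := P_gt (by linarith) (by linarith)
    have e1 : P u v hu hv (u / 2) = ε * ((A + B) / 3) := by
      have := P_spec (u := u) (v := v) (hu := hu) (hv := hv) (u / 2)
      rw [← hL, h1] at this
      exact_mod_cast this.symm
    rw [h3, h1, h2, P_spec] at q
    have q' : (P u v hu hv (u / 2 / 2) - ε * ((A + B) / 3)) ^ 2 =
        (ε * ((A + B) / 3) - ε * ((B - 2 * A) / 3)) *
        (ε * ((A + B) / 3) - ε * ((A - 2 * B) / 3)) := by exact_mod_cast q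
    have q2 : (P u v hu hv (u / 2 / 2) - ε * ((A + B) / 3)) ^ 2 = (ε * √(A * B)) ^ 2 := by
      rw [q', mul_pow, Real.sq_sqrt (mul_pos hA hB).le]
      ring
    have p1 : 0 ≤ P u v hu hv (u / 2 / 2) - ε * ((A + B) / 3) := by linarith
    have p2 : 0 ≤ ε * √(A * B) := mul_nonneg hε.le (Real.sqrt_nonneg _)
    have := (pow_left_inj₀ p1 p2 two_ne_zero).1 q2
    linarith
  have hsq : (√A + √B) ^ 2 = A + B + 2 * √(A * B) := by
    rw [add_sq, Real.sq_sqrt hA.le, Real.sq_sqrt hB.le, Real.sqrt_mul hA.le]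
    ring
  constructor
  · rw [hd]
    have e1 : ((u / 2 / 2 : ℝ) : ℂ) - ((u / 2 : ℝ) : ℂ) = -((u / 2 / 2 : ℝ) : ℂ) := by
      push_cast; ring
    rw [e1, L.weierstrassP_neg, h1, P_spec, hqv, hsq]
    push_cast
    ring
  · rw [hd, h1, h2]
    have e1 : (v / 2 : ℝ) * Complex.I - ((u / 2 : ℝ) : ℂ) =
        ((u / 2 : ℝ) : ℂ) + (v / 2 : ℝ) * Complex.I - 2 * ((u / 2 : ℝ) : ℂ) := by ring
    have e2 := L.weierstrassP_sub_coe (((u / 2 : ℝ) : ℂ) + (v / 2 : ℝ) * Complex.I) ⟨_, H.d1⟩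
    simp only at e2
    rw [e1, e2, h3, hsq]
    push_cast
    ring

/-- the square lattice -/
theorem square_mem {z : ℂ} (hz : z ∈ (rect 1 1 one_pos one_pos).lattice) :
    Complex.I * z ∈ (rect 1 1 one_pos one_pos).lattice := by
  obtain ⟨m, n, rfl⟩ := mem_rect.1 hz
  refine mem_rect.2 ⟨-n, m, ?_⟩
  have := Complex.I_mul_I
  push_cast
  linear_combination (-n : ℂ) * this

theorem square_wp (z : ℂ) : (rect 1 1 one_pos one_pos).weierstrassP (Complex.I * z) =
    -(rect 1 1 one_pos one_pos).weierstrassP z := by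
  set L := rect 1 1 one_pos one_pos with hL
  let E : L.lattice ≃ L.lattice :=
    { toFun := fun l => ⟨Complex.I * l.1, square_mem l.2⟩
      invFun := fun l => ⟨-(Complex.I * l.1), neg_mem (square_mem l.2)⟩
      left_inv := fun l => Subtype.ext (by
        have := Complex.I_mul_I
        simp only
        linear_combination (-(l : ℂ)) * this)
      right_inv := fun l => Subtype.ext (by
        have := Complex.I_mul_I
        simp only
        linear_combination (-(l : ℂ)) * this) }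
  have h1 := L.hasSum_weierstrassP (Complex.I * z)
  rw [← E.hasSum_iff] at h1
  have h2 := (L.hasSum_weierstrassP z).neg
  refine h1.unique (h2.congr_fun fun l => ?_)
  have e1 : (Complex.I * z - ((E l : L.lattice) : ℂ)) ^ 2 = -(z - l) ^ 2 := by
    change (Complex.I * z - Complex.I * l) ^ 2 = _
    rw [← mul_sub, mul_pow, Complex.I_sq]; ring
  have e2 : (((E l : L.lattice) : ℂ)) ^ 2 = -(l : ℂ) ^ 2 := by
    change (Complex.I * (l : ℂ)) ^ 2 = _
    rw [mul_pow, Complex.I_sq]; ring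
  simp only [Function.comp_apply, e1, e2, one_div, inv_neg]
  ring

theorem exists_base : ∃ ε : ℝ, 0 < ε ∧
    (rect 1 1 one_pos one_pos).weierstrassP ((1 / 2 : ℝ) : ℂ) = ((ε * ((2 + 1) / 3) : ℝ) : ℂ) ∧
    (rect 1 1 one_pos one_pos).weierstrassP ((1 / 2 : ℝ) * Complex.I) =
      ((ε * ((1 - 2 * 2) / 3) : ℝ) : ℂ) := by
  set L := rect 1 1 one_pos one_pos with hL
  have H : Halves L ((1 / 2 : ℝ) : ℂ) ((1 / 2 : ℝ) * Complex.I) := rect_halves
  set e : ℝ := P 1 1 one_pos one_pos (1 / 2) with he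
  have h1 : L.weierstrassP ((1 / 2 : ℝ) : ℂ) = (e : ℂ) := P_spec _
  have h2 : L.weierstrassP ((1 / 2 : ℝ) * Complex.I) = -(e : ℂ) := by
    rw [mul_comm, square_wp, ← hL, h1]
  have h3 : L.weierstrassP (((1 / 2 : ℝ) : ℂ) + (1 / 2 : ℝ) * Complex.I) = 0 := by
    have := H.sum_zero
    rw [h1, h2] at this
    linear_combination this
  have hg2 : L.g₂ = 4 * (e : ℂ) ^ 2 := by rw [H.g2_eq, h1, h2, h3]; ring
  have hg3 : L.g₃ = 0 := by rw [H.g3_eq, h1, h2, h3]; ring
  have hne : e ≠ 0 := by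
    intro h
    have := H.ne12
    rw [h1, h2, h] at this
    simp at this
  have hpos : 0 < e := by
    by_contra hc
    have hlt : e < 0 := lt_of_le_of_ne (not_lt.1 hc) hne
    obtain ⟨x, hx0, hx1, hx⟩ := P_surj (u := 1) (v := 1) (hu := one_pos) (hv := one_pos)
      (X := -e / 2) (by rw [← he]; linarith)
    have h4 := L.derivWeierstrassP_sq (x : ℂ) (notMem_of hx0 (by linarith))
    rw [hg2, hg3, P_spec, hx, wpd_re] at h4
    have h5 : (L.derivWeierstrassP (x : ℂ)).re ^ 2 =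
        4 * (-e / 2) ^ 3 - 4 * e ^ 2 * (-e / 2) - 0 := by exact_mod_cast h4
    have h6 : 0 ≤ (L.derivWeierstrassP (x : ℂ)).re ^ 2 := sq_nonneg _
    have h7 : 0 < (-e) ^ 3 := pow_pos (by linarith) 3
    nlinarith
  refine ⟨e, hpos, ?_, ?_⟩
  · rw [h1]; congr 1; ring
  · rw [h2]; push_cast; ring

end Pool.Agent.W520
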