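import Mathlib
import Pool.Agent.W520.Lift
import Pool.Agent.W520.Rect

/-!
A sequence of elliptic curves `v ^ 2 = (p + 2) (p ^ 2 - c ^ 2)` over the field of algebraic numbers
all of whose periods are algebraic multiples of one number.
-/

set_option autoImplicit false

open Set Filter Topology MeasureTheory

namespace Pool.Agent.W520

/-- a closed path on the affine curve `v ^ 2 = (p + 2) (p ^ 2 - c ^ 2)`; `a` is the pull back of the
form `dp / v` -/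
structure EPath (c : ℂ) (p v a : ℝ → ℂ) : Prop where
  acont : ContinuousOn a (Icc 0 1)
  pderiv : ∀ s ∈ Icc (0 : ℝ) 1, HasDerivWithinAt p (v s * a s) (Icc 0 1) s
  vderiv : ∀ s ∈ Icc (0 : ℝ) 1,
    HasDerivWithinAt v ((3 * p s ^ 2 + 4 * p s - c ^ 2) / 2 * a s) (Icc 0 1) s
  eq0 : v 0 ^ 2 = (p 0 + 2) * (p 0 ^ 2 - c ^ 2)
  pclosed : p 1 = p 0
  vclosed : v 1 = v 0

/-- the sequence of the pairs `(A, B)` -/
noncomputable def AB : ℕ → ℝ × ℝ
  | 0 => (2, 1)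
  | n + 1 => ((√(AB n).1 + √(AB n).2) ^ 2, 4 * √((AB n).1 * (AB n).2))

theorem AB_pos (n : ℕ) : 0 < (AB n).1 ∧ 0 < (AB n).2 := by
  induction n with
  | zero => simp [AB]
  | succ n ih =>
    have h1 := Real.sqrt_pos.2 ih.1
    have h2 := Real.sqrt_pos.2 ih.2
    refine ⟨?_, ?_⟩
    · simp only [AB]; positivity
    · simp only [AB]
      have := Real.sqrt_pos.2 (mul_pos ih.1 ih.2)
      positivity

theorem AB_lt (n : ℕ) : (AB n).2 < (AB n).1 := by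
  induction n with
  | zero => simp [AB]
  | succ n ih =>
    have h1 := Real.sqrt_pos.2 (AB_pos n).1
    have h2 := Real.sqrt_pos.2 (AB_pos n).2
    have h3 : √(AB n).2 < √(AB n).1 := Real.sqrt_lt_sqrt (AB_pos n).2.le ih
    simp only [AB]
    rw [Real.sqrt_mul (AB_pos n).1.le]
    nlinarith [sq_pos_of_pos (sub_pos.2 h3)]

/-- the quotient increases -/
theorem AB_mono (n : ℕ) : (AB n).2 * (AB (n + 1)).1 < (AB (n + 1)).2 * (AB n).1 := by
  have h1 := Real.sqrt_pos.2 (AB_pos n).1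
  have h2 := Real.sqrt_pos.2 (AB_pos n).2
  have h3 : √(AB n).2 < √(AB n).1 := Real.sqrt_lt_sqrt (AB_pos n).2.le (AB_lt n)
  have e1 : (AB n).1 = √(AB n).1 ^ 2 := (Real.sq_sqrt (AB_pos n).1.le).symm
  have e2 : (AB n).2 = √(AB n).2 ^ 2 := (Real.sq_sqrt (AB_pos n).2.le).symm
  simp only [AB]
  rw [Real.sqrt_mul (AB_pos n).1.le]
  set a := √(AB n).1
  set b := √(AB n).2
  rw [e1, e2]
  have h4 : b * (a + b) ^ 2 < 4 * a * a ^ 2 := by
    have : (a + b) ^ 2 < (2 * a) ^ 2 := by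
      apply pow_lt_pow_left₀ _ (by positivity) two_ne_zero
      linarith
    calc b * (a + b) ^ 2 < a * (2 * a) ^ 2 := mul_lt_mul'' h3 this h2.le (by positivity)
      _ = 4 * a * a ^ 2 := by ring
  calc b ^ 2 * (a + b) ^ 2 = b * (b * (a + b) ^ 2) := by ring
    _ < b * (4 * a * a ^ 2) := by gcongr
    _ = 4 * (a * b) * a ^ 2 := by ring

theorem AB_half (n : ℕ) : (AB (n + 1)).1 < 2 * (AB (n + 1)).2 := by
  induction n with
  | zero =>
    have h := AB_mono 0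
    have e1 : (AB 0).1 = 2 := rfl
    have e2 : (AB 0).2 = 1 := rfl
    rw [e1, e2] at h
    linarith
  | succ n ih =>
    have h := AB_mono (n + 1)
    have p1 := (AB_pos (n + 1)).1
    have p2 := (AB_pos (n + 1)).2
    have p3 := (AB_pos (n + 2)).1
    have p4 := (AB_pos (n + 2)).2
    by_contra hc
    push Not at hc
    have : (AB (n + 2)).2 * (AB (n + 1)).1 ≤ (AB (n + 2)).1 * (AB (n + 1)).2 := by
      nlinarith
    have e : n + 1 + 1 = n + 2 := rfl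
    rw [e] at h
    linarith

theorem isAlgebraic_sqrt {x : ℝ} (hx : 0 ≤ x) (h : IsAlgebraic ℚ x) : IsAlgebraic ℚ (√x) := by
  apply IsAlgebraic.of_pow (n := 2) two_pos
  rwa [Real.sq_sqrt hx]

theorem AB_alg (n : ℕ) : IsAlgebraic ℚ (AB n).1 ∧ IsAlgebraic ℚ (AB n).2 := by
  induction n with
  | zero =>
    refine ⟨?_, ?_⟩
    · exact isAlgebraic_natCast 2
    · simp only [AB]; exact isAlgebraic_one
  | succ n ih =>
    have p1 := (AB_pos n).1
    have p2 := (AB_pos n).2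
    simp only [AB]
    refine ⟨((isAlgebraic_sqrt p1.le ih.1).add (isAlgebraic_sqrt p2.le ih.2)).pow 2, ?_⟩
    exact (isAlgebraic_natCast 4).mul (isAlgebraic_sqrt (mul_pos p1 p2).le (ih.1.mul ih.2))

theorem pow_half_pos (n : ℕ) : (0 : ℝ) < (1 / 2) ^ n := by positivity

theorem lattice_values : ∃ ε : ℝ, 0 < ε ∧ ∀ n : ℕ, ∃ (u : ℝ) (hu : 0 < u), IsAlgebraic ℚ u ∧
    (rect u 1 hu one_pos).weierstrassP ((u / 2 : ℝ) : ℂ) =
      ((ε * (((AB n).1 + (AB n).2) / 3) : ℝ) : ℂ) ∧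
    (rect u 1 hu one_pos).weierstrassP ((1 / 2 : ℝ) * Complex.I) =
      ((ε * (((AB n).2 - 2 * (AB n).1) / 3) : ℝ) : ℂ) := by
  obtain ⟨ε, hε, h1, h2⟩ := exists_base
  refine ⟨ε, hε, fun n => ?_⟩
  induction n with
  | zero => exact ⟨1, one_pos, isAlgebraic_one, h1, h2⟩
  | succ n ih =>
    obtain ⟨u, hu, hal, k1, k2⟩ := ih
    obtain ⟨m1, m2⟩ := rect_step (hu := hu) (hv := one_pos) hε (AB_pos n).1 (AB_pos n).2 k1 k2
    refine ⟨u / 2, half_pos hu, ?_, m1, m2⟩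
    rw [div_eq_mul_inv]
    exact hal.mul (isAlgebraic_natCast 2).inv

/-- the parameter of the elliptic curve -/
noncomputable def cc (n : ℕ) : ℝ := 2 * (AB (n + 1)).1 / (2 * (AB (n + 1)).2 - (AB (n + 1)).1)

theorem cc_gt (n : ℕ) : 2 < cc n := by
  have h1 := AB_half n
  have h2 := AB_lt (n + 1)
  have h3 : 0 < 2 * (AB (n + 1)).2 - (AB (n + 1)).1 := by linarith
  rw [cc, lt_div_iff₀ h3]
  linarith

theorem cc_anti : StrictAnti cc := by
  refine strictAnti_nat_of_succ_lt fun n => ?_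
  have h1 := AB_half n
  have h2 := AB_half (n + 1)
  have h3 : 0 < 2 * (AB (n + 1)).2 - (AB (n + 1)).1 := by linarith
  have h4 : 0 < 2 * (AB (n + 1 + 1)).2 - (AB (n + 1 + 1)).1 := by linarith
  have h5 := AB_mono (n + 1)
  rw [cc, cc, div_lt_div_iff₀ h4 h3]
  nlinarith

theorem cc_alg (n : ℕ) : IsAlgebraic ℚ (cc n) := by
  have h := AB_alg (n + 1)
  rw [cc, div_eq_mul_inv]
  exact ((isAlgebraic_natCast 2).mul h.1).mul (((isAlgebraic_natCast 2).mul h.2).sub h.1).inv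

theorem isAlgebraic_ofReal {x : ℝ} (h : IsAlgebraic ℚ x) : IsAlgebraic ℚ (x : ℂ) :=
  h.algebraMap (A := ℂ)

theorem isAlgebraic_I : IsAlgebraic ℚ Complex.I := by
  apply IsAlgebraic.of_pow (n := 2) two_pos
  rw [Complex.I_sq]
  exact isAlgebraic_one.neg

/-- **CM curves.** -/
theorem cm_periods : ∃ Ω : ℂ, Ω ≠ 0 ∧ ∀ (n : ℕ) (p v a : ℝ → ℂ), EPath (cc n) p v a →
    IsAlgebraic ℚ (Ω * ∫ s in (0 : ℝ)..1, a s) := by
  obtain ⟨ε, hε, hval⟩ := lattice_values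
  have hsε : (0 : ℝ) < √ε := Real.sqrt_pos.2 hε
  refine ⟨((√ε)⁻¹ : ℝ), by exact_mod_cast (inv_pos.2 hsε).ne', fun n p v a hp => ?_⟩
  obtain ⟨u, hu, hal, k1, k2⟩ := hval (n + 1)
  have hA := (AB_pos (n + 1)).1
  have hB := (AB_pos (n + 1)).2
  have hhalf := AB_half n
  have halA := (AB_alg (n + 1)).1
  have halB := (AB_alg (n + 1)).2
  set A := (AB (n + 1)).1 with hAdef
  set B := (AB (n + 1)).2 with hBdef
  have hD : 0 < 2 * B - A := by linarith
  set L := rect u 1 hu one_pos with hL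
  have H : Halves L ((u / 2 : ℝ) : ℂ) ((1 / 2 : ℝ) * Complex.I) := rect_halves
  have h3 : L.weierstrassP (((u / 2 : ℝ) : ℂ) + (1 / 2 : ℝ) * Complex.I) =
      ((ε * ((A - 2 * B) / 3) : ℝ) : ℂ) := by
    have s := H.sum_zero
    rw [k1, k2] at s
    have : L.weierstrassP (((u / 2 : ℝ) : ℂ) + (1 / 2 : ℝ) * Complex.I) =
      -(((ε * ((A + B) / 3) : ℝ) : ℂ) + ((ε * ((B - 2 * A) / 3) : ℝ) : ℂ)) := by
      linear_combination s
    rw [this]; push_cast; ring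
  have hg2 := H.g2_eq
  have hg3 := H.g3_eq
  rw [k1, k2, h3] at hg2 hg3
  -- the change of coordinates
  set r : ℝ := √ε * √(2 * B - A) / 2 with hr
  have hsD : 0 < √(2 * B - A) := Real.sqrt_pos.2 hD
  have hr0 : 0 < r := by positivity
  have hr2 : r ^ 2 = ε * (2 * B - A) / 4 := by
    rw [hr, div_pow, mul_pow, Real.sq_sqrt hε.le, Real.sq_sqrt hD.le]
    norm_num
  have hr2c : (r : ℂ) ^ 2 = (ε : ℂ) * (2 * B - A) / 4 := by exact_mod_cast hr2
  have hrc : (r : ℂ) ≠ 0 := by exact_mod_cast hr0.ne'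
  set β : ℂ := (ε : ℂ) * (2 * B - A) / 6 with hβ
  have hc : ((cc n : ℝ) : ℂ) * (2 * B - A) = 2 * A := by
    have : cc n * (2 * B - A) = 2 * A := by
      rw [cc, ← hAdef, ← hBdef]
      field_simp
    exact_mod_cast this
  set c : ℂ := ((cc n : ℝ) : ℂ) with hcdef
  have hrc2 : (r : ℂ) ^ 2 * c = (ε : ℂ) * A / 2 := by
    rw [hr2c]
    linear_combination (ε / 4 : ℂ) * hc
  have hβr : β = 2 / 3 * (r : ℂ) ^ 2 := by rw [hr2c, hβ]; ring
  have hg2' : L.g₂ = 4 * ((r : ℂ) ^ 4 * (4 / 3 + c ^ 2)) := by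
    have e1 : (r : ℂ) ^ 4 * (4 / 3 + c ^ 2) = 4 / 3 * ((r : ℂ) ^ 2) ^ 2 + ((r : ℂ) ^ 2 * c) ^ 2 := by
      ring
    rw [e1, hrc2, hr2c, hg2]
    push_cast
    ring
  have hg3' : L.g₃ = 4 * ((r : ℂ) ^ 6 * (4 / 3 * c ^ 2 - 16 / 27)) := by
    have e1 : (r : ℂ) ^ 6 * (4 / 3 * c ^ 2 - 16 / 27) =
        4 / 3 * (r : ℂ) ^ 2 * ((r : ℂ) ^ 2 * c) ^ 2 - 16 / 27 * ((r : ℂ) ^ 2) ^ 3 := by
      ring
    rw [e1, hrc2, hr2c, hg3]
    push_cast
    ring
  have hlift := lift_period L (x := fun s => (r : ℂ) ^ 2 * p s + β)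
    (y := fun s => 2 * (r : ℂ) ^ 3 * v s) (a := fun s => (2 * (r : ℂ))⁻¹ * a s)
    (continuousOn_const.mul hp.acont) (fun s hs => ?_) (fun s hs => ?_) ?_ ?_ ?_
  · -- conclusion
    have hI : ∫ s in (0 : ℝ)..1, (2 * (r : ℂ))⁻¹ * a s = (2 * (r : ℂ))⁻¹ * ∫ s in (0 : ℝ)..1, a s :=
      intervalIntegral.integral_const_mul _ _
    rw [hI, hL, mem_rect] at hlift
    obtain ⟨m, k, hmk⟩ := hlift
    have h2r : (2 * (r : ℂ)) ≠ 0 := mul_ne_zero two_ne_zero hrc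
    have hint : ∫ s in (0 : ℝ)..1, a s = 2 * (r : ℂ) * ((m : ℂ) * u + k * ((1 : ℝ) * Complex.I)) := by
      rw [hmk]; field_simp
    rw [hint]
    have e : (((√ε)⁻¹ : ℝ) : ℂ) * (2 * (r : ℂ) * ((m : ℂ) * u + k * ((1 : ℝ) * Complex.I))) =
        (√(2 * B - A) : ℂ) * ((m : ℂ) * u + k * ((1 : ℝ) * Complex.I)) := by
      rw [hr]
      have : (√ε : ℂ) ≠ 0 := by exact_mod_cast hsε.ne'
      push_cast
      field_simp
    rw [e]
    refine (isAlgebraic_ofReal (isAlgebraic_sqrt hD.le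
      (((isAlgebraic_natCast 2).mul halB).sub halA))).mul ?_
    refine ((isAlgebraic_intCast m).mul (isAlgebraic_ofReal hal)).add ((isAlgebraic_intCast k).mul ?_)
    rw [Complex.ofReal_one, one_mul]
    exact isAlgebraic_I
  · have h1 := ((hp.pderiv s hs).const_mul ((r : ℂ) ^ 2)).add_const β
    refine h1.congr_deriv ?_
    field_simp
  · have h1 := (hp.vderiv s hs).const_mul (2 * (r : ℂ) ^ 3)
    refine h1.congr_deriv ?_
    rw [hg2', hβr]
    field_simp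
    ring
  · rw [mul_pow, hp.eq0, hg2', hg3', hβr]
    ring
  · simp only [hp.pclosed]
  · simp only [hp.vclosed]

end Pool.Agent.W520
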