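import Mathlib
import Pool.Agent.W520.Lift2
import Pool.Agent.W520.Half

/-!
The hexagonal lattice and the curves `v ^ 2 = 1 + λ u ^ 3`.
-/

set_option autoImplicit false

open Set Filter Topology MeasureTheory

namespace Pool.Agent.W520

/-- the primitive third root of unity -/
noncomputable def rho : ℂ := (-1 + (√3 : ℝ) * Complex.I) / 2

theorem rho_re : rho.re = -1 / 2 := by
  have : rho = ((-1 / 2 : ℝ) : ℂ) + ((√3 / 2 : ℝ) : ℂ) * Complex.I := by
    rw [rho]; push_cast; ring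
  rw [this]
  simp

theorem rho_im : rho.im = √3 / 2 := by
  have : rho = ((-1 / 2 : ℝ) : ℂ) + ((√3 / 2 : ℝ) : ℂ) * Complex.I := by
    rw [rho]; push_cast; ring
  rw [this]
  simp

theorem rho_im_pos : 0 < rho.im := by
  rw [rho_im]
  have : (0 : ℝ) < √3 := Real.sqrt_pos.2 (by norm_num)
  positivity

theorem rho_eq : rho ^ 2 + rho + 1 = 0 := by
  have h3 : ((√3 : ℝ) : ℂ) ^ 2 = 3 := by
    have : (√3 : ℝ) ^ 2 = 3 := Real.sq_sqrt (by norm_num)
    exact_mod_cast this
  rw [rho]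
  have hI := Complex.I_sq
  linear_combination (1 / 4 : ℂ) * Complex.I ^ 2 * h3 + (3 / 4 : ℂ) * hI

theorem rho_sq : rho ^ 2 = -rho - 1 := by linear_combination rho_eq

theorem rho_cube : rho ^ 3 = 1 := by linear_combination (rho - 1) * rho_eq

theorem rho_ne : rho ≠ 0 := by
  intro h
  have := rho_cube
  rw [h] at this
  norm_num at this

theorem rho_ne_one : rho ≠ 1 := by
  intro h
  have := rho_eq
  rw [h] at this
  norm_num at this

/-- the hexagonal lattice -/
noncomputable def hex : PeriodPair where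
  ω₁ := 1
  ω₂ := rho
  indep := by
    rw [LinearIndependent.pair_iff]
    intro s t h
    have h2 := congrArg Complex.im h
    have h1 := congrArg Complex.re h
    simp at h1 h2
    have h3 : t = 0 := h2.resolve_right rho_im_pos.ne'
    rw [h3] at h1
    simp at h1
    exact ⟨h1, h3⟩

theorem mem_hex {z : ℂ} : z ∈ hex.lattice ↔ ∃ m n : ℤ, (m : ℂ) * 1 + n * rho = z :=
  PeriodPair.mem_lattice

theorem rho_mul_mem {z : ℂ} (h : z ∈ hex.lattice) : rho * z ∈ hex.lattice := by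
  obtain ⟨m, n, rfl⟩ := mem_hex.1 h
  refine mem_hex.2 ⟨-n, m - n, ?_⟩
  push_cast
  linear_combination -(n : ℂ) * rho_eq

/-- multiplication by the root of unity -/
noncomputable def rhoEquiv : hex.lattice ≃ hex.lattice where
  toFun l := ⟨rho * l, rho_mul_mem l.2⟩
  invFun l := ⟨rho * (rho * l), rho_mul_mem (rho_mul_mem l.2)⟩
  left_inv l := by
    ext
    simp only
    linear_combination (l : ℂ) * rho_cube
  right_inv l := by
    ext
    simp only
    linear_combination (l : ℂ) * rho_cube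

theorem g2_zero : hex.g₂ = 0 := by
  have h : hex.G 4 = rho⁻¹ * hex.G 4 := by
    have h1 : hex.G 4 = ∑' l : hex.lattice, (((rhoEquiv l : hex.lattice) : ℂ) ^ 4)⁻¹ :=
      (rhoEquiv.tsum_eq (fun l : hex.lattice => ((l : ℂ) ^ 4)⁻¹)).symm
    conv_lhs => rw [h1]
    rw [PeriodPair.G, ← tsum_mul_left]
    congr 1
    funext l
    have : ((rhoEquiv l : hex.lattice) : ℂ) = rho * l := rfl
    rw [this, mul_pow, mul_inv]
    congr 1
    rw [show rho ^ 4 = rho ^ 3 * rho by ring, rho_cube, one_mul]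
  have h2 : (1 - rho⁻¹) * hex.G 4 = 0 := by linear_combination h
  rcases mul_eq_zero.1 h2 with h3 | h3
  · exfalso
    apply rho_ne_one
    have h4 : rho⁻¹ = 1 := by linear_combination -h3
    rw [inv_eq_one] at h4
    exact h4
  · rw [PeriodPair.g₂, h3, mul_zero]

theorem hex_halves : Halves hex (1 / 2) (rho / 2) := by
  have key : ∀ a b : ℤ, ((a : ℂ) / 2 + (b : ℂ) * rho / 2 ∈ hex.lattice) → 2 ∣ a ∧ 2 ∣ b := by
    intro a b h
    obtain ⟨m, n, h⟩ := mem_hex.1 h
    have h1 : (((2 * m - a : ℤ) : ℝ) : ℂ) + (((2 * n - b : ℤ) : ℝ) : ℂ) * rho = 0 := by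
      push_cast
      linear_combination 2 * h
    have h2 := congrArg Complex.im h1
    rw [Complex.add_im, Complex.ofReal_im, Complex.im_ofReal_mul, Complex.zero_im, zero_add] at h2
    have h3 : ((2 * n - b : ℤ) : ℝ) = 0 := (mul_eq_zero.1 h2).resolve_right rho_im_pos.ne'
    rw [h3] at h1
    simp only [Complex.ofReal_zero, zero_mul, add_zero] at h1
    have h4 : ((2 * m - a : ℤ) : ℝ) = 0 := by exact_mod_cast h1
    have h5 : (2 * n - b : ℤ) = 0 := by exact_mod_cast h3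
    have h6 : (2 * m - a : ℤ) = 0 := by exact_mod_cast h4
    exact ⟨⟨m, by linarith⟩, ⟨n, by linarith⟩⟩
  refine ⟨?_, ?_, ?_, ?_, ?_⟩
  · exact mem_hex.2 ⟨1, 0, by push_cast; ring⟩
  · exact mem_hex.2 ⟨0, 1, by push_cast; ring⟩
  · intro h
    have := key 1 0 (by convert! h using 1; push_cast; ring)
    omega
  · intro h
    have := key 0 1 (by convert! h using 1; push_cast; ring)
    omega
  · intro h
    have := key 1 1 (by convert! h using 1; push_cast; ring)
    omega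

theorem g3_ne : hex.g₃ ≠ 0 := by
  intro h
  have H := hex_halves
  have h1 := H.cubic1
  have h2 := H.symm.cubic1
  rw [g2_zero, h] at h1 h2
  have e1 : hex.weierstrassP (1 / 2) = 0 := by
    have : hex.weierstrassP (1 / 2) ^ 3 = 0 := by linear_combination h1 / 4
    exact pow_eq_zero_iff three_ne_zero |>.1 this
  have e2 : hex.weierstrassP (rho / 2) = 0 := by
    have : hex.weierstrassP (rho / 2) ^ 3 = 0 := by linear_combination h2 / 4
    exact pow_eq_zero_iff three_ne_zero |>.1 this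
  exact H.ne12 (by rw [e1, e2])

/-- a path on the affine curve `v ^ 2 = 1 + λ u ^ 3`; `a` is the pull back of the form `du / v` -/
structure HPath (lam : ℂ) (u v a : ℝ → ℂ) : Prop where
  acont : ContinuousOn a (Icc 0 1)
  uderiv : ∀ s ∈ Icc (0 : ℝ) 1, HasDerivWithinAt u (v s * a s) (Icc 0 1) s
  vderiv : ∀ s ∈ Icc (0 : ℝ) 1,
    HasDerivWithinAt v (3 * lam * u s ^ 2 / 2 * a s) (Icc 0 1) s
  eq0 : v 0 ^ 2 = 1 + lam * u 0 ^ 3

theorem hex_paths : ∃ Ω : ℂ, Ω ≠ 0 ∧ ∀ lam l : ℂ, l ≠ 0 → l ^ 3 = lam → ∃ t : ℂ → ℂ → ℂ,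
    ∀ u v a : ℝ → ℂ, HPath lam u v a →
      l * Ω⁻¹ * (∫ s in (0 : ℝ)..1, a s) - (t (u 1) (v 1) - t (u 0) (v 0)) ∈ hex.lattice := by
  obtain ⟨β, hβ⟩ : ∃ β : ℂ, β ^ 2 = -hex.g₃ := IsAlgClosed.exists_pow_nat_eq _ two_pos
  obtain ⟨γ, hγ⟩ : ∃ γ : ℂ, γ ^ 3 = -hex.g₃ / 4 := IsAlgClosed.exists_pow_nat_eq _ three_pos
  have hβ0 : β ≠ 0 := by
    rintro rfl
    apply g3_ne
    linear_combination hβ
  have hγ0 : γ ≠ 0 := by
    rintro rfl
    apply g3_ne
    linear_combination 4 * hγ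
  refine ⟨β / γ, div_ne_zero hβ0 hγ0, fun lam l hl hlam => ?_⟩
  obtain ⟨t, ht⟩ := exists_coord hex
  refine ⟨fun u v => t (γ * l * u) (β * v), fun u v a h => ?_⟩
  have key := lift_diff hex ht (x := fun s => γ * l * u s) (y := fun s => β * v s)
    (a := fun s => (γ * l / β) * a s) (continuousOn_const.mul h.acont) (fun s hs => ?_)
    (fun s hs => ?_) ?_
  · rw [intervalIntegral.integral_const_mul] at key
    have e : l * (β / γ)⁻¹ = γ * l / β := by field_simp
    rw [e]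
    exact key
  · refine ((h.uderiv s hs).const_mul (γ * l)).congr_deriv ?_
    field_simp
  · refine ((h.vderiv s hs).const_mul β).congr_deriv ?_
    rw [g2_zero, ← hlam]
    have e : β ^ 2 = 4 * γ ^ 3 := by rw [hβ, hγ]; ring
    field_simp
    linear_combination (3 * l ^ 2 * u s ^ 2 * a s : ℂ) * e
  · rw [g2_zero, mul_pow, h.eq0, ← hlam]
    have e : hex.g₃ = -β ^ 2 := by rw [hβ]; ring
    have e2 : β ^ 2 = 4 * γ ^ 3 := by rw [hβ, hγ]; ring
    rw [e]
    linear_combination (l ^ 3 * u 0 ^ 3 : ℂ) * e2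

end Pool.Agent.W520
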