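import Mathlib
import Pool.Agent.W520.D3Defs
import Pool.Agent.W520.Hex
import Pool.Agent.W520.Elliptic

/-!
The four maps to elliptic curves, and the periods.
-/

set_option autoImplicit false

open Set Filter Topology MeasureTheory

namespace Pool.Agent.W520.D3

theorem hasDeriv_of_six {y g : ℝ → ℂ} {g' : ℂ} {s : ℝ} {K : Set ℝ} (hs : s ∈ K)
    (hy : ContinuousWithinAt y K s) (hne : y s ≠ 0) (hsq : ∀ u ∈ K, y u ^ 6 = g u)
    (hg : HasDerivWithinAt g g' K s) : HasDerivWithinAt y (g' / (6 * y s ^ 5)) K s := by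
  rw [hasDerivWithinAt_iff_tendsto_slope] at hg ⊢
  have hy' : Tendsto y (𝓝[K \ {s}] s) (𝓝 (y s)) := hy.mono_left (nhdsWithin_mono _ sdiff_subset)
  have hsum : Tendsto (fun u => y u ^ 5 + y u ^ 4 * y s + y u ^ 3 * y s ^ 2 +
      y u ^ 2 * y s ^ 3 + y u * y s ^ 4 + y s ^ 5) (𝓝[K \ {s}] s) (𝓝 (6 * y s ^ 5)) := by
    have := ((((((hy'.pow 5).add ((hy'.pow 4).mul_const (y s))).add
      ((hy'.pow 3).mul_const (y s ^ 2))).add ((hy'.pow 2).mul_const (y s ^ 3))).add
      (hy'.mul_const (y s ^ 4))).add_const (y s ^ 5))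
    refine this.trans (le_of_eq ?_)
    congr 1
    ring
  have h2 : (6 * y s ^ 5) ≠ 0 := mul_ne_zero (by norm_num) (pow_ne_zero 5 hne)
  have h := hg.div hsum h2
  refine h.congr' ?_
  filter_upwards [hsum.eventually_ne h2, self_mem_nhdsWithin] with u hu huK
  rw [Pi.div_apply, slope_def_module, slope_def_module, ← hsq u huK.1, ← hsq s hs, div_eq_iff hu]
  simp only [Complex.real_smul]
  ring

section

variable {f : Polynomial ℂ}

theorem arc_deriv (γ : Arc f) {s : ℝ} (hs : s ∈ Icc (0 : ℝ) 1) :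
    HasDerivWithinAt γ.y (f.derivative.eval (γ.x s) * deriv γ.x s / (6 * γ.y s ^ 5))
      (Icc 0 1) s := by
  refine hasDeriv_of_six hs (γ.cont s hs) (γ.ne s hs) γ.curve ?_
  have h1 : HasDerivAt γ.x (deriv γ.x s) s :=
    (γ.smooth.differentiable one_ne_zero s).hasDerivAt
  exact ((f.hasDerivAt (γ.x s)).comp s h1).hasDerivWithinAt

/-- a map from the curve to an elliptic curve -/
structure ToE (f : Polynomial ℂ) (lam : ℂ) (U V W : Polynomial ℂ) : Prop where
  eq1 : ∀ x, V.eval x ^ 2 = f.eval x + lam * U.eval x ^ 3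
  eq2 : ∀ x, 3 * (U.derivative.eval x) * f.eval x - U.eval x * f.derivative.eval x =
    3 * W.eval x * V.eval x
  eq3 : ∀ x, 2 * (V.derivative.eval x) * f.eval x - V.eval x * f.derivative.eval x =
    3 * lam * U.eval x ^ 2 * W.eval x

theorem arc_path {lam : ℂ} {U V W : Polynomial ℂ} (h : ToE f lam U V W) (γ : Arc f) :
    HPath lam (fun s => U.eval (γ.x s) / γ.y s ^ 2) (fun s => V.eval (γ.x s) / γ.y s ^ 3)
      (fun s => W.eval (γ.x s) / γ.y s ^ 5 * deriv γ.x s) := by
  have hxd : ∀ s, HasDerivAt γ.x (deriv γ.x s) s := fun s =>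
    (γ.smooth.differentiable one_ne_zero s).hasDerivAt
  have hcomp : ∀ (P : Polynomial ℂ) (s : ℝ), HasDerivWithinAt (fun s => P.eval (γ.x s))
      (P.derivative.eval (γ.x s) * deriv γ.x s) (Icc 0 1) s := fun P s =>
    ((P.hasDerivAt (γ.x s)).comp s (hxd s)).hasDerivWithinAt
  refine ⟨?_, fun s hs => ?_, fun s hs => ?_, ?_⟩
  · refine ContinuousOn.mul (ContinuousOn.div ?_ (γ.cont.pow 5) fun s hs =>
      pow_ne_zero 5 (γ.ne s hs)) (γ.smooth.continuous_deriv le_rfl).continuousOn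
    exact (W.continuous.comp γ.smooth.continuous).continuousOn
  · have h1 := (hcomp U s).div ((arc_deriv γ hs).pow 2) (pow_ne_zero 2 (γ.ne s hs))
    refine h1.congr_deriv ?_
    have e2 := h.eq2 (γ.x s)
    have hy := γ.ne s hs
    have hc := γ.curve s hs
    rw [← hc] at e2
    simp only [Pi.pow_apply]
    generalize γ.y s = y at *
    generalize Polynomial.eval (γ.x s) U = u at *
    generalize Polynomial.eval (γ.x s) (Polynomial.derivative U) = u' at *
    generalize Polynomial.eval (γ.x s) V = v at *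
    generalize Polynomial.eval (γ.x s) W = w at *
    generalize Polynomial.eval (γ.x s) (Polynomial.derivative f) = g' at *
    generalize deriv γ.x s = d at *
    push_cast
    field_simp
    linear_combination (2 * d : ℂ) * e2
  · have h1 := (hcomp V s).div ((arc_deriv γ hs).pow 3) (pow_ne_zero 3 (γ.ne s hs))
    refine h1.congr_deriv ?_
    have e3 := h.eq3 (γ.x s)
    have hy := γ.ne s hs
    have hc := γ.curve s hs
    rw [← hc] at e3
    simp only [Pi.pow_apply]
    generalize γ.y s = y at *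
    generalize Polynomial.eval (γ.x s) U = u at *
    generalize Polynomial.eval (γ.x s) V = v at *
    generalize Polynomial.eval (γ.x s) (Polynomial.derivative V) = v' at *
    generalize Polynomial.eval (γ.x s) W = w at *
    generalize Polynomial.eval (γ.x s) (Polynomial.derivative f) = g' at *
    generalize deriv γ.x s = d at *
    push_cast
    field_simp
    linear_combination (6 * d : ℂ) * e3
  · have hs : (0 : ℝ) ∈ Icc (0 : ℝ) 1 := by simp
    have hy := γ.ne 0 hs
    rw [div_pow, h.eq1, ← γ.curve 0 hs]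
    field_simp

/-- chains -/
theorem period_sub (c d : Arc f →₀ ℤ) (θ : ℂ → ℂ → ℂ) :
    period (c - d) θ = period c θ - period d θ := by
  unfold period
  rw [Finsupp.sum_sub_index]
  intro γ m n
  push_cast
  ring

theorem period_single (γ : Arc f) (θ : ℂ → ℂ → ℂ) :
    period (Finsupp.single γ 1) θ = ∫ s in (0 : ℝ)..1, θ (γ.x s) (γ.y s) * deriv γ.x s := by
  unfold period
  rw [Finsupp.sum_single_index (by simp)]
  simp

theorem boundary_sub (c d : Arc f →₀ ℤ) : boundary (c - d) = boundary c - boundary d := by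
  unfold boundary
  rw [Finsupp.sum_sub_index]
  intro γ m n
  rw [Finsupp.single_sub, Finsupp.single_sub]
  abel

theorem boundary_single (γ : Arc f) : boundary (Finsupp.single γ 1) =
    Finsupp.single (γ.x 1, γ.y 1) 1 - Finsupp.single (γ.x 0, γ.y 0) 1 := by
  unfold boundary
  rw [Finsupp.sum_single_index (by simp)]

theorem cycle_mem {Λ : Submodule ℤ ℂ} {T : ℂ × ℂ → ℂ} {k : ℂ} {θ : ℂ → ℂ → ℂ}
    (h : ∀ γ : Arc f, k * (∫ s in (0 : ℝ)..1, θ (γ.x s) (γ.y s) * deriv γ.x s) -
      (T (γ.x 1, γ.y 1) - T (γ.x 0, γ.y 0)) ∈ Λ) {c : Arc f →₀ ℤ} (hc : boundary c = 0) :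
    k * period c θ ∈ Λ := by
  set Φ : ((ℂ × ℂ) →₀ ℤ) →+ ℂ := Finsupp.liftAddHom fun P => (zmultiplesHom ℂ (T P)) with hΦ
  have hΦs : ∀ P (n : ℤ), Φ (Finsupp.single P n) = n * T P := by
    intro P n
    rw [hΦ, Finsupp.liftAddHom_apply_single]
    simp
  have h1 : Φ (boundary c) = c.sum fun γ n =>
      (n : ℂ) * (T (γ.x 1, γ.y 1) - T (γ.x 0, γ.y 0)) := by
    unfold boundary
    rw [map_finsuppSum]
    refine Finsupp.sum_congr fun γ _ => ?_
    rw [map_sub, hΦs, hΦs]
    ring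
  rw [hc, map_zero] at h1
  have h2 : k * period c θ = c.sum fun γ n => n •
      (k * (∫ s in (0 : ℝ)..1, θ (γ.x s) (γ.y s) * deriv γ.x s) -
      (T (γ.x 1, γ.y 1) - T (γ.x 0, γ.y 0))) := by
    have h3 : k * period c θ = k * period c θ - c.sum fun γ n =>
      (n : ℂ) * (T (γ.x 1, γ.y 1) - T (γ.x 0, γ.y 0)) := by rw [← h1, sub_zero]
    rw [h3]
    unfold period Finsupp.sum
    rw [Finset.mul_sum, ← Finset.sum_sub_distrib]
    refine Finset.sum_congr rfl fun γ _ => ?_
    simp only [zsmul_eq_mul]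
    ring
  rw [h2]
  exact Submodule.sum_mem _ fun γ _ => Submodule.smul_mem _ _ (h γ)

end

/-- the periods of the pull back of the invariant form -/
theorem toE_periods : ∃ Ω : ℂ, Ω ≠ 0 ∧ ∀ (f : Polynomial ℂ) (lam l : ℂ) (U V W : Polynomial ℂ),
    l ≠ 0 → l ^ 3 = lam → ToE f lam U V W → ∀ c : Arc f →₀ ℤ, boundary c = 0 →
      l * Ω⁻¹ * period c (fun x y => W.eval x / y ^ 5) ∈ hex.lattice := by
  obtain ⟨Ω, hΩ, h⟩ := hex_paths
  refine ⟨Ω, hΩ, fun f lam l U V W hl hlam hE c hc => ?_⟩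
  obtain ⟨t, ht⟩ := h lam l hl hlam
  refine cycle_mem (T := fun P => t (U.eval P.1 / P.2 ^ 2) (V.eval P.1 / P.2 ^ 3)) (fun γ => ?_) hc
  exact ht _ _ _ (arc_path hE γ)

end Pool.Agent.W520.D3
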