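import Mathlib
import Pool.Agent.W520.D3Maps

/-!
The family of curves, and their arithmeticity.
-/

set_option autoImplicit false

open Set Filter Topology MeasureTheory

namespace Pool.Agent.W520.D3

open Polynomial in
/-- the first homogeneous coordinate -/
noncomputable def Ap (e : ℂ) : ℂ[X] := C e * X + 1

/-- the coefficient -/
noncomputable def cE (e : ℂ) : ℂ := -(e ^ 3 + 1 / e ^ 3)

open Polynomial in
/-- the quintic polynomial -/
noncomputable def gp (e : ℂ) : ℂ[X] := Ap e ^ 6 + C (cE e) * Ap e ^ 3 * X ^ 3 + X ^ 6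

open Polynomial in
/-- the numerators of the four forms -/
noncomputable def W1 (e : ℂ) : ℂ[X] := Ap e ^ 3 - X ^ 3
open Polynomial in
/-- the numerators of the four forms -/
noncomputable def W2 (e : ℂ) : ℂ[X] := Ap e ^ 3 + X ^ 3
open Polynomial in
/-- the numerators of the four forms -/
noncomputable def W3 (e : ℂ) : ℂ[X] := C 2 * Ap e ^ 2 * X
open Polynomial in
/-- the numerators of the four forms -/
noncomputable def W4 (e : ℂ) : ℂ[X] := C (-2) * Ap e * X ^ 2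

/-- the parameters of the elliptic curves -/
noncomputable def lam1 (e : ℂ) : ℂ := 2 - cE e
/-- the parameters of the elliptic curves -/
noncomputable def lam2 (e : ℂ) : ℂ := -2 - cE e
/-- the parameters of the elliptic curves -/
noncomputable def lam3 (e : ℂ) : ℂ := cE e ^ 2 / 4 - 1

open Polynomial in
theorem toE1 (e : ℂ) : ToE (gp e) (lam1 e) (Ap e * X) (Ap e ^ 3 + X ^ 3) (W1 e) := by
  refine ⟨fun x => ?_, fun x => ?_, fun x => ?_⟩
  · simp [gp, Ap, lam1]; ring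
  · simp [gp, Ap, W1, derivative_pow]; ring
  · simp [gp, Ap, W1, lam1, derivative_pow]; ring

open Polynomial in
theorem toE2 (e : ℂ) : ToE (gp e) (lam2 e) (Ap e * X) (Ap e ^ 3 - X ^ 3) (W2 e) := by
  refine ⟨fun x => ?_, fun x => ?_, fun x => ?_⟩
  · simp [gp, Ap, lam2]; ring
  · simp [gp, Ap, W2, derivative_pow]; ring
  · simp [gp, Ap, W2, lam2, derivative_pow]; ring

open Polynomial in
theorem toE3 (e : ℂ) : ToE (gp e) (lam3 e) (X ^ 2) (Ap e ^ 3 + C (cE e / 2) * X ^ 3) (W3 e) := by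
  refine ⟨fun x => ?_, fun x => ?_, fun x => ?_⟩
  · simp [gp, Ap, lam3]; ring
  · simp [gp, Ap, W3, derivative_pow]; ring
  · simp [gp, Ap, W3, lam3, derivative_pow]; ring

open Polynomial in
theorem toE4 (e : ℂ) : ToE (gp e) (lam3 e) (Ap e ^ 2) (X ^ 3 + C (cE e / 2) * Ap e ^ 3) (W4 e) := by
  refine ⟨fun x => ?_, fun x => ?_, fun x => ?_⟩
  · simp [gp, Ap, lam3]; ring
  · simp [gp, Ap, W4, derivative_pow]; ring
  · simp [gp, Ap, W4, lam3, derivative_pow]; ring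

open Polynomial in
theorem one_eq (e : ℂ) : (1 : ℂ[X]) = C ((1 + e ^ 3) / 2) * W1 e + C ((1 - e ^ 3) / 2) * W2 e +
    C (-(3 * e / 2)) * W3 e + C (-(3 * e ^ 2 / 2)) * W4 e := by
  apply Polynomial.funext
  intro x
  simp [W1, W2, W3, W4, Ap]
  ring

section

variable {f : Polynomial ℂ}

/-- the period of the form `W (x) dx / y ^ 5` -/
noncomputable def perW (c : Arc f →₀ ℤ) (W : Polynomial ℂ) : ℂ :=
  period c (fun x y => W.eval x / y ^ 5)

theorem arc_int (γ : Arc f) (W : Polynomial ℂ) : IntervalIntegrable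
    (fun s => W.eval (γ.x s) / γ.y s ^ 5 * deriv γ.x s) volume 0 1 := by
  refine ContinuousOn.intervalIntegrable_of_Icc zero_le_one ?_
  refine ContinuousOn.mul (ContinuousOn.div ?_ (γ.cont.pow 5) fun s hs =>
      pow_ne_zero 5 (γ.ne s hs)) (γ.smooth.continuous_deriv le_rfl).continuousOn
  exact (W.continuous.comp γ.smooth.continuous).continuousOn

theorem perW_add (c : Arc f →₀ ℤ) (P Q : Polynomial ℂ) :
    perW c (P + Q) = perW c P + perW c Q := by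
  unfold perW period Finsupp.sum
  rw [← Finset.sum_add_distrib]
  refine Finset.sum_congr rfl fun γ _ => ?_
  simp only
  rw [← mul_add, ← intervalIntegral.integral_add (arc_int γ P) (arc_int γ Q)]
  congr 1
  refine intervalIntegral.integral_congr fun s _ => ?_
  simp only [Polynomial.eval_add]
  ring

theorem perW_C (c : Arc f →₀ ℤ) (a : ℂ) (Q : Polynomial ℂ) :
    perW c (Polynomial.C a * Q) = a * perW c Q := by
  unfold perW period Finsupp.sum
  rw [Finset.mul_sum]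
  refine Finset.sum_congr rfl fun γ _ => ?_
  simp only
  have : ∫ s in (0 : ℝ)..1, (Polynomial.C a * Q).eval (γ.x s) / γ.y s ^ 5 * deriv γ.x s =
      a * ∫ s in (0 : ℝ)..1, Q.eval (γ.x s) / γ.y s ^ 5 * deriv γ.x s := by
    rw [← intervalIntegral.integral_const_mul]
    refine intervalIntegral.integral_congr fun s _ => ?_
    simp only [Polynomial.eval_mul, Polynomial.eval_C]
    ring
  rw [this]
  ring

theorem period_omega (c : Arc f →₀ ℤ) : period c omega = perW c 1 := by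
  unfold perW
  congr 1
  funext x y
  simp [omega]

end

theorem period_omega_eq (e : ℂ) (c : Arc (gp e) →₀ ℤ) : period c omega =
    (1 + e ^ 3) / 2 * perW c (W1 e) + (1 - e ^ 3) / 2 * perW c (W2 e) +
      -(3 * e / 2) * perW c (W3 e) + -(3 * e ^ 2 / 2) * perW c (W4 e) := by
  rw [period_omega]
  conv_lhs => rw [one_eq e]
  rw [perW_add, perW_add, perW_add, perW_C, perW_C, perW_C, perW_C]

theorem alg_hex {z : ℂ} (h : z ∈ hex.lattice) : IsAlgebraic ℚ z := by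
  obtain ⟨m, n, rfl⟩ := mem_hex.1 h
  have hr : IsAlgebraic ℚ rho := by
    apply IsAlgebraic.of_pow (n := 3) three_pos
    rw [rho_cube]
    exact isAlgebraic_one
  exact ((isAlgebraic_intCast m).mul isAlgebraic_one).add ((isAlgebraic_intCast n).mul hr)

theorem lam1_ne {e : ℂ} (he : e ≠ 0) (h : e ^ 6 ≠ 1) : lam1 e ≠ 0 := by
  intro h0
  apply h
  rw [lam1, cE] at h0
  have h1 : (1 + e ^ 3) ^ 2 = 0 := by
    field_simp at h0
    linear_combination h0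
  have h2 : 1 + e ^ 3 = 0 := pow_eq_zero_iff two_ne_zero |>.1 h1
  linear_combination (e ^ 3 - 1) * h2

theorem lam2_ne {e : ℂ} (he : e ≠ 0) (h : e ^ 6 ≠ 1) : lam2 e ≠ 0 := by
  intro h0
  apply h
  rw [lam2, cE] at h0
  have h1 : (1 - e ^ 3) ^ 2 = 0 := by
    field_simp at h0
    linear_combination h0
  have h2 : 1 - e ^ 3 = 0 := pow_eq_zero_iff two_ne_zero |>.1 h1
  linear_combination -(e ^ 3 + 1) * h2

theorem lam3_ne {e : ℂ} (he : e ≠ 0) (h : e ^ 6 ≠ 1) : lam3 e ≠ 0 := by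
  intro h0
  apply h
  rw [lam3, cE] at h0
  have h1 : (1 - e ^ 6) ^ 2 = 0 := by
    field_simp at h0
    linear_combination h0
  have h2 : 1 - e ^ 6 = 0 := pow_eq_zero_iff two_ne_zero |>.1 h1
  linear_combination -h2

/-- all four forms have their periods in multiples of one lattice -/
theorem all_periods : ∃ Ω : ℂ, Ω ≠ 0 ∧ ∀ (e : ℂ) (c : Arc (gp e) →₀ ℤ), boundary c = 0 →
    (∀ l : ℂ, l ≠ 0 → l ^ 3 = lam1 e → l * Ω⁻¹ * perW c (W1 e) ∈ hex.lattice) ∧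
    (∀ l : ℂ, l ≠ 0 → l ^ 3 = lam2 e → l * Ω⁻¹ * perW c (W2 e) ∈ hex.lattice) ∧
    (∀ l : ℂ, l ≠ 0 → l ^ 3 = lam3 e → l * Ω⁻¹ * perW c (W3 e) ∈ hex.lattice) ∧
    (∀ l : ℂ, l ≠ 0 → l ^ 3 = lam3 e → l * Ω⁻¹ * perW c (W4 e) ∈ hex.lattice) := by
  obtain ⟨Ω, hΩ, h⟩ := toE_periods
  refine ⟨Ω, hΩ, fun e c hc => ⟨fun l hl h3 => ?_, fun l hl h3 => ?_, fun l hl h3 => ?_,
    fun l hl h3 => ?_⟩⟩
  · exact h _ _ l _ _ _ hl h3 (toE1 e) c hc
  · exact h _ _ l _ _ _ hl h3 (toE2 e) c hc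
  · exact h _ _ l _ _ _ hl h3 (toE3 e) c hc
  · exact h _ _ l _ _ _ hl h3 (toE4 e) c hc

theorem alg_nat (n : ℕ) : IsAlgebraic ℚ (n : ℂ) := isAlgebraic_natCast n

theorem alg_two : IsAlgebraic ℚ (2 : ℂ) := by exact_mod_cast alg_nat 2
theorem alg_three : IsAlgebraic ℚ (3 : ℂ) := by exact_mod_cast alg_nat 3
theorem alg_four : IsAlgebraic ℚ (4 : ℂ) := by exact_mod_cast alg_nat 4

theorem alg_cE {e : ℂ} (h : IsAlgebraic ℚ e) : IsAlgebraic ℚ (cE e) := by
  rw [cE, one_div]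
  exact ((h.pow 3).add (h.pow 3).inv).neg

theorem alg_omega {Ω : ℂ} {e : ℂ} (he : e ≠ 0) (h6 : e ^ 6 ≠ 1) (hal : IsAlgebraic ℚ e)
    {c : Arc (gp e) →₀ ℤ} (h :
    (∀ l : ℂ, l ≠ 0 → l ^ 3 = lam1 e → l * Ω⁻¹ * perW c (W1 e) ∈ hex.lattice) ∧
    (∀ l : ℂ, l ≠ 0 → l ^ 3 = lam2 e → l * Ω⁻¹ * perW c (W2 e) ∈ hex.lattice) ∧
    (∀ l : ℂ, l ≠ 0 → l ^ 3 = lam3 e → l * Ω⁻¹ * perW c (W3 e) ∈ hex.lattice) ∧
    (∀ l : ℂ, l ≠ 0 → l ^ 3 = lam3 e → l * Ω⁻¹ * perW c (W4 e) ∈ hex.lattice)) :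
    IsAlgebraic ℚ (Ω⁻¹ * period c omega) := by
  obtain ⟨h1, h2, h3, h4⟩ := h
  have hc := alg_cE hal
  have key : ∀ (lam : ℂ) (W : Polynomial ℂ), lam ≠ 0 → IsAlgebraic ℚ lam →
      (∀ l : ℂ, l ≠ 0 → l ^ 3 = lam → l * Ω⁻¹ * perW c W ∈ hex.lattice) →
      IsAlgebraic ℚ (Ω⁻¹ * perW c W) := by
    intro lam W hne ha hW
    obtain ⟨l, hl⟩ : ∃ l : ℂ, l ^ 3 = lam := IsAlgClosed.exists_pow_nat_eq _ three_pos
    have hl0 : l ≠ 0 := by
      rintro rfl
      apply hne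
      rw [← hl]; norm_num
    have hla : IsAlgebraic ℚ l := IsAlgebraic.of_pow three_pos (by rw [hl]; exact ha)
    have := (hla.inv).mul (alg_hex (hW l hl0 hl))
    have e1 : l⁻¹ * (l * Ω⁻¹ * perW c W) = Ω⁻¹ * perW c W := by field_simp
    rwa [e1] at this
  have k1 := key _ _ (lam1_ne he h6) (by rw [lam1]; exact alg_two.sub hc) h1
  have k2 := key _ _ (lam2_ne he h6) (by rw [lam2]; exact alg_two.neg.sub hc) h2
  have k3 := key _ _ (lam3_ne he h6) (by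
    rw [lam3, div_eq_mul_inv]; exact ((hc.pow 2).mul alg_four.inv).sub isAlgebraic_one) h3
  have k4 := key _ _ (lam3_ne he h6) (by
    rw [lam3, div_eq_mul_inv]; exact ((hc.pow 2).mul alg_four.inv).sub isAlgebraic_one) h4
  rw [period_omega_eq]
  have e1 : Ω⁻¹ * ((1 + e ^ 3) / 2 * perW c (W1 e) + (1 - e ^ 3) / 2 * perW c (W2 e) +
      -(3 * e / 2) * perW c (W3 e) + -(3 * e ^ 2 / 2) * perW c (W4 e)) =
      (1 + e ^ 3) * (2 : ℂ)⁻¹ * (Ω⁻¹ * perW c (W1 e)) +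
      (1 - e ^ 3) * (2 : ℂ)⁻¹ * (Ω⁻¹ * perW c (W2 e)) +
      -(3 * e * (2 : ℂ)⁻¹) * (Ω⁻¹ * perW c (W3 e)) +
      -(3 * e ^ 2 * (2 : ℂ)⁻¹) * (Ω⁻¹ * perW c (W4 e)) := by ring
  rw [e1]
  have i2 := alg_two.inv
  exact (((((isAlgebraic_one.add (hal.pow 3)).mul i2).mul k1).add
    (((isAlgebraic_one.sub (hal.pow 3)).mul i2).mul k2)).add
    ((((alg_three.mul hal).mul i2).neg).mul k3)).add
    ((((alg_three.mul (hal.pow 2)).mul i2).neg).mul k4)

open Polynomial in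
theorem gp_eq {e : ℂ} (he : e ≠ 0) : gp e = C (3 * (e ^ 6 - 1) / e) * X ^ 5 +
    C (3 * (4 * e ^ 6 - 1) / e ^ 2) * X ^ 4 + C ((19 * e ^ 6 - 1) / e ^ 3) * X ^ 3 +
    C (15 * e ^ 2) * X ^ 2 + C (6 * e) * X + C 1 := by
  apply Polynomial.funext
  intro x
  simp [gp, Ap, cE]
  field_simp
  ring

theorem gp_natDegree {e : ℂ} (he : e ≠ 0) (h6 : e ^ 6 ≠ 1) : (gp e).natDegree = 5 := by
  have h : 3 * (e ^ 6 - 1) / e ≠ 0 :=
    div_ne_zero (mul_ne_zero (by norm_num) (sub_ne_zero.2 h6)) he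
  rw [gp_eq he]
  compute_degree!
  exact ⟨sub_ne_zero.2 h6, he⟩

theorem gp_separable {e : ℂ} (he : e ≠ 0) (h6 : e ^ 6 ≠ 1) : (gp e).Separable := by
  have h0 : (gp e).Separable ↔ ∀ a : ℂ, Polynomial.aeval a (gp e) ≠ 0 ∨
      Polynomial.aeval a (gp e).derivative ≠ 0 :=
    Polynomial.isCoprime_iff_aeval_ne_zero_of_isAlgClosed (k := ℂ) (K := ℂ) (gp e)
      (gp e).derivative
  rw [h0]
  intro x
  by_contra hcon
  push Not at hcon
  obtain ⟨h1, h2⟩ := hcon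
  simp [gp, Ap, Polynomial.derivative_pow] at h1 h2
  have h3 : (e * x + 1) ^ 2 * (2 * (e * x + 1) ^ 3 + cE e * x ^ 3) = 0 := by
    linear_combination 2 * h1 - x / 3 * h2
  have hx0 : x ≠ 0 := by
    rintro rfl
    norm_num at h1
  rcases mul_eq_zero.1 h3 with h4 | h4
  · have h5 : e * x + 1 = 0 := pow_eq_zero_iff two_ne_zero |>.1 h4
    rw [h5] at h1
    have : x ^ 6 = 0 := by linear_combination h1
    exact hx0 (pow_eq_zero_iff (by norm_num) |>.1 this)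
  · have h5 : lam3 e * x ^ 6 = 0 := by
      rw [lam3]
      linear_combination -h1 + ((e * x + 1) ^ 3 / 2 + cE e * x ^ 3 / 4) * h4
    rcases mul_eq_zero.1 h5 with h | h
    · exact lam3_ne he h6 h
    · exact hx0 (pow_eq_zero_iff (by norm_num) |>.1 h)

theorem gp_coeff {e : ℂ} (hal : IsAlgebraic ℚ e) (he : e ≠ 0) (j : ℕ) :
    IsAlgebraic ℚ ((gp e).coeff j) := by
  have h15 : IsAlgebraic ℚ (15 : ℂ) := by exact_mod_cast alg_nat 15
  have h19 : IsAlgebraic ℚ (19 : ℂ) := by exact_mod_cast alg_nat 19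
  have h6 : IsAlgebraic ℚ (6 : ℂ) := by exact_mod_cast alg_nat 6
  have a6 := hal.pow 6
  have a5 : IsAlgebraic ℚ (3 * (e ^ 6 - 1) / e) := by
    rw [div_eq_mul_inv]; exact (alg_three.mul (a6.sub isAlgebraic_one)).mul hal.inv
  have a4 : IsAlgebraic ℚ (3 * (4 * e ^ 6 - 1) / e ^ 2) := by
    rw [div_eq_mul_inv]
    exact (alg_three.mul ((alg_four.mul a6).sub isAlgebraic_one)).mul (hal.pow 2).inv
  have a3 : IsAlgebraic ℚ ((19 * e ^ 6 - 1) / e ^ 3) := by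
    rw [div_eq_mul_inv]
    exact ((h19.mul a6).sub isAlgebraic_one).mul (hal.pow 3).inv
  have a2 : IsAlgebraic ℚ (15 * e ^ 2) := h15.mul (hal.pow 2)
  have a1 : IsAlgebraic ℚ (6 * e) := h6.mul hal
  rw [gp_eq he]
  simp only [Polynomial.coeff_add, Polynomial.coeff_C_mul, Polynomial.coeff_X_pow,
    Polynomial.coeff_X, Polynomial.coeff_C]
  have z : IsAlgebraic ℚ (0 : ℂ) := isAlgebraic_zero
  have o : IsAlgebraic ℚ (1 : ℂ) := isAlgebraic_one
  have ite : ∀ (p : Prop) [Decidable p], IsAlgebraic ℚ (if p then (1 : ℂ) else 0) := by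
    intro p _
    split_ifs
    · exact o
    · exact z
  exact (((((a5.mul (ite _)).add (a4.mul (ite _))).add (a3.mul (ite _))).add
    (a2.mul (ite _))).add (a1.mul (ite _))).add (ite _)

theorem iso_refl (f : Polynomial ℂ) : IsIso f f :=
  ⟨1, 0, 1, one_ne_zero, one_ne_zero, fun x => by simp⟩

theorem gp_arithmetic {e : ℂ} (he : e ≠ 0) (h6 : e ^ 6 ≠ 1) (hal : IsAlgebraic ℚ e) :
    IsArithmetic (gp e) := by
  obtain ⟨Ω, hΩ, h⟩ := all_periods
  exact ⟨⟨gp e, iso_refl _, gp_coeff hal he⟩, Ω⁻¹, inv_ne_zero hΩ,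
    fun c hc => alg_omega he h6 hal (h e c hc)⟩

end Pool.Agent.W520.D3
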