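import Mathlib
import Pool.Agent.W520.D3Family

/-!
Explicit paths on the curves, and the integrals over them.
-/

set_option autoImplicit false

open Set Filter Topology MeasureTheory

namespace Pool.Agent.W520.D3

/-- a path in homogeneous coordinates -/
structure HArc (e : ℂ) where
  /-- first coordinate -/
  a : ℝ → ℂ
  /-- second coordinate -/
  b : ℝ → ℂ
  /-- third coordinate -/
  η : ℝ → ℂ
  ha : ContDiff ℝ 1 a
  hb : ContDiff ℝ 1 b
  hη : Continuous η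
  ne : ∀ s, η s ≠ 0
  hD : ∀ s, a s - e * b s ≠ 0
  curve : ∀ s, η s ^ 6 = a s ^ 6 + cE e * a s ^ 3 * b s ^ 3 + b s ^ 6

theorem Ap_eval (e x : ℂ) : (Ap e).eval x = e * x + 1 := by simp [Ap]

theorem gp_eval (e x : ℂ) : (gp e).eval x =
    (e * x + 1) ^ 6 + cE e * (e * x + 1) ^ 3 * x ^ 3 + x ^ 6 := by simp [gp, Ap]

/-- the path on the affine curve -/
noncomputable def HArc.toArc {e : ℂ} (γ : HArc e) : Arc (gp e) where
  x s := γ.b s * (γ.a s - e * γ.b s)⁻¹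
  y s := γ.η s * (γ.a s - e * γ.b s)⁻¹
  smooth := γ.hb.mul ((γ.ha.sub (contDiff_const.mul γ.hb)).inv γ.hD)
  cont := (γ.hη.mul ((γ.ha.continuous.sub (continuous_const.mul γ.hb.continuous)).inv₀
    γ.hD)).continuousOn
  ne s _ := mul_ne_zero (γ.ne s) (inv_ne_zero (γ.hD s))
  curve s _ := by
    have h := γ.hD s
    have hc := γ.curve s
    rw [gp_eval, mul_pow, hc]
    generalize hd : γ.a s - e * γ.b s = d at h ⊢
    have ha : γ.a s = d + e * γ.b s := by rw [← hd]; ring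
    rw [ha]
    field_simp
    ring

theorem HArc.deriv_x {e : ℂ} (γ : HArc e) (s : ℝ) : deriv γ.toArc.x s =
    (γ.a s * deriv γ.b s - deriv γ.a s * γ.b s) / (γ.a s - e * γ.b s) ^ 2 := by
  have h := γ.hD s
  have ha : HasDerivAt γ.a (deriv γ.a s) s := (γ.ha.differentiable one_ne_zero s).hasDerivAt
  have hb : HasDerivAt γ.b (deriv γ.b s) s := (γ.hb.differentiable one_ne_zero s).hasDerivAt
  have hd := (ha.fun_sub (hb.const_mul e)).fun_inv h
  have := (hb.fun_mul hd).deriv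
  simp only [HArc.toArc]
  rw [this]
  field_simp
  ring

theorem HArc.integrand {e : ℂ} (γ : HArc e) (s : ℝ) (W : Polynomial ℂ) (w : ℂ)
    (hw : W.eval (γ.toArc.x s) = w / (γ.a s - e * γ.b s) ^ 3) :
    W.eval (γ.toArc.x s) / γ.toArc.y s ^ 5 * deriv γ.toArc.x s =
      w * (γ.a s * deriv γ.b s - deriv γ.a s * γ.b s) / γ.η s ^ 5 := by
  have h := γ.hD s
  have h2 := γ.ne s
  rw [hw, HArc.deriv_x]
  simp only [HArc.toArc]
  generalize γ.a s - e * γ.b s = d at h ⊢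
  generalize γ.a s * deriv γ.b s - deriv γ.a s * γ.b s = r
  field_simp

theorem HArc.A_eval {e : ℂ} (γ : HArc e) (s : ℝ) : (Ap e).eval (γ.toArc.x s) =
    γ.a s / (γ.a s - e * γ.b s) := by
  have h := γ.hD s
  rw [Ap_eval]
  simp only [HArc.toArc]
  field_simp
  ring

theorem HArc.W1_eval {e : ℂ} (γ : HArc e) (s : ℝ) : (W1 e).eval (γ.toArc.x s) =
    (γ.a s ^ 3 - γ.b s ^ 3) / (γ.a s - e * γ.b s) ^ 3 := by
  have h := γ.hD s
  rw [W1, Polynomial.eval_sub, Polynomial.eval_pow, Polynomial.eval_pow, Polynomial.eval_X,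
    γ.A_eval]
  simp only [HArc.toArc]
  field_simp

theorem HArc.W2_eval {e : ℂ} (γ : HArc e) (s : ℝ) : (W2 e).eval (γ.toArc.x s) =
    (γ.a s ^ 3 + γ.b s ^ 3) / (γ.a s - e * γ.b s) ^ 3 := by
  have h := γ.hD s
  rw [W2, Polynomial.eval_add, Polynomial.eval_pow, Polynomial.eval_pow, Polynomial.eval_X,
    γ.A_eval]
  simp only [HArc.toArc]
  field_simp

theorem HArc.W3_eval {e : ℂ} (γ : HArc e) (s : ℝ) : (W3 e).eval (γ.toArc.x s) =
    (2 * γ.a s ^ 2 * γ.b s) / (γ.a s - e * γ.b s) ^ 3 := by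
  have h := γ.hD s
  rw [W3, Polynomial.eval_mul, Polynomial.eval_mul, Polynomial.eval_pow, Polynomial.eval_X,
    Polynomial.eval_C, γ.A_eval]
  simp only [HArc.toArc]
  field_simp

theorem HArc.W4_eval {e : ℂ} (γ : HArc e) (s : ℝ) : (W4 e).eval (γ.toArc.x s) =
    (-2 * γ.a s * γ.b s ^ 2) / (γ.a s - e * γ.b s) ^ 3 := by
  have h := γ.hD s
  rw [W4, Polynomial.eval_mul, Polynomial.eval_mul, Polynomial.eval_pow, Polynomial.eval_X,
    Polynomial.eval_C, γ.A_eval]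
  simp only [HArc.toArc]
  field_simp

/-! ### the basic functions -/

/-- the parameter -/
noncomputable def hh (e : ℝ) : ℝ := (e ^ 3 + 1 / e ^ 3) / 2

/-- the bump -/
noncomputable def mm (s : ℝ) : ℂ := ((s * (1 - s) : ℝ) : ℂ)

/-- the cube -/
noncomputable def GG (e s : ℝ) : ℂ := ((hh e * (s * (1 - s)) ^ 3 : ℝ) : ℂ) +
  ((2 * s - 1) ^ 3 : ℝ) * Complex.I

/-- the cube root -/
noncomputable def xi (e s : ℝ) : ℂ := GG e s ^ (3⁻¹ : ℂ)

/-- minus the sixth power -/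
noncomputable def NN (e s : ℝ) : ℝ := (2 * s - 1) ^ 6 + (hh e ^ 2 - 1) * (s * (1 - s)) ^ 6

/-- the phase -/
noncomputable def ph : ℂ := Complex.exp (Real.pi / 6 * Complex.I)

/-- the third coordinate -/
noncomputable def eta (e s : ℝ) : ℂ := ph * ((NN e s ^ (6⁻¹ : ℝ) : ℝ) : ℂ)

theorem hh_gt {e : ℝ} (h0 : 0 < e) (h1 : e < 1) : 1 < hh e := by
  have h3 : 0 < e ^ 3 := by positivity
  have h4 : e ^ 3 < 1 := pow_lt_one₀ h0.le h1 (by norm_num)
  rw [hh]
  have h5 : 0 < (1 - e ^ 3) ^ 2 / e ^ 3 := by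
    apply div_pos _ h3
    have : 0 < 1 - e ^ 3 := by linarith
    positivity
  have h6 : (1 - e ^ 3) ^ 2 / e ^ 3 = e ^ 3 + 1 / e ^ 3 - 2 := by field_simp; ring
  linarith

theorem cE_real (e : ℝ) : cE (e : ℂ) = ((-2 * hh e : ℝ) : ℂ) := by
  rw [cE, hh]; push_cast; ring

theorem GG_re (e s : ℝ) : (GG e s).re = hh e * (s * (1 - s)) ^ 3 := by
  rw [GG, Complex.add_re, Complex.ofReal_re, Complex.re_ofReal_mul, Complex.I_re]; ring

theorem GG_im (e s : ℝ) : (GG e s).im = (2 * s - 1) ^ 3 := by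
  rw [GG, Complex.add_im, Complex.ofReal_im, Complex.im_ofReal_mul, Complex.I_im]; ring

theorem GG_slit {e : ℝ} (h0 : 0 < e) (h1 : e < 1) (s : ℝ) : GG e s ∈ Complex.slitPlane := by
  rw [Complex.mem_slitPlane_iff]
  have hre := GG_re e s
  have him := GG_im e s
  by_cases hs : s = 1 / 2
  · left
    have := hh_gt h0 h1
    rw [hre, hs]
    norm_num
    linarith
  · right
    rw [him]
    apply pow_ne_zero
    intro h
    apply hs
    linarith

theorem GG_cube (e s : ℝ) : xi e s ^ 3 = GG e s := by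
  rw [xi]
  simp

theorem xi_ne {e : ℝ} (h0 : 0 < e) (h1 : e < 1) (s : ℝ) : xi e s ≠ 0 := by
  intro h
  have := GG_cube e s
  rw [h] at this
  exact Complex.slitPlane_ne_zero (GG_slit h0 h1 s) (by rw [← this]; ring)

theorem GG_smooth (e : ℝ) : ContDiff ℝ 1 (GG e) := by
  unfold GG
  have k1 : ContDiff ℝ 1 (fun s : ℝ => hh e * (s * (1 - s)) ^ 3) := by fun_prop
  have k2 : ContDiff ℝ 1 (fun s : ℝ => (2 * s - 1) ^ 3) := by fun_prop
  have h1 : ContDiff ℝ 1 (fun s : ℝ => ((hh e * (s * (1 - s)) ^ 3 : ℝ) : ℂ)) :=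
    Complex.ofRealCLM.contDiff.comp k1
  have h2 : ContDiff ℝ 1 (fun s : ℝ => (((2 * s - 1) ^ 3 : ℝ) : ℂ)) :=
    Complex.ofRealCLM.contDiff.comp k2
  exact h1.add (h2.mul contDiff_const)

theorem GG_deriv (e s : ℝ) : HasDerivAt (GG e)
    (((hh e * (3 * (s * (1 - s)) ^ 2 * (1 - 2 * s)) : ℝ) : ℂ) +
      ((6 * (2 * s - 1) ^ 2 : ℝ) : ℂ) * Complex.I) s := by
  have h1 : HasDerivAt (fun s : ℝ => hh e * (s * (1 - s)) ^ 3)
      (hh e * (3 * (s * (1 - s)) ^ 2 * (1 - 2 * s))) s := by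
    have := ((((hasDerivAt_id s).fun_mul ((hasDerivAt_id s).const_sub 1)).fun_pow 3).const_mul
      (hh e))
    refine this.congr_deriv ?_
    simp only [id]
    push_cast
    ring
  have h2 : HasDerivAt (fun s : ℝ => (2 * s - 1) ^ 3) (6 * (2 * s - 1) ^ 2) s := by
    have := ((((hasDerivAt_id s).const_mul 2).sub_const 1).fun_pow 3)
    refine this.congr_deriv ?_
    simp only [id]
    push_cast
    ring
  exact (h1.ofReal_comp).fun_add ((h2.ofReal_comp).mul_const Complex.I)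

theorem xi_smooth {e : ℝ} (h0 : 0 < e) (h1 : e < 1) : ContDiff ℝ 1 (xi e) := by
  have h : ∀ s, HasDerivAt (xi e) (3⁻¹ * GG e s ^ (3⁻¹ - 1 : ℂ) *
      (((hh e * (3 * (s * (1 - s)) ^ 2 * (1 - 2 * s)) : ℝ) : ℂ) +
      ((6 * (2 * s - 1) ^ 2 : ℝ) : ℂ) * Complex.I)) s := by
    intro s
    have hc : HasDerivAt (fun z : ℂ => z ^ (3⁻¹ : ℂ)) (3⁻¹ * GG e s ^ (3⁻¹ - 1 : ℂ) * 1)
      (GG e s) := (hasDerivAt_id (GG e s)).cpow_const (GG_slit h0 h1 s)
    rw [mul_one] at hc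
    exact hc.comp s (GG_deriv e s)
  rw [contDiff_one_iff_deriv]
  refine ⟨fun s => (h s).differentiableAt, ?_⟩
  have e1 : deriv (xi e) = fun s => (3⁻¹ * GG e s ^ (3⁻¹ - 1 : ℂ) *
      (((hh e * (3 * (s * (1 - s)) ^ 2 * (1 - 2 * s)) : ℝ) : ℂ) +
      ((6 * (2 * s - 1) ^ 2 : ℝ) : ℂ) * Complex.I)) := funext fun s => (h s).deriv
  rw [e1]
  refine Continuous.mul (Continuous.mul continuous_const ?_) (by fun_prop)
  rw [continuous_iff_continuousAt]
  intro s
  exact ContinuousAt.cpow (GG_smooth e).continuous.continuousAt continuousAt_const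
    (GG_slit h0 h1 s)

theorem mm_smooth : ContDiff ℝ 1 mm := by
  have k1 : ContDiff ℝ 1 (fun s : ℝ => s * (1 - s)) := by fun_prop
  exact Complex.ofRealCLM.contDiff.comp k1

theorem mm_deriv (s : ℝ) : HasDerivAt mm ((1 - 2 * s : ℝ) : ℂ) s := by
  have h1 : HasDerivAt (fun s : ℝ => s * (1 - s)) (1 - 2 * s) s := by
    have := ((hasDerivAt_id s).fun_mul ((hasDerivAt_id s).const_sub 1))
    refine this.congr_deriv ?_
    simp only [id]
    ring
  exact h1.ofReal_comp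

/-- the Wronskian -/
noncomputable def Wr (e s : ℝ) : ℂ := xi e s * deriv mm s - deriv (xi e) s * mm s

/-- the real factor -/
noncomputable def RR (s : ℝ) : ℝ := (2 * s - 1) ^ 2 * (1 - 2 * (s * (1 - s)))

theorem Wr_eq {e : ℝ} (h0 : 0 < e) (h1 : e < 1) (s : ℝ) :
    xi e s ^ 2 * Wr e s = -Complex.I * (RR s : ℝ) := by
  have hx : HasDerivAt (xi e) (deriv (xi e) s) s :=
    ((xi_smooth h0 h1).differentiable one_ne_zero s).hasDerivAt
  have h2 := hx.fun_pow 3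
  have h3 : (fun s => xi e s ^ 3) = GG e := funext fun s => GG_cube e s
  rw [h3] at h2
  have h4 := h2.unique (GG_deriv e s)
  have h5 := GG_cube e s
  rw [Wr, (mm_deriv s).deriv]
  simp only [mm, RR, GG] at h4 h5 ⊢
  push_cast at h4 h5 ⊢
  linear_combination (1 - 2 * (s : ℂ)) * h5 - (s : ℂ) * (1 - s) / 3 * h4

theorem NN_pos {e : ℝ} (h0 : 0 < e) (h1 : e < 1) (s : ℝ) : 0 < NN e s := by
  have h := hh_gt h0 h1
  have h2 : 0 < hh e ^ 2 - 1 := by nlinarith
  rw [NN]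
  by_cases hs : s = 1 / 2
  · have e1 : (2 * (1 / 2 : ℝ) - 1) ^ 6 + (hh e ^ 2 - 1) * (1 / 2 * (1 - 1 / 2)) ^ 6 =
        (hh e ^ 2 - 1) * (1 / 4) ^ 6 := by norm_num
    rw [hs, e1]
    positivity
  · have : (2 * s - 1) ≠ 0 := fun h' => hs (by linarith)
    have h3 : 0 < (2 * s - 1) ^ 6 := by positivity
    have h4 : 0 ≤ (s * (1 - s)) ^ 6 := by positivity
    nlinarith [mul_nonneg h2.le h4]

theorem ph_six : ph ^ 6 = -1 := by
  rw [ph, ← Complex.exp_nat_mul]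
  have : ((6 : ℕ) : ℂ) * (Real.pi / 6 * Complex.I) = Real.pi * Complex.I := by push_cast; ring
  rw [this, Complex.exp_pi_mul_I]

theorem ph_ne : ph ≠ 0 := Complex.exp_ne_zero _

theorem eta_six {e : ℝ} (h0 : 0 < e) (h1 : e < 1) (s : ℝ) : eta e s ^ 6 = -(NN e s : ℂ) := by
  have h : ((NN e s ^ (6⁻¹ : ℝ) : ℝ)) ^ 6 = NN e s := by
    rw [← Real.rpow_natCast, ← Real.rpow_mul (NN_pos h0 h1 s).le]
    norm_num
  rw [eta, mul_pow, ph_six, ← Complex.ofReal_pow, h]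
  ring

theorem eta_ne {e : ℝ} (h0 : 0 < e) (h1 : e < 1) (s : ℝ) : eta e s ≠ 0 := by
  intro h
  have := eta_six h0 h1 s
  rw [h] at this
  have h2 : (NN e s : ℂ) = 0 := by
    have : (0 : ℂ) = -(NN e s : ℂ) := by rw [← this]; ring
    linear_combination this
  exact (NN_pos h0 h1 s).ne' (by exact_mod_cast h2)

theorem eta_cont {e : ℝ} (h0 : 0 < e) (h1 : e < 1) : Continuous (eta e) := by
  unfold eta
  refine continuous_const.mul (Complex.continuous_ofReal.comp ?_)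
  refine Continuous.rpow_const ?_ fun s => Or.inl (NN_pos h0 h1 s).ne'
  unfold NN
  fun_prop

theorem curve_eq {e : ℝ} (h0 : 0 < e) (h1 : e < 1) (s : ℝ) :
    eta e s ^ 6 = xi e s ^ 6 + cE (e : ℂ) * xi e s ^ 3 * mm s ^ 3 + mm s ^ 6 := by
  have h5 := GG_cube e s
  rw [eta_six h0 h1, cE_real, show xi e s ^ 6 = (xi e s ^ 3) ^ 2 by ring, h5]
  simp only [NN, GG, mm]
  push_cast
  have hI := Complex.I_sq
  linear_combination -((2 * (s : ℂ) - 1) ^ 6) * hI

section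

variable {e : ℝ} (h0 : 0 < e) (h1 : e < 1) {p q : ℂ} (hp : p ^ 3 = 1) (hq : q ^ 3 = 1)

include hp in
theorem p_ne : p ≠ 0 := by
  rintro rfl; norm_num at hp

include h0 h1 hp in
theorem DP_ne (s : ℝ) : p * xi e s - (e : ℂ) * mm s ≠ 0 := by
  intro h
  have h2 : (p * xi e s) ^ 3 = ((e : ℂ) * mm s) ^ 3 := by
    rw [sub_eq_zero.1 h]
  rw [mul_pow, hp, one_mul, GG_cube] at h2
  have him := congrArg Complex.im h2
  have hre := congrArg Complex.re h2
  have e1 : ((e : ℂ) * mm s) ^ 3 = (((e * (s * (1 - s))) ^ 3 : ℝ) : ℂ) := by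
    rw [mm]; push_cast; ring
  rw [e1, Complex.ofReal_im] at him
  rw [e1, Complex.ofReal_re] at hre
  have h3 := GG_im e s
  have h4 := GG_re e s
  rw [h3] at him
  rw [h4] at hre
  have h5 : 2 * s - 1 = 0 := pow_eq_zero_iff three_ne_zero |>.1 him
  have h6 : s = 1 / 2 := by linarith
  rw [h6] at hre
  have h7 := hh_gt h0 h1
  have h8 : e ^ 3 < 1 := pow_lt_one₀ h0.le h1 (by norm_num)
  norm_num at hre
  have h9 : hh e = e ^ 3 := by linear_combination 64 * hre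
  linarith

include h0 h1 hp in
theorem DQ_ne (s : ℝ) : mm s - (e : ℂ) * (p * xi e s) ≠ 0 := by
  intro h
  have h2 : mm s ^ 3 = ((e : ℂ) * (p * xi e s)) ^ 3 := by
    rw [sub_eq_zero.1 h]
  rw [mul_pow, mul_pow, hp, one_mul, GG_cube] at h2
  have e2 : mm s ^ 3 = (((s * (1 - s)) ^ 3 : ℝ) : ℂ) := by
    rw [mm]; push_cast; ring
  have e3 : (e : ℂ) ^ 3 = ((e ^ 3 : ℝ) : ℂ) := by push_cast; ring
  rw [e2, e3] at h2
  have him := congrArg Complex.im h2
  have hre := congrArg Complex.re h2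
  rw [Complex.ofReal_im, Complex.im_ofReal_mul] at him
  rw [Complex.ofReal_re, Complex.re_ofReal_mul] at hre
  have h3 := GG_im e s
  have h4 := GG_re e s
  rw [h3] at him
  rw [h4] at hre
  have he3 : 0 < e ^ 3 := by positivity
  have h5 : 2 * s - 1 = 0 := by
    have := (mul_eq_zero.1 him.symm).resolve_left he3.ne'
    exact pow_eq_zero_iff three_ne_zero |>.1 this
  have h6 : s = 1 / 2 := by linarith
  rw [h6] at hre
  have h8 : e ^ 3 < 1 := pow_lt_one₀ h0.le h1 (by norm_num)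
  have h9 : e ^ 3 * hh e = 1 := by
    norm_num at hre
    linear_combination -64 * hre
  rw [hh] at h9
  have h10 : e ^ 3 * ((e ^ 3 + 1 / e ^ 3) / 2) = (e ^ 3 * e ^ 3 + 1) / 2 := by
    field_simp
  rw [h10] at h9
  nlinarith

/-- the first family of paths -/
noncomputable def harcP : HArc (e : ℂ) where
  a s := p * xi e s
  b := mm
  η s := p * q * eta e s
  ha := contDiff_const.mul (xi_smooth h0 h1)
  hb := mm_smooth
  hη := continuous_const.mul (eta_cont h0 h1)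
  ne s := mul_ne_zero (mul_ne_zero (p_ne hp) (p_ne hq)) (eta_ne h0 h1 s)
  hD := DP_ne h0 h1 hp
  curve s := by
    have hc := curve_eq h0 h1 s
    have e1 : (p * q * eta e s) ^ 6 = eta e s ^ 6 := by
      calc (p * q * eta e s) ^ 6 = (p ^ 3) ^ 2 * (q ^ 3) ^ 2 * eta e s ^ 6 := by ring
        _ = _ := by rw [hp, hq]; ring
    have e2 : (p * xi e s) ^ 6 = xi e s ^ 6 := by
      calc (p * xi e s) ^ 6 = (p ^ 3) ^ 2 * xi e s ^ 6 := by ring
        _ = _ := by rw [hp]; ring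
    have e3 : (p * xi e s) ^ 3 = xi e s ^ 3 := by rw [mul_pow, hp, one_mul]
    rw [e1, e2, e3, hc]

/-- the second family of paths -/
noncomputable def harcQ : HArc (e : ℂ) where
  a := mm
  b s := p * xi e s
  η s := p * q * eta e s
  ha := mm_smooth
  hb := contDiff_const.mul (xi_smooth h0 h1)
  hη := continuous_const.mul (eta_cont h0 h1)
  ne s := mul_ne_zero (mul_ne_zero (p_ne hp) (p_ne hq)) (eta_ne h0 h1 s)
  hD := DQ_ne h0 h1 hp
  curve s := by
    have hc := curve_eq h0 h1 s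
    have e1 : (p * q * eta e s) ^ 6 = eta e s ^ 6 := by
      calc (p * q * eta e s) ^ 6 = (p ^ 3) ^ 2 * (q ^ 3) ^ 2 * eta e s ^ 6 := by ring
        _ = _ := by rw [hp, hq]; ring
    have e2 : (p * xi e s) ^ 6 = xi e s ^ 6 := by
      calc (p * xi e s) ^ 6 = (p ^ 3) ^ 2 * xi e s ^ 6 := by ring
        _ = _ := by rw [hp]; ring
    have e3 : (p * xi e s) ^ 3 = xi e s ^ 3 := by rw [mul_pow, hp, one_mul]
    rw [e1, e2, e3, hc]
    ring

end

/-- the basic integrals -/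
noncomputable def TT (e : ℝ) (k : ℕ) : ℂ :=
  ∫ s in (0 : ℝ)..1, xi e s ^ k * mm s ^ (3 - k) * Wr e s / eta e s ^ 5

theorem mm_cont : Continuous mm := mm_smooth.continuous

theorem Wr_cont {e : ℝ} (h0 : 0 < e) (h1 : e < 1) : Continuous (Wr e) := by
  unfold Wr
  have h := xi_smooth h0 h1
  exact (h.continuous.mul (mm_smooth.continuous_deriv le_rfl)).sub
    ((h.continuous_deriv le_rfl).mul mm_cont)

theorem TT_int {e : ℝ} (h0 : 0 < e) (h1 : e < 1) (k : ℕ) : IntervalIntegrable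
    (fun s => xi e s ^ k * mm s ^ (3 - k) * Wr e s / eta e s ^ 5) volume 0 1 := by
  apply Continuous.intervalIntegrable
  refine Continuous.div ?_ ((eta_cont h0 h1).pow 5) fun s => pow_ne_zero 5 (eta_ne h0 h1 s)
  exact (((xi_smooth h0 h1).continuous.pow k).mul (mm_cont.pow _)).mul (Wr_cont h0 h1)

end Pool.Agent.W520.D3
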