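import Mathlib
import Pool.Agent.W520.D3Arcs

/-!
Cycles, and the periods over them.
-/

set_option autoImplicit false

open Set Filter Topology MeasureTheory

namespace Pool.Agent.W520.D3

theorem perW_single {f : Polynomial ℂ} (γ : Arc f) (W : Polynomial ℂ) :
    perW (Finsupp.single γ 1) W =
      ∫ s in (0 : ℝ)..1, W.eval (γ.x s) / γ.y s ^ 5 * deriv γ.x s := period_single γ _

theorem perW_sub {f : Polynomial ℂ} (c d : Arc f →₀ ℤ) (W : Polynomial ℂ) :
    perW (c - d) W = perW c W - perW d W := period_sub c d _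

section

variable {e : ℝ} (h0 : 0 < e) (h1 : e < 1) {p q : ℂ} (hp : p ^ 3 = 1) (hq : q ^ 3 = 1)

/-- the Wronskian of the first family -/
theorem wrP (s : ℝ) : (harcP h0 h1 hp hq).a s * deriv (harcP h0 h1 hp hq).b s -
    deriv (harcP h0 h1 hp hq).a s * (harcP h0 h1 hp hq).b s = p * Wr e s := by
  have hx : DifferentiableAt ℝ (xi e) s := (xi_smooth h0 h1).differentiable one_ne_zero s
  have h : deriv (harcP h0 h1 hp hq).a s = p * deriv (xi e) s := by
    show deriv (fun s => p * xi e s) s = _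
    rw [deriv_const_mul _ hx]
  rw [h, Wr]
  show p * xi e s * deriv mm s - p * deriv (xi e) s * mm s = _
  ring

theorem wrQ (s : ℝ) : (harcQ h0 h1 hp hq).a s * deriv (harcQ h0 h1 hp hq).b s -
    deriv (harcQ h0 h1 hp hq).a s * (harcQ h0 h1 hp hq).b s = -(p * Wr e s) := by
  have hx : DifferentiableAt ℝ (xi e) s := (xi_smooth h0 h1).differentiable one_ne_zero s
  have h : deriv (harcQ h0 h1 hp hq).b s = p * deriv (xi e) s := by
    show deriv (fun s => p * xi e s) s = _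
    rw [deriv_const_mul _ hx]
  rw [h, Wr]
  show mm s * (p * deriv (xi e) s) - deriv mm s * (p * xi e s) = _
  ring

include hp hq in
theorem inv_pq (z : ℂ) : (p * q * z) ^ 5 = (p * q)⁻¹ * z ^ 5 := by
  have h1 : (p * q) ^ 6 = 1 := by
    calc (p * q) ^ 6 = (p ^ 3) ^ 2 * (q ^ 3) ^ 2 := by ring
      _ = 1 := by rw [hp, hq]; ring
  have h2 : p * q ≠ 0 := mul_ne_zero (p_ne hp) (p_ne hq)
  have h3 : (p * q) ^ 5 = (p * q)⁻¹ := by
    apply eq_inv_of_mul_eq_one_left
    linear_combination h1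
  rw [mul_pow, h3]

theorem P_W1 : perW (Finsupp.single (harcP h0 h1 hp hq).toArc 1) (W1 (e : ℂ)) =
    p ^ 2 * q * (TT e 3 - TT e 0) := by
  rw [perW_single, TT, TT, ← intervalIntegral.integral_sub (TT_int h0 h1 3) (TT_int h0 h1 0),
    ← intervalIntegral.integral_const_mul]
  refine intervalIntegral.integral_congr fun s _ => ?_
  have hne := eta_ne h0 h1 s
  have hpq : p * q ≠ 0 := mul_ne_zero (p_ne hp) (p_ne hq)
  rw [HArc.integrand _ s _ _ (HArc.W1_eval _ s), wrP]
  show ((p * xi e s) ^ 3 - mm s ^ 3) * (p * Wr e s) / (p * q * eta e s) ^ 5 = _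
  rw [inv_pq hp hq, mul_pow, hp]
  field_simp
  ring

theorem P_W2 : perW (Finsupp.single (harcP h0 h1 hp hq).toArc 1) (W2 (e : ℂ)) =
    p ^ 2 * q * (TT e 3 + TT e 0) := by
  rw [perW_single, TT, TT, ← intervalIntegral.integral_add (TT_int h0 h1 3) (TT_int h0 h1 0),
    ← intervalIntegral.integral_const_mul]
  refine intervalIntegral.integral_congr fun s _ => ?_
  have hne := eta_ne h0 h1 s
  have hpq : p * q ≠ 0 := mul_ne_zero (p_ne hp) (p_ne hq)
  rw [HArc.integrand _ s _ _ (HArc.W2_eval _ s), wrP]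
  show ((p * xi e s) ^ 3 + mm s ^ 3) * (p * Wr e s) / (p * q * eta e s) ^ 5 = _
  rw [inv_pq hp hq, mul_pow, hp]
  field_simp
  ring

theorem P_W3 : perW (Finsupp.single (harcP h0 h1 hp hq).toArc 1) (W3 (e : ℂ)) =
    2 * p * q * TT e 2 := by
  rw [perW_single, TT, ← intervalIntegral.integral_const_mul]
  refine intervalIntegral.integral_congr fun s _ => ?_
  have hne := eta_ne h0 h1 s
  have hpq : p * q ≠ 0 := mul_ne_zero (p_ne hp) (p_ne hq)
  rw [HArc.integrand _ s _ _ (HArc.W3_eval _ s), wrP]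
  show (2 * (p * xi e s) ^ 2 * mm s) * (p * Wr e s) / (p * q * eta e s) ^ 5 = _
  rw [inv_pq hp hq]
  field_simp
  linear_combination (mm s * p * Wr e s * xi e s ^ 2 * q : ℂ) * hp

theorem P_W4 : perW (Finsupp.single (harcP h0 h1 hp hq).toArc 1) (W4 (e : ℂ)) =
    -2 * q * TT e 1 := by
  rw [perW_single, TT, ← intervalIntegral.integral_const_mul]
  refine intervalIntegral.integral_congr fun s _ => ?_
  have hne := eta_ne h0 h1 s
  have hpq : p * q ≠ 0 := mul_ne_zero (p_ne hp) (p_ne hq)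
  rw [HArc.integrand _ s _ _ (HArc.W4_eval _ s), wrP]
  show (-2 * (p * xi e s) * mm s ^ 2) * (p * Wr e s) / (p * q * eta e s) ^ 5 = _
  rw [inv_pq hp hq]
  field_simp
  linear_combination (-mm s ^ 2 * Wr e s * xi e s * q : ℂ) * hp

theorem Q_W1 : perW (Finsupp.single (harcQ h0 h1 hp hq).toArc 1) (W1 (e : ℂ)) =
    p ^ 2 * q * (TT e 3 - TT e 0) := by
  rw [perW_single, TT, TT, ← intervalIntegral.integral_sub (TT_int h0 h1 3) (TT_int h0 h1 0),
    ← intervalIntegral.integral_const_mul]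
  refine intervalIntegral.integral_congr fun s _ => ?_
  have hne := eta_ne h0 h1 s
  have hpq : p * q ≠ 0 := mul_ne_zero (p_ne hp) (p_ne hq)
  rw [HArc.integrand _ s _ _ (HArc.W1_eval _ s), wrQ]
  show (mm s ^ 3 - (p * xi e s) ^ 3) * (-(p * Wr e s)) / (p * q * eta e s) ^ 5 = _
  rw [inv_pq hp hq, mul_pow, hp]
  field_simp
  ring

theorem Q_W2 : perW (Finsupp.single (harcQ h0 h1 hp hq).toArc 1) (W2 (e : ℂ)) =
    -(p ^ 2 * q) * (TT e 3 + TT e 0) := by
  rw [perW_single, TT, TT, ← intervalIntegral.integral_add (TT_int h0 h1 3) (TT_int h0 h1 0),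
    ← intervalIntegral.integral_const_mul]
  refine intervalIntegral.integral_congr fun s _ => ?_
  have hne := eta_ne h0 h1 s
  have hpq : p * q ≠ 0 := mul_ne_zero (p_ne hp) (p_ne hq)
  rw [HArc.integrand _ s _ _ (HArc.W2_eval _ s), wrQ]
  show (mm s ^ 3 + (p * xi e s) ^ 3) * (-(p * Wr e s)) / (p * q * eta e s) ^ 5 = _
  rw [inv_pq hp hq, mul_pow, hp]
  field_simp
  ring

theorem Q_W3 : perW (Finsupp.single (harcQ h0 h1 hp hq).toArc 1) (W3 (e : ℂ)) =
    -2 * q * TT e 1 := by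
  rw [perW_single, TT, ← intervalIntegral.integral_const_mul]
  refine intervalIntegral.integral_congr fun s _ => ?_
  have hne := eta_ne h0 h1 s
  have hpq : p * q ≠ 0 := mul_ne_zero (p_ne hp) (p_ne hq)
  rw [HArc.integrand _ s _ _ (HArc.W3_eval _ s), wrQ]
  show (2 * mm s ^ 2 * (p * xi e s)) * (-(p * Wr e s)) / (p * q * eta e s) ^ 5 = _
  rw [inv_pq hp hq]
  field_simp
  linear_combination (-mm s ^ 2 * Wr e s * xi e s * q : ℂ) * hp

theorem Q_W4 : perW (Finsupp.single (harcQ h0 h1 hp hq).toArc 1) (W4 (e : ℂ)) =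
    2 * p * q * TT e 2 := by
  rw [perW_single, TT, ← intervalIntegral.integral_const_mul]
  refine intervalIntegral.integral_congr fun s _ => ?_
  have hne := eta_ne h0 h1 s
  have hpq : p * q ≠ 0 := mul_ne_zero (p_ne hp) (p_ne hq)
  rw [HArc.integrand _ s _ _ (HArc.W4_eval _ s), wrQ]
  show (-2 * mm s * (p * xi e s) ^ 2) * (-(p * Wr e s)) / (p * q * eta e s) ^ 5 = _
  rw [inv_pq hp hq]
  field_simp
  linear_combination (mm s * p * Wr e s * xi e s ^ 2 * q : ℂ) * hp

/-- the first family of cycles -/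
noncomputable def cycP : Arc (gp (e : ℂ)) →₀ ℤ :=
  Finsupp.single (harcP h0 h1 hp hq).toArc 1 -
    Finsupp.single (harcP h0 h1 (p := 1) (one_pow 3) hq).toArc 1

/-- the second family of cycles -/
noncomputable def cycQ : Arc (gp (e : ℂ)) →₀ ℤ :=
  Finsupp.single (harcQ h0 h1 hp hq).toArc 1 -
    Finsupp.single (harcQ h0 h1 (p := 1) (one_pow 3) hq).toArc 1

theorem mm_zero : mm 0 = 0 := by simp [mm]
theorem mm_one : mm 1 = 0 := by simp [mm]

theorem cycP_boundary : boundary (cycP h0 h1 hp hq) = 0 := by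
  have hp0 := p_ne hp
  have key : ∀ s : ℝ, mm s = 0 → ((harcP h0 h1 hp hq).toArc.x s, (harcP h0 h1 hp hq).toArc.y s) =
      ((harcP h0 h1 (p := 1) (one_pow 3) hq).toArc.x s,
        (harcP h0 h1 (p := 1) (one_pow 3) hq).toArc.y s) := by
    intro s hs
    have hx := xi_ne h0 h1 s
    show (mm s * (p * xi e s - e * mm s)⁻¹, p * q * eta e s * (p * xi e s - e * mm s)⁻¹) =
      (mm s * (1 * xi e s - e * mm s)⁻¹, 1 * q * eta e s * (1 * xi e s - e * mm s)⁻¹)
    rw [hs]
    simp only [mul_zero, sub_zero, zero_mul, one_mul, Prod.mk.injEq, true_and]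
    field_simp
  rw [cycP, boundary_sub, boundary_single, boundary_single, key 0 mm_zero, key 1 mm_one]
  abel

theorem cycQ_boundary (he : (e : ℂ) ≠ 0) : boundary (cycQ h0 h1 hp hq) = 0 := by
  have hp0 := p_ne hp
  have key : ∀ s : ℝ, mm s = 0 → ((harcQ h0 h1 hp hq).toArc.x s, (harcQ h0 h1 hp hq).toArc.y s) =
      ((harcQ h0 h1 (p := 1) (one_pow 3) hq).toArc.x s,
        (harcQ h0 h1 (p := 1) (one_pow 3) hq).toArc.y s) := by
    intro s hs
    have hx := xi_ne h0 h1 s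
    show (p * xi e s * (mm s - e * (p * xi e s))⁻¹,
      p * q * eta e s * (mm s - e * (p * xi e s))⁻¹) =
      (1 * xi e s * (mm s - e * (1 * xi e s))⁻¹, 1 * q * eta e s * (mm s - e * (1 * xi e s))⁻¹)
    rw [hs]
    simp only [zero_sub, one_mul, Prod.mk.injEq]
    constructor <;> field_simp
  rw [cycQ, boundary_sub, boundary_single, boundary_single, key 0 mm_zero, key 1 mm_one]
  abel

theorem cycP_W2 : perW (cycP h0 h1 hp hq) (W2 (e : ℂ)) = (p ^ 2 - 1) * q * (TT e 3 + TT e 0) := by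
  rw [cycP, perW_sub, P_W2, P_W2]
  ring

theorem cycP_W3 : perW (cycP h0 h1 hp hq) (W3 (e : ℂ)) = 2 * (p - 1) * q * TT e 2 := by
  rw [cycP, perW_sub, P_W3, P_W3]
  ring

theorem cycP_omega : period (cycP h0 h1 hp hq) omega =
    (p ^ 2 - 1) * q * (TT e 3 - (e : ℂ) ^ 3 * TT e 0) - 3 * e * (p - 1) * q * TT e 2 := by
  rw [period_omega_eq, cycP, perW_sub, perW_sub, perW_sub, perW_sub, P_W1, P_W1, P_W2, P_W2, P_W3,
    P_W3, P_W4, P_W4]
  ring

theorem cycQ_omega : period (cycQ h0 h1 hp hq) omega =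
    (p ^ 2 - 1) * q * ((e : ℂ) ^ 3 * TT e 3 - TT e 0) - 3 * e ^ 2 * (p - 1) * q * TT e 2 := by
  rw [period_omega_eq, cycQ, perW_sub, perW_sub, perW_sub, perW_sub, Q_W1, Q_W1, Q_W2, Q_W2, Q_W3,
    Q_W3, Q_W4, Q_W4]
  ring

end

/-! ### nonvanishing -/

theorem RR_nonneg (s : ℝ) : 0 ≤ RR s := by
  rw [RR]
  have : 0 ≤ 1 - 2 * (s * (1 - s)) := by nlinarith [sq_nonneg (s - 1 / 2)]
  positivity

/-- the real power -/
noncomputable def KK (e s : ℝ) : ℝ := (NN e s ^ (6⁻¹ : ℝ)) ^ 5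

theorem KK_pos {e : ℝ} (h0 : 0 < e) (h1 : e < 1) (s : ℝ) : 0 < KK e s := by
  rw [KK]
  have := Real.rpow_pos_of_pos (NN_pos h0 h1 s) (6⁻¹ : ℝ)
  positivity

theorem KK_cont {e : ℝ} (h0 : 0 < e) (h1 : e < 1) : Continuous (KK e) := by
  unfold KK
  refine Continuous.pow (Continuous.rpow_const ?_ fun s => Or.inl (NN_pos h0 h1 s).ne') 5
  unfold NN
  fun_prop

theorem eta_five (e s : ℝ) : eta e s ^ 5 = ph ^ 5 * (KK e s : ℝ) := by
  rw [eta, KK, mul_pow]
  push_cast
  ring

/-- the constant in front of the integrals -/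
noncomputable def cst : ℂ := -Complex.I / ph ^ 5

theorem cst_ne : cst ≠ 0 := div_ne_zero (neg_ne_zero.2 Complex.I_ne_zero) (pow_ne_zero 5 ph_ne)

theorem T2_eq {e : ℝ} (h0 : 0 < e) (h1 : e < 1) :
    TT e 2 = cst * ((∫ s in (0 : ℝ)..1, s * (1 - s) * RR s / KK e s : ℝ) : ℂ) := by
  rw [TT, ← intervalIntegral.integral_ofReal, ← intervalIntegral.integral_const_mul]
  refine intervalIntegral.integral_congr fun s _ => ?_
  have h2 := Wr_eq h0 h1 s
  have hK : (KK e s : ℂ) ≠ 0 := by exact_mod_cast (KK_pos h0 h1 s).ne'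
  have hph := ph_ne
  rw [eta_five, cst]
  have e1 : xi e s ^ 2 * mm s ^ (3 - 2) * Wr e s = mm s * (-Complex.I * (RR s : ℝ)) := by
    rw [← h2]; ring
  rw [e1, mm]
  push_cast
  field_simp

theorem T2_ne {e : ℝ} (h0 : 0 < e) (h1 : e < 1) : TT e 2 ≠ 0 := by
  rw [T2_eq h0 h1]
  refine mul_ne_zero cst_ne ?_
  have hc : Continuous fun s : ℝ => s * (1 - s) * RR s / KK e s := by
    refine Continuous.div ?_ (KK_cont h0 h1) fun s => (KK_pos h0 h1 s).ne'
    unfold RR
    fun_prop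
  have hpos : 0 < ∫ s in (0 : ℝ)..1, s * (1 - s) * RR s / KK e s := by
    apply intervalIntegral.integral_pos one_pos hc.continuousOn
    · intro s hs
      have := RR_nonneg s
      have := KK_pos h0 h1 s
      have : 0 ≤ s := hs.1.le
      have : 0 ≤ 1 - s := sub_nonneg.2 hs.2
      positivity
    · refine ⟨1 / 4, ⟨by norm_num, by norm_num⟩, ?_⟩
      have := KK_pos h0 h1 (1 / 4)
      rw [RR]
      norm_num
      positivity
  exact_mod_cast hpos.ne'

theorem cpow_third_re {z : ℂ} (hz : z ≠ 0) (h : 0 ≤ z.re) :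
    0 < (z ^ (3⁻¹ : ℂ)).re ∧ 0 < ((z ^ (3⁻¹ : ℂ)) ^ 2).re := by
  have hpi := Real.pi_pos
  have harg : |Complex.arg z| ≤ Real.pi / 2 := Complex.abs_arg_le_pi_div_two_iff.2 h
  rw [abs_le] at harg
  rw [Complex.cpow_def_of_ne_zero hz]
  constructor
  · rw [Complex.exp_re]
    have h1 : (Complex.log z * 3⁻¹).im = Complex.arg z / 3 := by
      have : (3⁻¹ : ℂ) = ((3⁻¹ : ℝ) : ℂ) := by push_cast; rfl
      rw [this, Complex.im_mul_ofReal, Complex.log_im]
      ring
    rw [h1]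
    exact mul_pos (Real.exp_pos _) (Real.cos_pos_of_mem_Ioo ⟨by linarith, by linarith⟩)
  · rw [← Complex.exp_nat_mul, Complex.exp_re]
    have h1 : (((2 : ℕ) : ℂ) * (Complex.log z * 3⁻¹)).im = 2 * Complex.arg z / 3 := by
      have : ((2 : ℕ) : ℂ) * (Complex.log z * 3⁻¹) = Complex.log z * ((2 / 3 : ℝ) : ℂ) := by
        push_cast; ring
      rw [this, Complex.im_mul_ofReal, Complex.log_im]
      ring
    rw [h1]
    exact mul_pos (Real.exp_pos _) (Real.cos_pos_of_mem_Ioo ⟨by linarith, by linarith⟩)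

theorem sum_ne {e : ℝ} (h0 : 0 < e) (h1 : e < 1) : TT e 3 + TT e 0 ≠ 0 := by
  set g : ℝ → ℂ := fun s => (xi e s + mm s ^ 3 * (xi e s ^ 2)⁻¹) * ((RR s / KK e s : ℝ) : ℂ)
    with hg
  have hgc : Continuous g := by
    have k1 : Continuous fun s : ℝ => RR s / KK e s := by
      refine Continuous.div ?_ (KK_cont h0 h1) fun s => (KK_pos h0 h1 s).ne'
      unfold RR
      fun_prop
    refine Continuous.mul (Continuous.add (xi_smooth h0 h1).continuous
      (Continuous.mul (mm_cont.pow 3) (Continuous.inv₀ ((xi_smooth h0 h1).continuous.pow 2)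
        fun s => pow_ne_zero 2 (xi_ne h0 h1 s)))) (Complex.continuous_ofReal.comp k1)
  have h : TT e 3 + TT e 0 = cst * ∫ s in (0 : ℝ)..1, g s := by
    rw [TT, TT, ← intervalIntegral.integral_add (TT_int h0 h1 3) (TT_int h0 h1 0),
      ← intervalIntegral.integral_const_mul]
    refine intervalIntegral.integral_congr fun s _ => ?_
    have h2 := Wr_eq h0 h1 s
    have hK : (KK e s : ℂ) ≠ 0 := by exact_mod_cast (KK_pos h0 h1 s).ne'
    have hph := ph_ne
    have hx := xi_ne h0 h1 s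
    simp only [hg]
    rw [eta_five, cst]
    have e0 : Wr e s = -Complex.I * (RR s : ℝ) / xi e s ^ 2 := by
      rw [← h2]; field_simp
    rw [e0]
    push_cast
    field_simp
    ring
  rw [h]
  refine mul_ne_zero cst_ne ?_
  have hi : IntervalIntegrable g volume 0 1 := hgc.intervalIntegrable _ _
  have hre : (∫ s in (0 : ℝ)..1, g s).re = ∫ s in (0 : ℝ)..1, (g s).re := by
    have := (Complex.reCLM.intervalIntegral_comp_comm hi).symm
    simpa using this
  have hform : ∀ s, (g s).re = (xi e s + mm s ^ 3 * (xi e s ^ 2)⁻¹).re * (RR s / KK e s) := by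
    intro s
    simp only [hg]
    rw [Complex.re_mul_ofReal]
  have hpt : ∀ s ∈ Icc (0 : ℝ) 1, 0 < (xi e s + mm s ^ 3 * (xi e s ^ 2)⁻¹).re := by
    intro s hs
    have hG : 0 ≤ (GG e s).re := by
      rw [GG_re]
      have h3 := hh_gt h0 h1
      have : 0 ≤ s * (1 - s) := mul_nonneg hs.1 (sub_nonneg.2 hs.2)
      have : 0 ≤ hh e := by linarith
      positivity
    obtain ⟨k1, k2⟩ := cpow_third_re (Complex.slitPlane_ne_zero (GG_slit h0 h1 s)) hG
    have k3 : 0 < ((xi e s ^ 2)⁻¹).re := by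
      rw [Complex.inv_re]
      refine div_pos k2 (Complex.normSq_pos.2 (pow_ne_zero 2 (xi_ne h0 h1 s)))
    have e1 : mm s ^ 3 = (((s * (1 - s)) ^ 3 : ℝ) : ℂ) := by rw [mm]; push_cast; ring
    rw [Complex.add_re, e1, Complex.re_ofReal_mul]
    have : 0 ≤ (s * (1 - s)) ^ 3 := by
      have : 0 ≤ s * (1 - s) := mul_nonneg hs.1 (sub_nonneg.2 hs.2)
      positivity
    have k1' : 0 < (xi e s).re := k1
    have := mul_nonneg this k3.le
    linarith
  have hpos : 0 < ∫ s in (0 : ℝ)..1, (g s).re := by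
    apply intervalIntegral.integral_pos one_pos (Complex.continuous_re.comp hgc).continuousOn
    · intro s hs
      rw [Function.comp_apply, hform]
      have := RR_nonneg s
      have := KK_pos h0 h1 s
      have := hpt s ⟨hs.1.le, hs.2⟩
      positivity
    · refine ⟨1 / 4, ⟨by norm_num, by norm_num⟩, ?_⟩
      rw [Function.comp_apply, hform]
      have h3 := KK_pos h0 h1 (1 / 4)
      have h4 := hpt (1 / 4) ⟨by norm_num, by norm_num⟩
      have h5 : 0 < RR (1 / 4) := by rw [RR]; norm_num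
      positivity
  intro hz
  rw [hz] at hre
  rw [← hre] at hpos
  simp at hpos

end Pool.Agent.W520.D3
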