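import Mathlib

/-!
Rational independence of three cube roots.
-/

set_option autoImplicit false

namespace Pool.Agent.W520.D3


theorem no_cube {m : ℚ} (hm : m ≠ 0) {k : ℤ} (hk : padicValRat 2 m = k) (h3 : ¬ (3 : ℤ) ∣ k)
    (r : ℚ) : r ^ 3 ≠ m := by
  intro h
  apply h3
  have hr : r ≠ 0 := by
    rintro rfl
    apply hm
    rw [← h]; norm_num
  have := congrArg (padicValRat 2) h
  rw [padicValRat.pow, hk] at this
  exact ⟨padicValRat 2 r, by rw [← this]; norm_num⟩

theorem val_two : padicValRat 2 (2 : ℚ) = 1 := by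
  have := padicValRat.self (p := 2) (by norm_num)
  exact_mod_cast this

theorem val_half : padicValRat 2 (1 / 2 : ℚ) = -1 := by
  rw [padicValRat.div (by norm_num) (by norm_num), val_two]
  simp

theorem val_odd {n : ℕ} (hn : Odd n) : padicValRat 2 (n : ℚ) = 0 := by
  rw [padicValRat.of_nat]
  have : padicValNat 2 n = 0 := padicValNat.eq_zero_of_not_dvd (by
    intro h
    exact (Nat.not_even_iff_odd.2 hn) (even_iff_two_dvd.2 h))
  rw [this]; rfl

theorem val_a {n : ℕ} (hn : Odd n) : padicValRat 2 ((n : ℚ) ^ 2 / 2) = -1 := by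
  have h0 : (n : ℚ) ≠ 0 := by
    have : n ≠ 0 := by rintro rfl; simp at hn
    exact_mod_cast this
  rw [padicValRat.div (pow_ne_zero 2 h0) (by norm_num), padicValRat.pow, val_two, val_odd hn]
  norm_num

theorem val_b {n : ℕ} (hn : Odd n) : padicValRat 2 ((n : ℚ) ^ 2 / 4) = -2 := by
  have h0 : (n : ℚ) ≠ 0 := by
    have : n ≠ 0 := by rintro rfl; simp at hn
    exact_mod_cast this
  rw [show (4 : ℚ) = 2 ^ 2 by norm_num, padicValRat.div (pow_ne_zero 2 h0) (by norm_num),
    padicValRat.pow, padicValRat.pow, val_two, val_odd hn]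
  norm_num

theorem half_irr {x : ℝ} (hx : x ^ 3 = 1 / 2) (r : ℚ) : x ≠ r := by
  intro h
  rw [h] at hx
  have h2 : ((r ^ 3 : ℚ) : ℝ) = ((1 / 2 : ℚ) : ℝ) := by push_cast; exact hx
  exact no_cube (by norm_num) val_half (by norm_num) r (by exact_mod_cast h2)

theorem indep_real {n : ℕ} (hn : Odd n) {x y : ℝ} (hx : x ^ 3 = 1 / 2)
    (hy : y ^ 3 = (n : ℝ) ^ 2 / 4) {a b c : ℚ} (h : (a : ℝ) + b * x + c * y = 0) :
    a = 0 ∧ b = 0 ∧ c = 0 := by
  have hn0 : (n : ℚ) ≠ 0 := by
    have : n ≠ 0 := by rintro rfl; simp at hn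
    exact_mod_cast this
  by_cases hc : c = 0
  · subst hc
    simp only [Rat.cast_zero, zero_mul, add_zero] at h
    by_cases hb : b = 0
    · subst hb
      simp only [Rat.cast_zero, zero_mul, add_zero] at h
      exact ⟨by exact_mod_cast h, rfl, rfl⟩
    · exfalso
      apply half_irr hx (-a / b)
      have : (b : ℝ) ≠ 0 := by exact_mod_cast hb
      push_cast
      rw [eq_div_iff this]
      linarith
  · exfalso
    have hcR : (c : ℝ) ≠ 0 := by exact_mod_cast hc
    obtain ⟨u, hu⟩ : ∃ u : ℚ, u = -a / c := ⟨_, rfl⟩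
    obtain ⟨v, hv⟩ : ∃ v : ℚ, v = -b / c := ⟨_, rfl⟩
    have hyu : y = u + v * x := by
      rw [hu, hv]
      push_cast
      field_simp
      linarith
    have h1 : ((n : ℝ) ^ 2 / 4) = u ^ 3 + v ^ 3 / 2 + 3 * u * v * (u * x + v * x ^ 2) := by
      rw [← hy, hyu]
      linear_combination (v : ℝ) ^ 3 * hx
    by_cases hu0 : u = 0
    · rw [hu0] at h1
      simp only [Rat.cast_zero] at h1
      have h2 : ((v ^ 3 : ℚ) : ℝ) = (((n : ℚ) ^ 2 / 2 : ℚ) : ℝ) := by push_cast; linarith
      exact no_cube (div_ne_zero (pow_ne_zero 2 hn0) (by norm_num)) (val_a hn) (by norm_num) v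
        (by exact_mod_cast h2)
    · by_cases hv0 : v = 0
      · rw [hv0] at h1
        simp only [Rat.cast_zero] at h1
        have h2 : ((u ^ 3 : ℚ) : ℝ) = (((n : ℚ) ^ 2 / 4 : ℚ) : ℝ) := by push_cast; linarith
        exact no_cube (div_ne_zero (pow_ne_zero 2 hn0) (by norm_num)) (val_b hn) (by norm_num) u
          (by exact_mod_cast h2)
      · have huR : (u : ℝ) ≠ 0 := by exact_mod_cast hu0
        have hvR : (v : ℝ) ≠ 0 := by exact_mod_cast hv0
        obtain ⟨w, hw⟩ : ∃ w : ℚ, w = ((n : ℚ) ^ 2 / 4 - u ^ 3 - v ^ 3 / 2) / (3 * u * v) :=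
          ⟨_, rfl⟩
        have h2 : (u : ℝ) * x + v * x ^ 2 = w := by
          rw [hw]
          push_cast
          rw [eq_div_iff (by positivity)]
          linarith
        have h3 : x * ((u : ℝ) ^ 2 + v * w) = u * w + (v : ℝ) ^ 2 / 2 := by
          linear_combination (-(v : ℝ) * x + u) * h2 + (v : ℝ) ^ 2 * hx
        by_cases hz : u ^ 2 + v * w = 0
        · have hzR : (u : ℝ) ^ 2 + v * w = 0 := by exact_mod_cast hz
          rw [hzR, mul_zero] at h3
          have h4 : (u / v) ^ 3 = 1 / 2 := by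
            have h5 : u * w + v ^ 2 / 2 = 0 := by exact_mod_cast h3.symm
            have h6 : u ^ 3 = v ^ 3 / 2 := by linear_combination u * hz - v * h5
            rw [div_pow, h6]
            field_simp
          exact no_cube (by norm_num) val_half (by norm_num) _ h4
        · apply half_irr hx ((u * w + v ^ 2 / 2) / (u ^ 2 + v * w))
          have hzR : (u : ℝ) ^ 2 + v * w ≠ 0 := by exact_mod_cast hz
          push_cast
          rw [eq_div_iff hzR]
          exact h3

end Pool.Agent.W520.D3
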