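import Mathlib
import Pool.Agent.W520.D3Cycles
import Pool.Agent.W520.D3Num

/-!
The degree of the members of the family is at least three.
-/

set_option autoImplicit false

open Set Filter Topology MeasureTheory

namespace Pool.Agent.W520.D3

/-- the rational span of the periods of `ω` -/
noncomputable def PW (f : Polynomial ℂ) : Submodule ℚ ℂ :=
  Submodule.span ℚ {z | ∃ c : Arc f →₀ ℤ, boundary c = 0 ∧ z = period c omega}

/-- the largest subspace which is a module over the Eisenstein numbers -/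
def InM (f : Polynomial ℂ) (z : ℂ) : Prop := z ∈ PW f ∧ rho * z ∈ PW f

section

variable {f : Polynomial ℂ}

theorem qmul {z : ℂ} (h : z ∈ PW f) (a : ℚ) : (a : ℂ) * z ∈ PW f := by
  have := (PW f).smul_mem a h
  rwa [Algebra.smul_def, eq_ratCast] at this

theorem InM.lin {z : ℂ} (h : InM f z) (a b : ℚ) : InM f (((a : ℂ) + b * rho) * z) := by
  constructor
  · have e1 : ((a : ℂ) + b * rho) * z = (a : ℂ) * z + (b : ℂ) * (rho * z) := by ring
    rw [e1]
    exact (PW f).add_mem (qmul h.1 a) (qmul h.2 b)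
  · have e1 : rho * (((a : ℂ) + b * rho) * z) =
        (((-b : ℚ)) : ℂ) * z + ((a - b : ℚ) : ℂ) * (rho * z) := by
      push_cast
      linear_combination (b * z : ℂ) * rho_eq
    rw [e1]
    exact (PW f).add_mem (qmul h.1 _) (qmul h.2 _)

theorem InM.add {z w : ℂ} (h : InM f z) (h' : InM f w) : InM f (z + w) :=
  ⟨(PW f).add_mem h.1 h'.1, by rw [mul_add]; exact (PW f).add_mem h.2 h'.2⟩

theorem InM.sub {z w : ℂ} (h : InM f z) (h' : InM f w) : InM f (z - w) :=
  ⟨(PW f).sub_mem h.1 h'.1, by rw [mul_sub]; exact (PW f).sub_mem h.2 h'.2⟩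

theorem norm_ne {a b : ℚ} (h : (a : ℂ) + b * rho ≠ 0) : a ^ 2 - a * b + b ^ 2 ≠ 0 := by
  intro h0
  apply h
  have h1 : (2 * a - b) ^ 2 + 3 * b ^ 2 = 0 := by linear_combination 4 * h0
  have hb : b ^ 2 = 0 := by nlinarith [sq_nonneg (2 * a - b), sq_nonneg b]
  have hb0 : b = 0 := pow_eq_zero_iff two_ne_zero |>.1 hb
  rw [hb0] at h0
  have ha : a ^ 2 = 0 := by linear_combination h0
  have ha0 : a = 0 := pow_eq_zero_iff two_ne_zero |>.1 ha
  rw [ha0, hb0]
  simp

theorem InM.div {z : ℂ} {a b : ℚ} (hne : (a : ℂ) + b * rho ≠ 0)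
    (h : InM f (((a : ℂ) + b * rho) * z)) : InM f z := by
  have hN := norm_ne hne
  have hNC : ((a : ℂ) ^ 2 - a * b + b ^ 2) ≠ 0 := by
    intro h0
    apply hN
    exact_mod_cast h0
  have := h.lin ((a - b) / (a ^ 2 - a * b + b ^ 2)) (-b / (a ^ 2 - a * b + b ^ 2))
  have e1 : ((((a - b) / (a ^ 2 - a * b + b ^ 2) : ℚ) : ℂ) +
      ((-b / (a ^ 2 - a * b + b ^ 2) : ℚ) : ℂ) * rho) * (((a : ℂ) + b * rho) * z) = z := by
    push_cast
    have e2 : (((a : ℂ) - b) / (a ^ 2 - a * b + b ^ 2) + -b / (a ^ 2 - a * b + b ^ 2) * rho) *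
        ((a + b * rho) * z) = (((a : ℂ) - b) - b * rho) * (a + b * rho) * z /
          (a ^ 2 - a * b + b ^ 2) := by ring
    rw [e2, div_eq_iff hNC]
    linear_combination (-(b : ℂ) ^ 2 * z) * rho_eq
  rwa [e1] at this

theorem InM.div_hex {z κ : ℂ} (hκ : κ ∈ hex.lattice) (hne : κ ≠ 0) (h : InM f (κ * z)) :
    InM f z := by
  obtain ⟨m, n, rfl⟩ := mem_hex.1 hκ
  have e1 : (m : ℂ) * 1 + n * rho = (((m : ℚ)) : ℂ) + ((n : ℚ) : ℂ) * rho := by push_cast; ring
  rw [e1] at h hne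
  exact InM.div hne h

theorem period_mem {c : Arc f →₀ ℤ} (hc : boundary c = 0) : period c omega ∈ PW f :=
  Submodule.subset_span ⟨c, hc, rfl⟩

end

section

variable {e : ℝ} (h0 : 0 < e) (h1 : e < 1)

include h0 h1

theorem ZP_mem {p : ℂ} (hp : p ^ 3 = 1) : InM (gp (e : ℂ))
    ((p ^ 2 - 1) * (TT e 3 - (e : ℂ) ^ 3 * TT e 0) - 3 * e * (p - 1) * TT e 2) := by
  constructor
  · have := period_mem (cycP_boundary h0 h1 hp (q := 1) (one_pow 3))
    rw [cycP_omega] at this
    convert! this using 1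
    ring
  · have := period_mem (cycP_boundary h0 h1 hp (q := rho) rho_cube)
    rw [cycP_omega] at this
    convert! this using 1
    ring

theorem ZQ_mem {p : ℂ} (hp : p ^ 3 = 1) : InM (gp (e : ℂ))
    ((p ^ 2 - 1) * ((e : ℂ) ^ 3 * TT e 3 - TT e 0) - 3 * e ^ 2 * (p - 1) * TT e 2) := by
  have he : (e : ℂ) ≠ 0 := by exact_mod_cast h0.ne'
  constructor
  · have := period_mem (cycQ_boundary h0 h1 hp (q := 1) (one_pow 3) he)
    rw [cycQ_omega] at this
    convert! this using 1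
    ring
  · have := period_mem (cycQ_boundary h0 h1 hp (q := rho) rho_cube he)
    rw [cycQ_omega] at this
    convert! this using 1
    ring

end

theorem solve_two {f : Polynomial ℂ} {S T : ℂ} (hA : ∀ p : ℂ, p ^ 3 = 1 →
    InM f ((p ^ 2 - 1) * S - (p - 1) * T)) : InM f S ∧ InM f T := by
  have k1 := hA rho rho_cube
  have k2 := hA (rho ^ 2) (by rw [← pow_mul, mul_comm 2 3, pow_mul, rho_cube, one_pow])
  have hne : (((3 : ℚ)) : ℂ) + ((6 : ℚ) : ℂ) * rho ≠ 0 := by
    intro h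
    have h2 := congrArg Complex.im h
    have e1 : (((3 : ℚ)) : ℂ) + ((6 : ℚ) : ℂ) * rho = ((3 : ℝ) : ℂ) + ((6 : ℝ) : ℂ) * rho := by
      push_cast; ring
    rw [e1, Complex.add_im, Complex.ofReal_im, Complex.im_ofReal_mul, Complex.zero_im] at h2
    have := rho_im_pos
    linarith
  constructor
  · apply InM.div hne
    have := (k1.lin (-2) (-1)).sub (k2.lin (-1) 1)
    convert! this using 1
    push_cast
    linear_combination ((rho ^ 3 - 2 * rho ^ 2 + 2 * rho + 2) * S - (rho - 1) * T) * rho_eq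
  · apply InM.div hne
    have := (k1.lin (-1) 1).sub (k2.lin (-2) (-1))
    convert! this using 1
    push_cast
    linear_combination ((-rho ^ 3 - rho ^ 2 + rho + 1) * S + (rho + 2) * T) * rho_eq

end Pool.Agent.W520.D3
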