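import Mathlib
import Pool.Agent.W520.D3Degree

/-!
The degree of the members of the family is at least three: the end of the proof.
-/

set_option autoImplicit false

open Set Filter Topology MeasureTheory

namespace Pool.Agent.W520.D3

section

variable {e : ℝ} (h0 : 0 < e) (h1 : e < 1)

include h0 h1

theorem three_mem : InM (gp (e : ℂ)) (e * TT e 2) ∧ InM (gp (e : ℂ)) (e ^ 2 * TT e 2) ∧
    InM (gp (e : ℂ)) ((1 - (e : ℂ) ^ 3) * (TT e 3 + TT e 0)) := by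
  have hne : (((3 : ℚ)) : ℂ) + ((0 : ℚ) : ℂ) * rho ≠ 0 := by norm_num
  obtain ⟨a1, a2⟩ := solve_two (f := gp (e : ℂ)) (S := TT e 3 - (e : ℂ) ^ 3 * TT e 0)
    (T := 3 * e * TT e 2) (fun p hp => by
      have := ZP_mem h0 h1 hp
      convert! this using 1
      ring)
  obtain ⟨b1, b2⟩ := solve_two (f := gp (e : ℂ)) (S := (e : ℂ) ^ 3 * TT e 3 - TT e 0)
    (T := 3 * e ^ 2 * TT e 2) (fun p hp => by
      have := ZQ_mem h0 h1 hp
      convert! this using 1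
      ring)
  refine ⟨?_, ?_, ?_⟩
  · apply InM.div hne
    convert! a2 using 1
    push_cast
    ring
  · apply InM.div hne
    convert! b2 using 1
    push_cast
    ring
  · have := a1.sub b1
    convert! this using 1
    ring

omit h0 h1 in
/-- the cubes of the parameters -/
theorem lam3_real : ((hh e ^ 2 - 1 : ℝ) : ℂ) = lam3 (e : ℂ) := by
  rw [lam3, cE_real]
  push_cast
  ring

omit h0 h1 in
theorem lam2_real : ((2 * hh e - 2 : ℝ) : ℂ) = lam2 (e : ℂ) := by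
  rw [lam2, cE_real]
  push_cast
  ring

theorem roots : ∃ l2 l3 : ℝ, 0 < l2 ∧ 0 < l3 ∧ l2 ^ 3 = 2 * hh e - 2 ∧ l3 ^ 3 = hh e ^ 2 - 1 := by
  have h := hh_gt h0 h1
  have k2 : 0 < 2 * hh e - 2 := by linarith
  have k3 : 0 < hh e ^ 2 - 1 := by nlinarith
  have key : ∀ x : ℝ, 0 < x → (x ^ (3⁻¹ : ℝ)) ^ 3 = x := by
    intro x hx
    rw [← Real.rpow_natCast, ← Real.rpow_mul hx.le]
    norm_num
  exact ⟨_, _, Real.rpow_pos_of_pos k2 (3⁻¹ : ℝ), Real.rpow_pos_of_pos k3 (3⁻¹ : ℝ), key _ k2,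
    key _ k3⟩

theorem good_mem : ∃ Ω : ℂ, Ω ≠ 0 ∧ ∃ l2 l3 : ℝ, 0 < l2 ∧ 0 < l3 ∧ l2 ^ 3 = 2 * hh e - 2 ∧
    l3 ^ 3 = hh e ^ 2 - 1 ∧ InM (gp (e : ℂ)) (Ω * ((e / l3 : ℝ) : ℂ)) ∧
    InM (gp (e : ℂ)) (Ω * ((e ^ 2 / l3 : ℝ) : ℂ)) ∧
    InM (gp (e : ℂ)) (Ω * (((1 - e ^ 3) / l2 : ℝ) : ℂ)) := by
  obtain ⟨Ω, hΩ, H⟩ := all_periods
  obtain ⟨l2, l3, p2, p3, c2, c3⟩ := roots h0 h1
  obtain ⟨t1, t2, t3⟩ := three_mem h0 h1
  obtain ⟨-, H2, H3, -⟩ := H (e : ℂ) _ (cycP_boundary h0 h1 (p := rho) rho_cube (q := 1)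
    (one_pow 3))
  have l2C : (l2 : ℂ) ≠ 0 := by exact_mod_cast p2.ne'
  have l3C : (l3 : ℂ) ≠ 0 := by exact_mod_cast p3.ne'
  have m2 := H2 l2 l2C (by rw [← lam2_real, ← c2]; push_cast; rfl)
  have m3 := H3 l3 l3C (by rw [← lam3_real, ← c3]; push_cast; rfl)
  rw [cycP_W2] at m2
  rw [cycP_W3] at m3
  have r1 : rho - 1 ≠ 0 := sub_ne_zero.2 rho_ne_one
  have r2 : rho ^ 2 - 1 ≠ 0 := by
    intro h
    apply rho_ne_one
    have : rho = rho ^ 3 := by linear_combination -rho * h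
    rw [rho_cube] at this
    exact this
  have n2 : (l2 : ℂ) * Ω⁻¹ * ((rho ^ 2 - 1) * 1 * (TT e 3 + TT e 0)) ≠ 0 :=
    mul_ne_zero (mul_ne_zero l2C (inv_ne_zero hΩ))
      (mul_ne_zero (mul_ne_zero r2 one_ne_zero) (sum_ne h0 h1))
  have n3 : (l3 : ℂ) * Ω⁻¹ * (2 * (rho - 1) * 1 * TT e 2) ≠ 0 :=
    mul_ne_zero (mul_ne_zero l3C (inv_ne_zero hΩ))
      (mul_ne_zero (mul_ne_zero (mul_ne_zero two_ne_zero r1) one_ne_zero) (T2_ne h0 h1))
  refine ⟨Ω, hΩ, l2, l3, p2, p3, c2, c3, InM.div_hex m3 n3 ?_, InM.div_hex m3 n3 ?_,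
    InM.div_hex m2 n2 ?_⟩
  · have := t1.lin (-2) 2
    convert! this using 1
    push_cast
    field_simp
    ring
  · have := t2.lin (-2) 2
    convert! this using 1
    push_cast
    field_simp
    ring
  · have := t3.lin (-2) (-1)
    convert! this using 1
    push_cast
    field_simp
    rw [rho_sq]
    ring

end

/-- six independent elements -/
theorem six_indep {f : Polynomial ℂ} {Ω : ℂ} (hΩ : Ω ≠ 0) {u1 u2 u3 : ℝ}
    (hu : ∀ a b c : ℚ, (a : ℝ) * u1 + b * u2 + c * u3 = 0 → a = 0 ∧ b = 0 ∧ c = 0)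
    (h1 : InM f (Ω * (u1 : ℂ))) (h2 : InM f (Ω * (u2 : ℂ))) (h3 : InM f (Ω * (u3 : ℂ)))
    [FiniteDimensional ℚ (PW f)] : 6 ≤ Module.finrank ℚ (PW f) := by
  set v : Fin 6 → PW f := ![⟨_, h1.1⟩, ⟨_, h2.1⟩, ⟨_, h3.1⟩, ⟨_, h1.2⟩, ⟨_, h2.2⟩, ⟨_, h3.2⟩]
    with hv
  have hli : LinearIndependent ℚ v := by
    rw [Fintype.linearIndependent_iff]
    intro g hg
    have hg' := congrArg (Submodule.subtype (PW f)) hg
    rw [Fin.sum_univ_six] at hg'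
    simp only [hv, map_add, map_smul, Submodule.subtype_apply, map_zero, Matrix.cons_val_zero,
      Matrix.cons_val_one, Matrix.cons_val] at hg'
    simp only [Algebra.smul_def, eq_ratCast] at hg'
    have e1 : Ω * (((g 0 * u1 + g 1 * u2 + g 2 * u3 : ℝ) : ℂ) +
        ((g 3 * u1 + g 4 * u2 + g 5 * u3 : ℝ) : ℂ) * rho) = 0 := by
      rw [← hg']
      push_cast
      ring
    have e2 := (mul_eq_zero.1 e1).resolve_left hΩ
    have e3 := congrArg Complex.im e2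
    rw [Complex.add_im, Complex.ofReal_im, Complex.im_ofReal_mul, Complex.zero_im, zero_add] at e3
    have e4 := (mul_eq_zero.1 e3).resolve_right rho_im_pos.ne'
    rw [e4] at e2
    simp only [Complex.ofReal_zero, zero_mul, add_zero] at e2
    have e5 : (g 0 * u1 + g 1 * u2 + g 2 * u3 : ℝ) = 0 := by exact_mod_cast e2
    obtain ⟨z0, z1, z2⟩ := hu _ _ _ e5
    obtain ⟨z3, z4, z5⟩ := hu _ _ _ e4
    intro i
    fin_cases i
    · exact z0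
    · exact z1
    · exact z2
    · exact z3
    · exact z4
    · exact z5
  have := hli.fintype_card_le_finrank
  simpa using this

theorem forms_finite : FiniteDimensional ℂ forms := by
  apply FiniteDimensional.span_of_finite
  refine (((Set.finite_Iic 5).prod (Set.finite_Iic 5)).image
    fun p : ℕ × ℕ => (fun (x y : ℂ) => x ^ p.2 / y ^ p.1)).subset ?_
  rintro θ ⟨j, k, hj, hk, rfl⟩
  exact ⟨(j, k), ⟨hj, by simp only [Set.mem_Iic]; omega⟩, rfl⟩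

theorem omega_ne : omega ≠ 0 := by
  intro h
  have := congrFun (congrFun h 0) 1
  simp [omega] at this

theorem degree_of {f : Polynomial ℂ} {Ω : ℂ} (hΩ : Ω ≠ 0) {u1 u2 u3 : ℝ}
    (hu : ∀ a b c : ℚ, (a : ℝ) * u1 + b * u2 + c * u3 = 0 → a = 0 ∧ b = 0 ∧ c = 0)
    (h1 : InM f (Ω * (u1 : ℂ))) (h2 : InM f (Ω * (u2 : ℂ))) (h3 : InM f (Ω * (u3 : ℂ))) :
    DegreeAtLeast f 3 := by
  intro V hV hω hF
  by_contra hcon
  push Not at hcon
  have : FiniteDimensional ℂ forms := forms_finite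
  have : FiniteDimensional ℂ V := Submodule.finiteDimensional_of_le hV
  have hpos : 0 < Module.finrank ℂ V := by
    have : Nontrivial V := ⟨⟨omega, hω⟩, 0, fun h => omega_ne (congrArg Subtype.val h)⟩
    exact Module.finrank_pos
  set F : Submodule ℚ (V → ℂ) := Submodule.span ℚ
    {φ : V → ℂ | ∃ c : Arc f →₀ ℤ, boundary c = 0 ∧ φ = fun θ : V => period c θ} with hFdef
  have hF' : Module.finrank ℚ F = 2 * Module.finrank ℂ V := hF
  have hfin : FiniteDimensional ℚ F := FiniteDimensional.of_finrank_pos (by omega)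
  set L : (V → ℂ) →ₗ[ℚ] ℂ := LinearMap.proj (⟨omega, hω⟩ : V) with hL
  have hmap : F.map L = PW f := by
    rw [hFdef, Submodule.map_span, PW]
    congr 1
    ext z
    constructor
    · rintro ⟨φ, ⟨c, hc, rfl⟩, rfl⟩
      exact ⟨c, hc, rfl⟩
    · rintro ⟨c, hc, rfl⟩
      exact ⟨_, ⟨c, hc, rfl⟩, rfl⟩
  have hfin2 : FiniteDimensional ℚ (F.map L) := inferInstance
  have hle : Module.finrank ℚ (F.map L) ≤ Module.finrank ℚ F := Submodule.finrank_map_le L F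
  rw [hmap] at hfin2 hle
  have := six_indep hΩ hu h1 h2 h3
  omega

/-- the parameters -/
noncomputable def ek (k : ℕ) : ℝ := (1 / (2 * (k + 1 : ℝ) ^ 3)) ^ (3⁻¹ : ℝ)

theorem ek_cube (k : ℕ) : ek k ^ 3 = 1 / (2 * (k + 1 : ℝ) ^ 3) := by
  have h : (0 : ℝ) < 1 / (2 * (k + 1 : ℝ) ^ 3) := by positivity
  rw [ek, ← Real.rpow_natCast, ← Real.rpow_mul h.le]
  norm_num

theorem ek_pos (k : ℕ) : 0 < ek k := Real.rpow_pos_of_pos (by positivity) _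

theorem ek_lt (k : ℕ) : ek k < 1 := by
  have h1 : (1 : ℝ) ≤ (k + 1 : ℝ) ^ 3 := one_le_pow₀ (by linarith [Nat.cast_nonneg (α := ℝ) k])
  have h : ek k ^ 3 < 1 := by
    rw [ek_cube, div_lt_one (by positivity)]
    linarith
  by_contra hcon
  push Not at hcon
  have := one_le_pow₀ (n := 3) hcon
  linarith

theorem ek_indep (k : ℕ) {l2 l3 : ℝ} (p2 : 0 < l2) (p3 : 0 < l3) (c2 : l2 ^ 3 = 2 * hh (ek k) - 2)
    (c3 : l3 ^ 3 = hh (ek k) ^ 2 - 1) (a b c : ℚ)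
    (h : (a : ℝ) * (ek k / l3) + b * (ek k ^ 2 / l3) + c * ((1 - ek k ^ 3) / l2) = 0) :
    a = 0 ∧ b = 0 ∧ c = 0 := by
  have he := ek_pos k
  have hk : (0 : ℝ) < (k + 1 : ℝ) := by positivity
  set K : ℝ := (k + 1 : ℝ) with hK
  have hE : ek k ^ 3 = 1 / (2 * K ^ 3) := ek_cube k
  have h1 : (1 : ℝ) ≤ K ^ 3 := one_le_pow₀ (by
    rw [hK]; linarith [Nat.cast_nonneg (α := ℝ) k])
  have hn' : (0 : ℝ) < 2 * K ^ 3 - 1 := by linarith
  set x : ℝ := K * ek k with hx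
  set y : ℝ := (1 - ek k ^ 3) / l2 / (ek k / l3) * (2 * K ^ 3) / (2 * K ^ 3 - 1) with hy
  have hx3 : x ^ 3 = 1 / 2 := by
    rw [hx, mul_pow, hE]
    field_simp
  have hh1 : hh (ek k) = (1 / (2 * K ^ 3) + 2 * K ^ 3) / 2 := by
    rw [hh, hE]
    simp
  have hy3 : y ^ 3 = ((2 * (k + 1) ^ 3 + 1 : ℕ) : ℝ) ^ 2 / 4 := by
    have e1 : y ^ 3 = (1 - ek k ^ 3) ^ 3 / l2 ^ 3 / (ek k ^ 3 / l3 ^ 3) * (2 * K ^ 3) ^ 3 /
        (2 * K ^ 3 - 1) ^ 3 := by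
      rw [hy]
      simp only [div_pow, mul_pow]
    have h2 : 2 * hh (ek k) - 2 ≠ 0 := by rw [← c2]; positivity
    have h3 : hh (ek k) ^ 2 - 1 ≠ 0 := by rw [← c3]; positivity
    have e2 : 2 * hh (ek k) - 2 = (2 * K ^ 3 - 1) ^ 2 / (2 * K ^ 3) := by
      rw [hh1]; field_simp; ring
    have e3 : hh (ek k) ^ 2 - 1 = ((2 * K ^ 3) ^ 2 - 1) ^ 2 / (4 * (2 * K ^ 3) ^ 2) := by
      rw [hh1]; field_simp; ring
    have e4 : ((2 * (k + 1) ^ 3 + 1 : ℕ) : ℝ) = 2 * K ^ 3 + 1 := by rw [hK]; push_cast; ring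
    rw [e1, c2, c3, e2, e3, e4, hE]
    have e5 : (2 * K ^ 3) ^ 2 - 1 = (2 * K ^ 3 - 1) * (2 * K ^ 3 + 1) := by ring
    rw [e5]
    have hne := hn'.ne'
    have hm : (0 : ℝ) < 2 * K ^ 3 := by positivity
    generalize 2 * K ^ 3 = m at hne hm
    have e6 : (1 - 1 / m) = (m - 1) / m := by field_simp
    rw [e6]
    field_simp
  have hu : (a : ℝ) + ((b / (k + 1) : ℚ) : ℝ) * x +
      ((c * (2 * (k + 1) ^ 3 - 1) / (2 * (k + 1) ^ 3) : ℚ) : ℝ) * y = 0 := by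
    rw [hx, hy]
    push_cast
    rw [← hK]
    have := hn'.ne'
    have e1 : (a : ℝ) + b / K * (K * ek k) + c * (2 * K ^ 3 - 1) / (2 * K ^ 3) *
        ((1 - ek k ^ 3) / l2 / (ek k / l3) * (2 * K ^ 3) / (2 * K ^ 3 - 1)) =
        ((a : ℝ) * (ek k / l3) + b * (ek k ^ 2 / l3) + c * ((1 - ek k ^ 3) / l2)) *
          (l3 / ek k) := by
      generalize 2 * K ^ 3 - 1 = N at this
      field_simp
    rw [e1, h, zero_mul]
  obtain ⟨r1, r2, r3⟩ := indep_real (n := 2 * (k + 1) ^ 3 + 1) (by simp) hx3 hy3 hu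
  have hkQ : (0 : ℚ) < (k + 1 : ℚ) := by positivity
  have hnQ : (0 : ℚ) < 2 * (k + 1 : ℚ) ^ 3 - 1 := by
    have : (1 : ℚ) ≤ (k + 1 : ℚ) ^ 3 := one_le_pow₀ (by linarith [Nat.cast_nonneg (α := ℚ) k])
    linarith
  refine ⟨r1, ?_, ?_⟩
  · exact (div_eq_zero_iff.1 r2).resolve_right hkQ.ne'
  · have := (div_eq_zero_iff.1 r3).resolve_right (by positivity)
    exact (mul_eq_zero.1 this).resolve_right hnQ.ne'

theorem gp_degree (k : ℕ) : DegreeAtLeast (gp (ek k : ℂ)) 3 := by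
  obtain ⟨Ω, hΩ, l2, l3, p2, p3, c2, c3, m1, m2, m3⟩ := good_mem (ek_pos k) (ek_lt k)
  exact degree_of hΩ (ek_indep k p2 p3 c2 c3) m1 m2 m3

end Pool.Agent.W520.D3
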