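import Mathlib
import Pool.Agent.W520.D3Family

/-!
The members of the family are pairwise not isomorphic.
-/

set_option autoImplicit false

namespace Pool.Agent.W520.D3

theorem six_points {d0 d1 d2 d3 d4 d5 : ℂ}
    (h : ∀ x : ℂ, d0 + d1 * x + d2 * x ^ 2 + d3 * x ^ 3 + d4 * x ^ 4 + d5 * x ^ 5 = 0) :
    d2 = 0 ∧ d3 = 0 ∧ d4 = 0 ∧ d5 = 0 := by
  have e0 := h 0
  have e1 := h 1
  have e2 := h (-1)
  have e3 := h 2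
  have e4 := h (-2)
  have e5 := h 3
  refine ⟨?_, ?_, ?_, ?_⟩
  · linear_combination (-5 / 4 : ℂ) * e0 + 2 / 3 * e1 + 2 / 3 * e2 - 1 / 24 * e3 - 1 / 24 * e4
  · linear_combination (5 / 12 : ℂ) * e0 - 7 / 12 * e1 - 1 / 24 * e2 + 7 / 24 * e3 - 1 / 24 * e4
      - 1 / 24 * e5
  · linear_combination (1 / 4 : ℂ) * e0 - 1 / 6 * e1 - 1 / 6 * e2 + 1 / 24 * e3 + 1 / 24 * e4
  · linear_combination (-1 / 12 : ℂ) * e0 + 1 / 12 * e1 + 1 / 24 * e2 - 1 / 24 * e3 - 1 / 120 * e4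
      + 1 / 120 * e5

/-- the first invariant -/
def I2 (a5 a4 a3 : ℂ) : ℂ := 5 * a5 * a3 - 2 * a4 ^ 2
/-- the second invariant -/
def I3 (a5 a4 a3 a2 : ℂ) : ℂ := 25 * a5 ^ 2 * a2 - 15 * a5 * a4 * a3 + 4 * a4 ^ 3

theorem inv_change {f0 f1 f2 f3 f4 f5 g0 g1 g2 g3 g4 g5 a b c : ℂ} (ha : a ≠ 0) (hc : c ≠ 0)
    (h : ∀ x : ℂ, g0 + g1 * (a * x + b) + g2 * (a * x + b) ^ 2 + g3 * (a * x + b) ^ 3 +
      g4 * (a * x + b) ^ 4 + g5 * (a * x + b) ^ 5 =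
      c * (f0 + f1 * x + f2 * x ^ 2 + f3 * x ^ 3 + f4 * x ^ 4 + f5 * x ^ 5)) :
    I2 f5 f4 f3 ^ 3 * I3 g5 g4 g3 g2 ^ 2 = I2 g5 g4 g3 ^ 3 * I3 f5 f4 f3 f2 ^ 2 := by
  obtain ⟨k2, k3, k4, k5⟩ := six_points
    (d0 := g0 + g1 * b + g2 * b ^ 2 + g3 * b ^ 3 + g4 * b ^ 4 + g5 * b ^ 5 - c * f0)
    (d1 := a * (g1 + 2 * g2 * b + 3 * g3 * b ^ 2 + 4 * g4 * b ^ 3 + 5 * g5 * b ^ 4) - c * f1)
    (d2 := a ^ 2 * (g2 + 3 * g3 * b + 6 * g4 * b ^ 2 + 10 * g5 * b ^ 3) - c * f2)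
    (d3 := a ^ 3 * (g3 + 4 * g4 * b + 10 * g5 * b ^ 2) - c * f3)
    (d4 := a ^ 4 * (g4 + 5 * g5 * b) - c * f4)
    (d5 := a ^ 5 * g5 - c * f5) (fun x => by linear_combination h x)
  have l2 : c * f2 = a ^ 2 * (g2 + 3 * g3 * b + 6 * g4 * b ^ 2 + 10 * g5 * b ^ 3) := by
    linear_combination -k2
  have l3 : c * f3 = a ^ 3 * (g3 + 4 * g4 * b + 10 * g5 * b ^ 2) := by linear_combination -k3
  have l4 : c * f4 = a ^ 4 * (g4 + 5 * g5 * b) := by linear_combination -k4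
  have l5 : c * f5 = a ^ 5 * g5 := by linear_combination -k5
  have m2 : c ^ 2 * I2 f5 f4 f3 = a ^ 8 * I2 g5 g4 g3 := by
    have : c ^ 2 * I2 f5 f4 f3 = 5 * (c * f5) * (c * f3) - 2 * (c * f4) ^ 2 := by
      rw [I2]; ring
    rw [this, l3, l4, l5, I2]
    ring
  have m3 : c ^ 3 * I3 f5 f4 f3 f2 = a ^ 12 * I3 g5 g4 g3 g2 := by
    have : c ^ 3 * I3 f5 f4 f3 f2 = 25 * (c * f5) ^ 2 * (c * f2) -
        15 * (c * f5) * (c * f4) * (c * f3) + 4 * (c * f4) ^ 3 := by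
      rw [I3]; ring
    rw [this, l2, l3, l4, l5, I3]
    ring
  have key : (c ^ 6 * a ^ 24) * (I2 f5 f4 f3 ^ 3 * I3 g5 g4 g3 g2 ^ 2) =
      (c ^ 6 * a ^ 24) * (I2 g5 g4 g3 ^ 3 * I3 f5 f4 f3 f2 ^ 2) := by
    have : (c ^ 6 * a ^ 24) * (I2 f5 f4 f3 ^ 3 * I3 g5 g4 g3 g2 ^ 2) =
        (c ^ 2 * I2 f5 f4 f3) ^ 3 * (a ^ 12 * I3 g5 g4 g3 g2) ^ 2 := by ring
    rw [this, m2, ← m3]
    ring
  exact mul_left_cancel₀ (mul_ne_zero (pow_ne_zero 6 hc) (pow_ne_zero 24 ha)) key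

theorem gp_inj {e e' : ℝ} (h0 : 0 < e) (h1 : e < 1) (h0' : 0 < e') (h1' : e' < 1)
    (h : IsIso (gp (e : ℂ)) (gp (e' : ℂ))) : e = e' := by
  obtain ⟨a, b, c, ha, hc, h⟩ := h
  have he : (e : ℂ) ≠ 0 := by exact_mod_cast h0.ne'
  have he' : (e' : ℂ) ≠ 0 := by exact_mod_cast h0'.ne'
  rw [gp_eq he, gp_eq he'] at h
  simp only [Polynomial.eval_add, Polynomial.eval_mul, Polynomial.eval_C, Polynomial.eval_pow,
    Polynomial.eval_X] at h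
  have key := inv_change ha hc (f0 := 1) (f1 := 6 * e) (f2 := 15 * e ^ 2)
    (f3 := (19 * e ^ 6 - 1) / e ^ 3) (f4 := 3 * (4 * e ^ 6 - 1) / e ^ 2)
    (f5 := 3 * (e ^ 6 - 1) / e) (g0 := 1) (g1 := 6 * e') (g2 := 15 * e' ^ 2)
    (g3 := (19 * e' ^ 6 - 1) / e' ^ 3) (g4 := 3 * (4 * e' ^ 6 - 1) / e' ^ 2)
    (g5 := 3 * (e' ^ 6 - 1) / e') (b := b) (fun x => by linear_combination h x)
  have i2 : ∀ z : ℂ, z ≠ 0 → I2 (3 * (z ^ 6 - 1) / z) (3 * (4 * z ^ 6 - 1) / z ^ 2)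
      ((19 * z ^ 6 - 1) / z ^ 3) = -3 * (z ^ 12 + 52 * z ^ 6 + 1) / z ^ 4 := by
    intro z hz
    rw [I2]
    field_simp
    ring
  have i3 : ∀ z : ℂ, z ≠ 0 → I3 (3 * (z ^ 6 - 1) / z) (3 * (4 * z ^ 6 - 1) / z ^ 2)
      ((19 * z ^ 6 - 1) / z ^ 3) (15 * z ^ 2) =
      27 * (z ^ 6 + 1) * (z ^ 12 + 52 * z ^ 6 + 1) / z ^ 6 := by
    intro z hz
    rw [I3]
    field_simp
    ring
  rw [i2 _ he, i2 _ he', i3 _ he, i3 _ he'] at key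
  have key2 : (e ^ 12 + 52 * e ^ 6 + 1) ^ 3 * ((e' ^ 6 + 1) * (e' ^ 12 + 52 * e' ^ 6 + 1)) ^ 2 =
      (e' ^ 12 + 52 * e' ^ 6 + 1) ^ 3 * ((e ^ 6 + 1) * (e ^ 12 + 52 * e ^ 6 + 1)) ^ 2 := by
    have k : (((e : ℂ) ^ 12 + 52 * e ^ 6 + 1) ^ 3 *
        (((e' : ℂ) ^ 6 + 1) * (e' ^ 12 + 52 * e' ^ 6 + 1)) ^ 2) =
        ((e' : ℂ) ^ 12 + 52 * e' ^ 6 + 1) ^ 3 *
          (((e : ℂ) ^ 6 + 1) * (e ^ 12 + 52 * e ^ 6 + 1)) ^ 2 := by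
      field_simp at key
      linear_combination -key
    exact_mod_cast k
  obtain ⟨q, hq⟩ : ∃ q, q = e ^ 6 := ⟨_, rfl⟩
  obtain ⟨r, hr⟩ : ∃ r, r = e' ^ 6 := ⟨_, rfl⟩
  have q0 : 0 < q := by rw [hq]; positivity
  have r0 : 0 < r := by rw [hr]; positivity
  have q1 : q < 1 := by rw [hq]; exact pow_lt_one₀ h0.le h1 (by norm_num)
  have r1 : r < 1 := by rw [hr]; exact pow_lt_one₀ h0'.le h1' (by norm_num)
  have e1 : e ^ 12 = q ^ 2 := by rw [hq]; ring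
  have e2 : e' ^ 12 = r ^ 2 := by rw [hr]; ring
  rw [e1, e2, ← hq, ← hr] at key2
  have hQ : q ^ 2 + 52 * q + 1 ≠ 0 := by positivity
  have hR : r ^ 2 + 52 * r + 1 ≠ 0 := by positivity
  have k3 : (q ^ 2 + 52 * q + 1) * (r + 1) ^ 2 = (r ^ 2 + 52 * r + 1) * (q + 1) ^ 2 := by
    have hne : (q ^ 2 + 52 * q + 1) ^ 2 * (r ^ 2 + 52 * r + 1) ^ 2 ≠ 0 :=
      mul_ne_zero (pow_ne_zero 2 hQ) (pow_ne_zero 2 hR)
    apply mul_left_cancel₀ hne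
    linear_combination key2
  have k4 : (q - r) * (1 - q * r) = 0 := by linear_combination k3 / 50
  have k5 : q - r = 0 := by
    refine (mul_eq_zero.1 k4).resolve_right ?_
    have : q * r < 1 := by nlinarith
    linarith
  have k6 : e ^ 6 = e' ^ 6 := by rw [← hq, ← hr]; linarith
  exact (pow_left_inj₀ h0.le h0'.le (by norm_num)).1 k6

end Pool.Agent.W520.D3
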