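import Mathlib

/-!
The stratum of abelian differentials `(C, ω)` of genus two whose only zero is a double zero,
its period functions, its arithmetic points, and bi-algebraic subvarieties of its
projectivization.
-/

set_option autoImplicit false

open Set Filter Topology

namespace Pool.Agent.W520

/-- the monic quintic `x ^ 5 + p₃ x ^ 3 + p₂ x ^ 2 + p₁ x + p₀` -/
noncomputable def quintic (p : Fin 4 → ℂ) : Polynomial ℂ :=
  Polynomial.X ^ 5 + Polynomial.C (p 3) * Polynomial.X ^ 3 + Polynomial.C (p 2) * Polynomial.X ^ 2 +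
    Polynomial.C (p 1) * Polynomial.X + Polynomial.C (p 0)

/-- The stratum `H_(2)` (up to the scaling of the differential by roots of unity):
a point `p` is the pair of the smooth projective
curve of genus two with the affine equation `y ^ 2 = quintic p` and of the differential `dx / y`,
whose only zero is a double zero at the point at infinity. -/
def stratum : Set (Fin 4 → ℂ) := {p | (quintic p).Separable}

/-- The action of the multiplicative group on `stratum`: the isomorphism
`(x, y) ↦ (l ^ 2 x, l ^ 5 y)` from the curve of `p` to the curve of `act l p` multiplies the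
differential by a scalar. The projectivized stratum `S_(2)` is the quotient of `stratum` by this
action. -/
def act (l : ℂ) (p : Fin 4 → ℂ) : Fin 4 → ℂ :=
  ![l ^ 10 * p 0, l ^ 8 * p 1, l ^ 6 * p 2, l ^ 4 * p 3]

/-- a closed path on the curve `y ^ 2 = quintic p` which avoids the branch points -/
structure IsLoop (p : Fin 4 → ℂ) (x y : ℝ → ℂ) : Prop where
  smooth : ContDiff ℝ 1 x
  cont : ContinuousOn y (Icc 0 1)
  ne : ∀ s ∈ Icc (0 : ℝ) 1, y s ≠ 0
  curve : ∀ s ∈ Icc (0 : ℝ) 1, y s ^ 2 = (quintic p).eval (x s)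
  closedx : x 1 = x 0
  closedy : y 1 = y 0

/-- the integral of `dx / y` along a path -/
noncomputable def period (x y : ℝ → ℂ) : ℂ := ∫ s in (0 : ℝ)..1, deriv x s / y s

/-- Arithmetic points: the curve and the differential are, up to isomorphism and scaling, defined
over the algebraic numbers, and, up to a common factor, all the periods are algebraic. -/
def IsArithmetic (p : Fin 4 → ℂ) : Prop :=
  p ∈ stratum ∧ (∃ l : ℂ, l ≠ 0 ∧ ∀ j, IsAlgebraic ℚ (act l p j)) ∧
    ∃ w : ℂ, w ≠ 0 ∧ ∀ x y : ℝ → ℂ, IsLoop p x y → IsAlgebraic ℚ (w * period x y)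

/-- Irreducible closed algebraic subvarieties of `S_(2)`: the irreducible closed subvarieties of
`stratum` which are stable under the action of the multiplicative group. -/
structure IsSubvariety (S : Set (Fin 4 → ℂ)) : Prop where
  closed : ∃ I : Ideal (MvPolynomial (Fin 4) ℂ),
    S = {p | p ∈ stratum ∧ ∀ f ∈ I, MvPolynomial.eval p f = 0}
  stable : ∀ l : ℂ, l ≠ 0 → ∀ p ∈ S, act l p ∈ S
  irreducible : (MvPolynomial.vanishingIdeal ℂ S).IsPrime

/-- Period functions near `p₀`: the periods along a continuous family of closed paths. -/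
def IsPeriodFun (p₀ : Fin 4 → ℂ) (F : (Fin 4 → ℂ) → ℂ) : Prop :=
  ∃ U ∈ 𝓝 p₀, ∃ x y : (Fin 4 → ℂ) → ℝ → ℂ,
    ContinuousOn (fun z : (Fin 4 → ℂ) × ℝ => x z.1 z.2) (U ×ˢ Icc (0 : ℝ) 1) ∧
    ContinuousOn (fun z : (Fin 4 → ℂ) × ℝ => y z.1 z.2) (U ×ˢ Icc (0 : ℝ) 1) ∧
    ∀ p ∈ U, IsLoop p (x p) (y p) ∧ F p = period (x p) (y p)

/-- The local coordinates of the period charts of `S_(2)` near `p₀`: quotients of period
functions. -/
def IsPeriodRatio (p₀ : Fin 4 → ℂ) (R : (Fin 4 → ℂ) → ℂ) : Prop :=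
  ∃ F G : (Fin 4 → ℂ) → ℂ, IsPeriodFun p₀ F ∧ IsPeriodFun p₀ G ∧ G p₀ ≠ 0 ∧ ∀ p, R p = F p / G p

/-- Bi-algebraic subvarieties of `S_(2)`: near each point `p₀` of `S`, any `k` quotients of period
functions, `k` being at least the dimension of `S`, that is more than the dimension of the image
of `S` in `S_(2)`, satisfy a nontrivial polynomial relation along `S`. -/
def IsBialgebraic (S : Set (Fin 4 → ℂ)) : Prop :=
  ∀ p₀ ∈ S, ∀ (k : ℕ) (R : Fin k → (Fin 4 → ℂ) → ℂ),
    Algebra.trdeg ℂ (MvPolynomial (Fin 4) ℂ ⧸ MvPolynomial.vanishingIdeal ℂ S) ≤ k →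
    (∀ i, IsPeriodRatio p₀ (R i)) →
    ∃ P : MvPolynomial (Fin k) ℂ, P ≠ 0 ∧
      ∀ᶠ p in 𝓝[S] p₀, MvPolynomial.eval (fun i => R i p) P = 0

end Pool.Agent.W520
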