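import Mathlib
import Pool.Agent.W520.Defs

/-!
The curve in the stratum: the curves `y ^ 2 = X (X ^ 2 - 1) (X ^ 2 - T X + 1)`.
-/

set_option autoImplicit false

open Set Filter Topology

namespace Pool.Agent.W520

/-- the quintic `X (X ^ 2 - 1) (X ^ 2 - 5 t X + 1)`, where `X = x + t` -/
def pt (t : ℂ) : Fin 4 → ℂ :=
  ![-4 * t ^ 5 + 5 * t ^ 3 - t, -15 * t ^ 4 + 10 * t ^ 2 - 1, 5 * t - 20 * t ^ 3, -10 * t ^ 2]

theorem eval_quintic (p : Fin 4 → ℂ) (x : ℂ) :
    (quintic p).eval x = x ^ 5 + p 3 * x ^ 3 + p 2 * x ^ 2 + p 1 * x + p 0 := by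
  simp [quintic]

theorem eval_deriv_quintic (p : Fin 4 → ℂ) (x : ℂ) :
    (quintic p).derivative.eval x = 5 * x ^ 4 + 3 * p 3 * x ^ 2 + 2 * p 2 * x + p 1 := by
  simp [quintic]
  ring

theorem mem_stratum (p : Fin 4 → ℂ) :
    p ∈ stratum ↔ ∀ x : ℂ, (quintic p).eval x = 0 → (quintic p).derivative.eval x ≠ 0 := by
  have h0 : p ∈ stratum ↔ ∀ a : ℂ, Polynomial.aeval a (quintic p) ≠ 0 ∨
      Polynomial.aeval a (quintic p).derivative ≠ 0 :=
    Polynomial.isCoprime_iff_aeval_ne_zero_of_isAlgClosed (k := ℂ) (K := ℂ) (quintic p) (quintic p).derivative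
  rw [h0]
  simp only [Polynomial.coe_aeval_eq_eval]
  constructor
  · intro h x hx
    exact (h x).resolve_left (not_not.2 hx)
  · intro h x
    by_cases hx : (quintic p).eval x = 0
    · exact Or.inr (h x hx)
    · exact Or.inl hx

@[simp] theorem pt_zero (t : ℂ) : pt t 0 = -4 * t ^ 5 + 5 * t ^ 3 - t := rfl
@[simp] theorem pt_one (t : ℂ) : pt t 1 = -15 * t ^ 4 + 10 * t ^ 2 - 1 := rfl
@[simp] theorem pt_two (t : ℂ) : pt t 2 = 5 * t - 20 * t ^ 3 := rfl
@[simp] theorem pt_three (t : ℂ) : pt t 3 = -10 * t ^ 2 := rfl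

@[simp] theorem act_zero (l : ℂ) (p : Fin 4 → ℂ) : act l p 0 = l ^ 10 * p 0 := rfl
@[simp] theorem act_one (l : ℂ) (p : Fin 4 → ℂ) : act l p 1 = l ^ 8 * p 1 := rfl
@[simp] theorem act_two (l : ℂ) (p : Fin 4 → ℂ) : act l p 2 = l ^ 6 * p 2 := rfl
@[simp] theorem act_three (l : ℂ) (p : Fin 4 → ℂ) : act l p 3 = l ^ 4 * p 3 := rfl

theorem eval_pt (t x : ℂ) : (quintic (pt t)).eval x =
    (x + t) * ((x + t) ^ 2 - 1) * ((x + t) ^ 2 - 5 * t * (x + t) + 1) := by
  rw [eval_quintic]; simp; ring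

theorem pt_mem {t : ℂ} (ht : (5 * t) ^ 2 ≠ 4) : pt t ∈ stratum := by
  rw [mem_stratum]
  intro x hx h'
  rw [eval_pt] at hx
  rw [eval_deriv_quintic] at h'
  simp only [pt_three, pt_two, pt_one] at h'
  set X := x + t with hX
  have hd : (X ^ 2 - 1) * (X ^ 2 - 5 * t * X + 1) + 2 * X ^ 2 * (X ^ 2 - 5 * t * X + 1) +
      X * (X ^ 2 - 1) * (2 * X - 5 * t) = 0 := by
    rw [← h', hX]; ring
  rcases mul_eq_zero.1 hx with h | h
  · rcases mul_eq_zero.1 h with h | h
    · rw [h] at hd; norm_num at hd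
    · have h2 : X ^ 2 - 5 * t * X + 1 ≠ 0 := by
        intro h3
        apply ht
        have e1 : 5 * t * X = 2 := by linear_combination h - h3
        have : (5 * t) ^ 2 * X ^ 2 = 4 := by rw [← mul_pow, e1]; norm_num
        have e2 : X ^ 2 = 1 := by linear_combination h
        rw [e2, mul_one] at this
        exact this
      rw [h] at hd
      have e2 : X ^ 2 = 1 := by linear_combination h
      have : 2 * X ^ 2 * (X ^ 2 - 5 * t * X + 1) = 0 := by linear_combination hd
      rw [e2] at this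
      rw [e2] at h2
      simp at this
      exact h2 (by linear_combination this)
  · rw [h] at hd
    have hd' : X * (X ^ 2 - 1) * (2 * X - 5 * t) = 0 := by linear_combination hd
    rcases mul_eq_zero.1 hd' with h1 | h1
    · rcases mul_eq_zero.1 h1 with h2 | h2
      · rw [h2] at h; norm_num at h
      · apply ht
        have e2 : X ^ 2 = 1 := by linear_combination h2
        have e1 : 5 * t * X = 2 := by linear_combination h2 - h
        have : (5 * t) ^ 2 * X ^ 2 = 4 := by rw [← mul_pow, e1]; norm_num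
        rw [e2, mul_one] at this
        exact this
    · apply ht
      have e1 : 5 * t = 2 * X := by linear_combination -h1
      rw [e1] at h ⊢
      linear_combination -4 * h

theorem act_mem {l : ℂ} (hl : l ≠ 0) {p : Fin 4 → ℂ} (hp : p ∈ stratum) : act l p ∈ stratum := by
  rw [mem_stratum] at hp ⊢
  intro x hx h'
  refine hp (x / l ^ 2) ?_ ?_
  · rw [eval_quintic] at hx ⊢
    simp only [act_zero, act_one, act_two, act_three] at hx
    have : l ^ 10 * ((x / l ^ 2) ^ 5 + p 3 * (x / l ^ 2) ^ 3 + p 2 * (x / l ^ 2) ^ 2 +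
        p 1 * (x / l ^ 2) + p 0) = 0 := by
      rw [← hx]; field_simp
    exact (mul_eq_zero.1 this).resolve_left (pow_ne_zero _ hl)
  · rw [eval_deriv_quintic] at h' ⊢
    simp only [act_one, act_two, act_three] at h'
    have : l ^ 8 * (5 * (x / l ^ 2) ^ 4 + 3 * p 3 * (x / l ^ 2) ^ 2 + 2 * p 2 * (x / l ^ 2) +
        p 1) = 0 := by
      rw [← h']; field_simp
    exact (mul_eq_zero.1 this).resolve_left (pow_ne_zero _ hl)

theorem act_act (l k : ℂ) (p : Fin 4 → ℂ) : act l (act k p) = act (l * k) p := by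
  funext j
  fin_cases j <;> simp [act] <;> ring

theorem act_one' (p : Fin 4 → ℂ) : act 1 p = p := by
  funext j
  fin_cases j <;> simp [act]

/-- the parametrization of the cone over the curve, on polynomials -/
noncomputable def Phi : MvPolynomial (Fin 4) ℂ →ₐ[ℂ] MvPolynomial (Fin 2) ℂ :=
  MvPolynomial.aeval ![MvPolynomial.X 0 ^ 10 * (-4 * MvPolynomial.X 1 ^ 5 +
      5 * MvPolynomial.X 1 ^ 3 - MvPolynomial.X 1),
    MvPolynomial.X 0 ^ 8 * (-15 * MvPolynomial.X 1 ^ 4 + 10 * MvPolynomial.X 1 ^ 2 - 1),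
    MvPolynomial.X 0 ^ 6 * (5 * MvPolynomial.X 1 - 20 * MvPolynomial.X 1 ^ 3),
    MvPolynomial.X 0 ^ 4 * (-10 * MvPolynomial.X 1 ^ 2)]

theorem eval_Phi (u : Fin 2 → ℂ) (f : MvPolynomial (Fin 4) ℂ) :
    MvPolynomial.eval u (Phi f) = MvPolynomial.eval (act (u 0) (pt (u 1))) f := by
  have h : (MvPolynomial.aeval u : MvPolynomial (Fin 2) ℂ →ₐ[ℂ] ℂ).comp Phi =
      MvPolynomial.aeval (act (u 0) (pt (u 1))) := by
    apply MvPolynomial.algHom_ext
    intro j
    fin_cases j <;> simp [Phi, act, pt]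
  have h2 := DFunLike.congr_fun h f
  rw [AlgHom.comp_apply, MvPolynomial.aeval_eq_eval] at h2
  exact h2

/-- the scaling by `l`, on polynomials -/
noncomputable def sc (l : ℂ) : MvPolynomial (Fin 4) ℂ →ₐ[ℂ] MvPolynomial (Fin 4) ℂ :=
  MvPolynomial.aeval ![MvPolynomial.C (l ^ 10) * MvPolynomial.X 0,
    MvPolynomial.C (l ^ 8) * MvPolynomial.X 1, MvPolynomial.C (l ^ 6) * MvPolynomial.X 2,
    MvPolynomial.C (l ^ 4) * MvPolynomial.X 3]

theorem eval_sc (l : ℂ) (u : Fin 4 → ℂ) (f : MvPolynomial (Fin 4) ℂ) :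
    MvPolynomial.eval u (sc l f) = MvPolynomial.eval (act l u) f := by
  have h : (MvPolynomial.aeval u : MvPolynomial (Fin 4) ℂ →ₐ[ℂ] ℂ).comp (sc l) =
      MvPolynomial.aeval (act l u) := by
    apply MvPolynomial.algHom_ext
    intro j
    fin_cases j <;> simp [sc, act]
  have h2 := DFunLike.congr_fun h f
  rw [AlgHom.comp_apply, MvPolynomial.aeval_eq_eval] at h2
  exact h2

/-- the cone over the curve -/
noncomputable def SS : Set (Fin 4 → ℂ) :=
  {p | p ∈ stratum ∧ ∀ f ∈ RingHom.ker Phi, MvPolynomial.eval p f = 0}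

theorem act_pt_mem {l t : ℂ} (hl : l ≠ 0) (ht : (5 * t) ^ 2 ≠ 4) : act l (pt t) ∈ SS := by
  refine ⟨act_mem hl (pt_mem ht), fun f hf => ?_⟩
  have := eval_Phi ![l, t] f
  rw [RingHom.mem_ker] at hf
  rw [hf] at this
  simpa using this.symm

theorem pt_mem_SS {t : ℂ} (ht : (5 * t) ^ 2 ≠ 4) : pt t ∈ SS := by
  have := act_pt_mem one_ne_zero ht
  rwa [act_one'] at this

theorem sc_ker {l : ℂ} {f : MvPolynomial (Fin 4) ℂ} (hf : f ∈ RingHom.ker Phi) :
    sc l f ∈ RingHom.ker Phi := by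
  rw [RingHom.mem_ker] at hf ⊢
  apply MvPolynomial.funext
  intro u
  rw [eval_Phi, eval_sc, act_act, map_zero]
  have := eval_Phi ![l * u 0, u 1] f
  rw [hf, map_zero] at this
  simpa using this.symm

/-- a polynomial vanishing at the scaled points of an infinite set is in the kernel -/
theorem mem_ker_of_infinite {f : MvPolynomial (Fin 4) ℂ} {D : Set ℂ} (hD : D.Infinite)
    (h : ∀ l : ℂ, l ≠ 0 → ∀ t ∈ D, MvPolynomial.eval (act l (pt t)) f = 0) :
    f ∈ RingHom.ker Phi := by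
  rw [RingHom.mem_ker]
  apply MvPolynomial.funext_set ![{l : ℂ | l ≠ 0}, D]
  · intro i
    fin_cases i
    · have : {l : ℂ | l ≠ 0} = ({0} : Set ℂ)ᶜ := by ext; simp
      simp only [Fin.zero_eta, Matrix.cons_val_zero]
      rw [this]
      exact (finite_singleton (0 : ℂ)).infinite_compl
    · simpa using hD
  · intro x hx
    rw [eval_Phi, map_zero]
    have h0 := hx 0 (mem_univ _)
    have h1 := hx 1 (mem_univ _)
    exact h (x 0) h0 (x 1) h1

theorem good_infinite : {t : ℂ | (5 * t) ^ 2 ≠ 4}.Infinite := by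
  have : {t : ℂ | (5 * t) ^ 2 ≠ 4} = ({2 / 5, -2 / 5} : Set ℂ)ᶜ := by
    ext t
    simp only [ne_eq, mem_ofPred_eq, mem_compl_iff, mem_insert_iff, mem_singleton_iff, not_iff_not]
    have : (5 * t) ^ 2 = 4 ↔ (5 * t - 2) * (5 * t + 2) = 0 := by
      constructor <;> intro h <;> linear_combination h
    rw [this, mul_eq_zero]
    constructor
    · rintro (h | h)
      · left; linear_combination h / 5
      · right; linear_combination h / 5
    · rintro (h | h)
      · left; rw [h]; norm_num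
      · right; rw [h]; norm_num
  rw [this]
  exact (Set.toFinite _).infinite_compl

theorem vanishing_SS : MvPolynomial.vanishingIdeal ℂ SS = RingHom.ker Phi := by
  apply le_antisymm
  · intro f hf
    apply mem_ker_of_infinite good_infinite
    intro l hl t ht
    have := hf _ (act_pt_mem hl ht)
    simpa using this
  · intro f hf
    rw [MvPolynomial.mem_vanishingIdeal_iff]
    intro p hp
    have := hp.2 f hf
    simpa using this

theorem SS_subvariety : IsSubvariety SS where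
  closed := ⟨RingHom.ker Phi, rfl⟩
  stable := by
    rintro l hl p ⟨hp, h⟩
    refine ⟨act_mem hl hp, fun f hf => ?_⟩
    rw [← eval_sc]
    exact h _ (sc_ker hf)
  irreducible := by
    rw [vanishing_SS]
    exact RingHom.ker_isPrime _

theorem trdeg_SS :
    Algebra.trdeg ℂ (MvPolynomial (Fin 4) ℂ ⧸ MvPolynomial.vanishingIdeal ℂ SS) ≤ (2 : ℕ) := by
  rw [vanishing_SS]
  refine (trdeg_le_of_injective (Ideal.kerLiftAlg Phi)
    (Ideal.kerLiftAlg_injective Phi)).trans ?_
  rw [MvPolynomial.trdeg_of_isDomain]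
  simp

end Pool.Agent.W520
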