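import Mathlib
import Pool.Agent.W520.Defs
import Pool.Agent.W520.Curve
import Pool.Agent.W520.Elliptic

/-!
Arithmetic points: the two maps to elliptic curves.
-/

set_option autoImplicit false

open Set Filter Topology

namespace Pool.Agent.W520

theorem hasDeriv_of_sq {y g : ℝ → ℂ} {g' : ℂ} {s : ℝ} {K : Set ℝ} (hs : s ∈ K)
    (hy : ContinuousWithinAt y K s) (hne : y s ≠ 0) (hsq : ∀ u ∈ K, y u ^ 2 = g u)
    (hg : HasDerivWithinAt g g' K s) : HasDerivWithinAt y (g' / (2 * y s)) K s := by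
  rw [hasDerivWithinAt_iff_tendsto_slope] at hg ⊢
  have hy' : Tendsto y (𝓝[K \ {s}] s) (𝓝 (y s)) := hy.mono_left (nhdsWithin_mono _ sdiff_subset)
  have hsum : Tendsto (fun u => y u + y s) (𝓝[K \ {s}] s) (𝓝 (2 * y s)) := by
    have := hy'.add_const (y s)
    rwa [← two_mul] at this
  have h2 : (2 * y s) ≠ 0 := mul_ne_zero two_ne_zero hne
  have h := hg.div hsum h2
  refine h.congr' ?_
  have hev : ∀ᶠ u in 𝓝[K \ {s}] s, y u + y s ≠ 0 := hsum.eventually_ne h2
  filter_upwards [hev, self_mem_nhdsWithin] with u hu huK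
  rw [Pi.div_apply, slope_def_module, slope_def_module, ← hsq u huK.1, ← hsq s hs, div_eq_iff hu]
  simp only [Complex.real_smul]
  ring

/-- the map to the elliptic curve -/
noncomputable def pE (e X : ℂ) : ℂ := (e ^ 2 * ((X + 1) / (X - 1)) + (X - 1) / (X + 1)) / e
/-- the map to the elliptic curve -/
noncomputable def vE (e g X Y : ℂ) : ℂ := 2 * g * (((e + 1) * X + (e - 1)) * Y) / (X ^ 2 - 1) ^ 2
/-- the pull back of the form -/
noncomputable def aE (e g X b : ℂ) : ℂ := ((1 - e) * X - (1 + e)) / (e * g) * b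

theorem toE {e g t : ℂ} (he : e ≠ 0) (he4 : e ^ 4 ≠ 1) (hg : g ^ 2 = (e ^ 4 - 1) / e ^ 3)
    (ht : 5 * t = 2 * (1 + e ^ 4) / (1 - e ^ 4)) {x y : ℝ → ℂ} (h : IsLoop (pt t) x y) :
    EPath (e + 1 / e) (fun s => pE e (x s + t)) (fun s => vE e g (x s + t) (y s))
      (fun s => aE e g (x s + t) (deriv x s / y s)) := by
  have h4 : e ^ 4 - 1 ≠ 0 := sub_ne_zero.2 he4
  have h4' : 1 - e ^ 4 ≠ 0 := sub_ne_zero.2 he4.symm
  have hg0 : g ≠ 0 := by
    rintro rfl
    have : (e ^ 4 - 1) / e ^ 3 = 0 := by rw [← hg]; ring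
    rw [div_eq_zero_iff] at this
    rcases this with h | h
    · exact h4 h
    · exact he (pow_eq_zero_iff (three_ne_zero) |>.1 h)
  have hcurve : ∀ s ∈ Icc (0 : ℝ) 1, y s ^ 2 = (x s + t) * ((x s + t) ^ 2 - 1) *
      ((x s + t) ^ 2 - 5 * t * (x s + t) + 1) := fun s hs => by
    rw [h.curve s hs, eval_pt]
  have hne1 : ∀ s ∈ Icc (0 : ℝ) 1, (x s + t) ^ 2 - 1 ≠ 0 := fun s hs h0 => by
    have := hcurve s hs
    rw [h0, mul_zero, zero_mul] at this
    exact h.ne s hs (pow_eq_zero_iff two_ne_zero |>.1 this)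
  have hm : ∀ s ∈ Icc (0 : ℝ) 1, x s + t - 1 ≠ 0 := fun s hs h0 => hne1 s hs (by
    linear_combination (x s + t + 1) * h0)
  have hp : ∀ s ∈ Icc (0 : ℝ) 1, x s + t + 1 ≠ 0 := fun s hs h0 => hne1 s hs (by
    linear_combination (x s + t - 1) * h0)
  have hx' : ∀ s, HasDerivAt x (deriv x s) s := fun s =>
    (h.smooth.differentiable one_ne_zero s).hasDerivAt
  have hX : ∀ s, HasDerivAt (fun s => x s + t) (deriv x s) s := fun s => (hx' s).add_const t
  have hXw : ∀ s, HasDerivWithinAt (fun s => x s + t) (deriv x s) (Icc 0 1) s :=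
    fun s => (hX s).hasDerivWithinAt
  have hY : ∀ s ∈ Icc (0 : ℝ) 1, HasDerivWithinAt y
      ((5 * (x s + t) ^ 4 - 4 * (5 * t) * (x s + t) ^ 3 + 2 * (5 * t) * (x s + t) - 1) *
        deriv x s / (2 * y s)) (Icc 0 1) s := fun s hs => by
    refine hasDeriv_of_sq hs (h.cont s hs) (h.ne s hs) hcurve ?_
    have h1 := (((hXw s).mul (((hXw s).pow 2).sub_const 1)).mul
      ((((hXw s).pow 2).sub ((hXw s).const_mul (5 * t))).add_const 1))
    refine h1.congr_deriv ?_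
    simp only [Pi.mul_apply, Pi.pow_apply, Pi.sub_apply]
    push_cast
    ring
  have hxc : Continuous x := h.smooth.continuous
  have hdc : Continuous (deriv x) := h.smooth.continuous_deriv le_rfl
  refine ⟨?_, fun s hs => ?_, fun s hs => ?_, ?_, ?_, ?_⟩
  · unfold aE
    refine ContinuousOn.mul ?_ (hdc.continuousOn.div h.cont h.ne)
    apply Continuous.continuousOn
    fun_prop
  · have h1 := hm s hs
    have h2 := hp s hs
    have h3 := h.ne s hs
    have h5 := hne1 s hs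
    have d1 := ((((hXw s).add_const 1).div ((hXw s).sub_const 1) h1).const_mul (e ^ 2)).add
      (((hXw s).sub_const 1).div ((hXw s).add_const 1) h2)
    have d2 := d1.div_const e
    refine (d2.congr_deriv ?_)
    simp only [vE, aE]
    rw [show (x s + t) ^ 2 - 1 = (x s + t - 1) * (x s + t + 1) by ring]
    field_simp
    ring
  · have h1 := hm s hs
    have h2 := hp s hs
    have h3 := h.ne s hs
    have h5 := hne1 s hs
    have hc := hcurve s hs
    have d1 := ((((hXw s).const_mul (e + 1)).add_const (e - 1)).mul (hY s hs)).const_mul (2 * g)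
    have d2 := d1.div ((((hXw s).pow 2).sub_const 1).pow 2) (pow_ne_zero 2 h5)
    refine (d2.congr_deriv ?_)
    simp only [pE, aE, Pi.pow_apply, Pi.mul_apply]
    rw [ht] at hc ⊢
    set X := x s + t with hXdef
    set D := deriv x s
    have key : 2 * g ^ 2 * ((e + 1) * (X * (X ^ 2 - 1) *
        (X ^ 2 - 2 * (1 + e ^ 4) / (1 - e ^ 4) * X + 1)) + ((e + 1) * X + (e - 1)) *
        (5 * X ^ 4 - 4 * (2 * (1 + e ^ 4) / (1 - e ^ 4)) * X ^ 3 +
          2 * (2 * (1 + e ^ 4) / (1 - e ^ 4)) * X - 1) / 2) / (X ^ 2 - 1) ^ 2 -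
        8 * g ^ 2 * ((e + 1) * X + (e - 1)) * (X * (X ^ 2 - 1) *
        (X ^ 2 - 2 * (1 + e ^ 4) / (1 - e ^ 4) * X + 1)) * X / (X ^ 2 - 1) ^ 3 =
        (3 * ((e ^ 2 * ((X + 1) / (X - 1)) + (X - 1) / (X + 1)) / e) ^ 2 +
          4 * ((e ^ 2 * ((X + 1) / (X - 1)) + (X - 1) / (X + 1)) / e) - (e + 1 / e) ^ 2) / 2 *
          (((1 - e) * X - (1 + e)) / e) := by
      rw [hg, show X ^ 2 - 1 = (X - 1) * (X + 1) by ring]
      field_simp
      ring
    rw [← hc] at key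
    have : (3 * ((e ^ 2 * ((X + 1) / (X - 1)) + (X - 1) / (X + 1)) / e) ^ 2 +
          4 * ((e ^ 2 * ((X + 1) / (X - 1)) + (X - 1) / (X + 1)) / e) - (e + 1 / e) ^ 2) / 2 *
          (((1 - e) * X - (1 + e)) / (e * g) * (D / y s)) =
        (3 * ((e ^ 2 * ((X + 1) / (X - 1)) + (X - 1) / (X + 1)) / e) ^ 2 +
          4 * ((e ^ 2 * ((X + 1) / (X - 1)) + (X - 1) / (X + 1)) / e) - (e + 1 / e) ^ 2) / 2 *
          (((1 - e) * X - (1 + e)) / e) * (D / (g * y s)) := by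
      field_simp
    rw [this, ← key]
    clear key this hc
    generalize 2 * (1 + e ^ 4) / (1 - e ^ 4) = T
    generalize 5 * X ^ 4 - 4 * T * X ^ 3 + 2 * T * X - 1 = F
    generalize hQ : X ^ 2 - 1 = Q at h5 ⊢
    generalize y s = Y at h3 ⊢
    clear_value X D
    clear hQ
    simp only [Nat.cast_ofNat, Nat.add_one_sub_one, pow_one]
    field_simp
    ring
  · have hs : (0 : ℝ) ∈ Icc (0 : ℝ) 1 := by simp
    have h1 := hm 0 hs
    have h2 := hp 0 hs
    have hc := hcurve 0 hs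
    simp only [vE, pE]
    rw [ht] at hc
    rw [div_pow, mul_pow, mul_pow, mul_pow, hg, hc]
    set X := x 0 + t
    rw [show X ^ 2 - 1 = (X - 1) * (X + 1) by ring]
    field_simp
    ring
  · simp only [h.closedx]
  · simp only [h.closedx, h.closedy]

theorem arith_act {p : Fin 4 → ℂ} (hp : IsArithmetic p) {l : ℂ} (hl : l ≠ 0) :
    IsArithmetic (act l p) := by
  obtain ⟨hs, ⟨k, hk, hk'⟩, w, hw, hw'⟩ := hp
  refine ⟨act_mem hl hs, ⟨k / l, div_ne_zero hk hl, fun j => ?_⟩, w * l ^ 3,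
    mul_ne_zero hw (pow_ne_zero _ hl), fun x y h => ?_⟩
  · rw [act_act, div_mul_cancel₀ _ hl]
    exact hk' j
  · have hl2 : IsLoop p (fun s => (l ^ 2)⁻¹ * x s) (fun s => (l ^ 5)⁻¹ * y s) := by
      refine ⟨contDiff_const.mul h.smooth, continuousOn_const.mul h.cont, fun s hs => ?_,
        fun s hs => ?_, ?_, ?_⟩
      · exact mul_ne_zero (inv_ne_zero (pow_ne_zero _ hl)) (h.ne s hs)
      · have h1 := h.curve s hs
        rw [eval_quintic] at h1 ⊢
        rw [mul_pow, h1]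
        simp only [act_zero, act_one, act_two, act_three]
        field_simp
      · simp only [h.closedx]
      · simp only [h.closedy]
    have h2 := hw' _ _ hl2
    have h3 : period (fun s => (l ^ 2)⁻¹ * x s) (fun s => (l ^ 5)⁻¹ * y s) =
        l ^ 3 * period x y := by
      rw [period, period, ← intervalIntegral.integral_const_mul]
      refine intervalIntegral.integral_congr fun s hs => ?_
      have : deriv (fun s => (l ^ 2)⁻¹ * x s) s = (l ^ 2)⁻¹ * deriv x s := by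
        rw [deriv_const_mul]
        exact h.smooth.differentiable one_ne_zero s
      simp only [this]
      field_simp
    rw [h3] at h2
    rwa [mul_assoc]

theorem alg_pt {t : ℂ} (ht : IsAlgebraic ℚ t) (j : Fin 4) : IsAlgebraic ℚ (pt t j) := by
  have h := fun n : ℕ => (isAlgebraic_natCast (R := ℚ) (A := ℂ) n)
  have h4 := h 4
  have h5 := h 5
  have h15 := h 15
  have h10 := h 10
  have h20 := h 20
  push_cast at h4 h5 h15 h10 h20
  fin_cases j
  · exact ((h4.neg.mul (ht.pow 5)).add (h5.mul (ht.pow 3))).sub ht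
  · exact ((h15.neg.mul (ht.pow 4)).add (h10.mul (ht.pow 2))).sub isAlgebraic_one
  · exact (h5.mul ht).sub (h20.mul (ht.pow 3))
  · exact h10.neg.mul (ht.pow 2)

/-- the parameter -/
noncomputable def tE (e : ℝ) : ℝ := 2 * (1 + e ^ 4) / (1 - e ^ 4) / 5

theorem tE_gt {e : ℝ} (he0 : 0 < e) (he1 : e < 1) : 2 < 5 * tE e := by
  have h4 : 0 < 1 - e ^ 4 := by
    have : e ^ 4 < 1 := pow_lt_one₀ he0.le he1 (by norm_num)
    linarith
  rw [tE, mul_div_cancel₀ _ (by norm_num : (5 : ℝ) ≠ 0), lt_div_iff₀ h4]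
  nlinarith [pow_pos he0 4]

theorem arith_pt : ∃ Ω : ℂ, Ω ≠ 0 ∧ ∀ (e : ℝ) (n : ℕ), 0 < e → e < 1 → IsAlgebraic ℚ e →
    e + 1 / e = cc n → IsArithmetic (pt (tE e : ℝ)) := by
  obtain ⟨Ω, hΩ, hper⟩ := cm_periods
  refine ⟨Ω, hΩ, fun e n he0 he1 hal hc => ?_⟩
  have h4 : 0 < 1 - e ^ 4 := by
    have : e ^ 4 < 1 := pow_lt_one₀ he0.le he1 (by norm_num)
    linarith
  have hec : (e : ℂ) ≠ 0 := by exact_mod_cast he0.ne'
  have he4 : (e : ℂ) ^ 4 ≠ 1 := by
    have : e ^ 4 ≠ 1 := by linarith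
    exact_mod_cast this
  have h4c : 1 - (e : ℂ) ^ 4 ≠ 0 := sub_ne_zero.2 he4.symm
  have ht : 5 * ((tE e : ℝ) : ℂ) = 2 * (1 + (e : ℂ) ^ 4) / (1 - (e : ℂ) ^ 4) := by
    rw [tE]; push_cast; field_simp
  have halc : IsAlgebraic ℚ (e : ℂ) := isAlgebraic_ofReal hal
  have h2 : IsAlgebraic ℚ (2 : ℂ) := by
    have := isAlgebraic_natCast (R := ℚ) (A := ℂ) 2
    exact_mod_cast this
  have h5 : IsAlgebraic ℚ (5 : ℂ) := by
    have := isAlgebraic_natCast (R := ℚ) (A := ℂ) 5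
    exact_mod_cast this
  have htal : IsAlgebraic ℚ ((tE e : ℝ) : ℂ) := by
    have h : ((tE e : ℝ) : ℂ) = 2 * (1 + (e : ℂ) ^ 4) * (1 - (e : ℂ) ^ 4)⁻¹ * (5 : ℂ)⁻¹ := by
      rw [tE]; push_cast; field_simp
    rw [h]
    exact ((h2.mul (isAlgebraic_one.add (halc.pow 4))).mul
      (isAlgebraic_one.sub (halc.pow 4)).inv).mul h5.inv
  have hgt : (5 * ((tE e : ℝ) : ℂ)) ^ 2 ≠ 4 := by
    have h := tE_gt he0 he1
    have : (5 * tE e) ^ 2 ≠ 4 := by nlinarith
    exact_mod_cast this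
  obtain ⟨g, hg⟩ : ∃ g : ℂ, g ^ 2 = ((e : ℂ) ^ 4 - 1) / (e : ℂ) ^ 3 :=
    IsAlgClosed.exists_pow_nat_eq _ two_pos
  have hg0 : g ≠ 0 := by
    rintro rfl
    have : ((e : ℂ) ^ 4 - 1) / (e : ℂ) ^ 3 = 0 := by rw [← hg]; ring
    rw [div_eq_zero_iff] at this
    rcases this with h | h
    · exact sub_ne_zero.2 he4 h
    · exact hec (pow_eq_zero_iff (three_ne_zero) |>.1 h)
  have hgal : IsAlgebraic ℚ g := by
    apply IsAlgebraic.of_pow (n := 2) two_pos
    rw [hg, div_eq_mul_inv]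
    exact ((halc.pow 4).sub isAlgebraic_one).mul (halc.pow 3).inv
  refine ⟨pt_mem hgt, ⟨1, one_ne_zero, fun j => ?_⟩, Ω, hΩ, fun x y h => ?_⟩
  · rw [act_one']; exact alg_pt htal j
  · have E1 := toE hec he4 hg ht h
    have hnec : (-(e : ℂ)) ≠ 0 := neg_ne_zero.2 hec
    have hne4 : (-(e : ℂ)) ^ 4 ≠ 1 := by rw [neg_pow]; norm_num; exact he4
    have hg' : (Complex.I * g) ^ 2 = ((-(e : ℂ)) ^ 4 - 1) / (-(e : ℂ)) ^ 3 := by
      rw [mul_pow, Complex.I_sq, hg]
      rw [show (-(e : ℂ)) ^ 3 = -(e : ℂ) ^ 3 by ring, show (-(e : ℂ)) ^ 4 = (e : ℂ) ^ 4 by ring,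
        div_neg]
      ring
    have ht' : 5 * ((tE e : ℝ) : ℂ) = 2 * (1 + (-(e : ℂ)) ^ 4) / (1 - (-(e : ℂ)) ^ 4) := by
      rw [show (-(e : ℂ)) ^ 4 = (e : ℂ) ^ 4 by ring]; exact ht
    have E2 := toE hnec hne4 hg' ht' h
    have hcc : ((cc n : ℝ) : ℂ) = (e : ℂ) + 1 / (e : ℂ) := by
      rw [← hc]; push_cast; ring
    have E2' : EPath ((cc n : ℝ) : ℂ) (fun s => pE (-(e : ℂ)) (x s + (tE e : ℝ)))
        (fun s => vE (-(e : ℂ)) (Complex.I * g) (x s + (tE e : ℝ)) (y s))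
        (fun s => aE (-(e : ℂ)) (Complex.I * g) (x s + (tE e : ℝ)) (deriv x s / y s)) := by
      have hsq : ((cc n : ℝ) : ℂ) ^ 2 = (-(e : ℂ) + 1 / (-(e : ℂ))) ^ 2 := by
        rw [hcc]
        field_simp
        ring
      refine ⟨E2.acont, E2.pderiv, fun s hs => ?_, ?_, E2.pclosed, E2.vclosed⟩
      · rw [hsq]; exact E2.vderiv s hs
      · rw [hsq]; exact E2.eq0
    rw [← hcc] at E1
    have A1 := hper n _ _ _ E1
    have A2 := hper n _ _ _ E2'
    have hI1 := E1.acont.intervalIntegrable_of_Icc zero_le_one (μ := MeasureTheory.volume)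
    have hI2 := E2'.acont.intervalIntegrable_of_Icc zero_le_one (μ := MeasureTheory.volume)
    have hsum : period x y = -(g / 4) * ((1 + (e : ℂ)) *
        (∫ s in (0 : ℝ)..1, aE e g (x s + (tE e : ℝ)) (deriv x s / y s)) +
        Complex.I * (1 - (e : ℂ)) * (∫ s in (0 : ℝ)..1,
          aE (-(e : ℂ)) (Complex.I * g) (x s + (tE e : ℝ)) (deriv x s / y s))) := by
      rw [period, ← intervalIntegral.integral_const_mul, ← intervalIntegral.integral_const_mul,
        ← intervalIntegral.integral_add (hI1.const_mul _) (hI2.const_mul _),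
        ← intervalIntegral.integral_const_mul]
      refine intervalIntegral.integral_congr fun s hs => ?_
      simp only [aE]
      have hI := Complex.I_ne_zero
      field_simp
      ring
    rw [hsum]
    have hq : Ω * (-(g / 4) * ((1 + (e : ℂ)) *
        (∫ s in (0 : ℝ)..1, aE e g (x s + (tE e : ℝ)) (deriv x s / y s)) +
        Complex.I * (1 - (e : ℂ)) * (∫ s in (0 : ℝ)..1,
          aE (-(e : ℂ)) (Complex.I * g) (x s + (tE e : ℝ)) (deriv x s / y s)))) =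
        -(g * (4 : ℂ)⁻¹) * ((1 + (e : ℂ)) *
        (Ω * (∫ s in (0 : ℝ)..1, aE e g (x s + (tE e : ℝ)) (deriv x s / y s))) +
        Complex.I * (1 - (e : ℂ)) * (Ω * (∫ s in (0 : ℝ)..1,
          aE (-(e : ℂ)) (Complex.I * g) (x s + (tE e : ℝ)) (deriv x s / y s)))) := by ring
    rw [hq]
    have h4' : IsAlgebraic ℚ (4 : ℂ) := by
      have := isAlgebraic_natCast (R := ℚ) (A := ℂ) 4
      exact_mod_cast this
    exact (hgal.mul h4'.inv).neg.mul (((isAlgebraic_one.add halc).mul A1).add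
      ((isAlgebraic_I.mul (isAlgebraic_one.sub halc)).mul A2))

/-- the parameters -/
noncomputable def eN (n : ℕ) : ℝ := (cc n - √(cc n ^ 2 - 4)) / 2

theorem eN_facts (n : ℕ) : 0 < eN n ∧ eN n < 1 ∧ eN n + 1 / eN n = cc n ∧
    IsAlgebraic ℚ (eN n) := by
  have h := cc_gt n
  have h1 : 0 < cc n ^ 2 - 4 := by nlinarith
  have h2 : √(cc n ^ 2 - 4) ^ 2 = cc n ^ 2 - 4 := Real.sq_sqrt h1.le
  have h3 : 0 < √(cc n ^ 2 - 4) := Real.sqrt_pos.2 h1
  have h4 : √(cc n ^ 2 - 4) < cc n := by nlinarith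
  have h5 : cc n - 2 < √(cc n ^ 2 - 4) := by nlinarith
  have h0 : 0 < eN n := by rw [eN]; linarith
  have hal : IsAlgebraic ℚ (√(cc n ^ 2 - 4)) :=
    isAlgebraic_sqrt h1.le (((cc_alg n).pow 2).sub (isAlgebraic_natCast 4))
  refine ⟨h0, by rw [eN]; linarith, ?_, ?_⟩
  · field_simp
    rw [eN]
    linear_combination (1 / 4 : ℝ) * h2
  · rw [eN, div_eq_mul_inv]
    exact ((cc_alg n).sub hal).mul (isAlgebraic_natCast 2).inv

theorem tE_inj {a b : ℝ} (ha : 0 < a) (ha1 : a < 1) (hb : 0 < b) (hb1 : b < 1)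
    (h : tE a = tE b) : a = b := by
  have ha4 : a ^ 4 < 1 := pow_lt_one₀ ha.le ha1 (by norm_num)
  have hb4 : b ^ 4 < 1 := pow_lt_one₀ hb.le hb1 (by norm_num)
  have h1 : (1 - a ^ 4) ≠ 0 := by linarith
  have h2 : (1 - b ^ 4) ≠ 0 := by linarith
  rw [tE, tE] at h
  field_simp at h
  have h3 : a ^ 4 = b ^ 4 := by linarith
  exact (pow_left_inj₀ ha.le hb.le (by norm_num)).1 h3

theorem dense_SS (f : MvPolynomial (Fin 4) ℂ)
    (h : ∀ p ∈ SS, IsArithmetic p → MvPolynomial.eval p f = 0) :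
    ∀ p ∈ SS, MvPolynomial.eval p f = 0 := by
  obtain ⟨_, _, har⟩ := arith_pt
  have hinj : Function.Injective (fun n : ℕ => ((tE (eN n) : ℝ) : ℂ)) := by
    intro m n hmn
    have h1 : tE (eN m) = tE (eN n) := Complex.ofReal_injective hmn
    obtain ⟨a1, a2, a3, _⟩ := eN_facts m
    obtain ⟨b1, b2, b3, _⟩ := eN_facts n
    have h2 := tE_inj a1 a2 b1 b2 h1
    rw [h2, b3] at a3
    exact (cc_anti.injective a3).symm
  have hker : f ∈ RingHom.ker Phi := by
    refine mem_ker_of_infinite (Set.infinite_range_of_injective hinj) ?_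
    rintro l hl _ ⟨n, rfl⟩
    obtain ⟨a1, a2, a3, a4⟩ := eN_facts n
    have hgt : (5 * ((tE (eN n) : ℝ) : ℂ)) ^ 2 ≠ 4 := by
      have h := tE_gt a1 a2
      have : (5 * tE (eN n)) ^ 2 ≠ 4 := by nlinarith
      exact_mod_cast this
    exact h _ (act_pt_mem hl hgt) (arith_act (har _ n a1 a2 a4 a3) hl)
  exact fun p hp => hp.2 f hker

end Pool.Agent.W520
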