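import Mathlib

/-!
The integrals which give the periods of the curve.
-/

set_option autoImplicit false

open Set Filter Topology MeasureTheory

namespace Pool.Agent.W520

theorem diff_param {U : Set ℂ} (hU : IsOpen U) {F F' : ℂ → ℝ → ℂ}
    (hF : ContinuousOn (fun z : ℂ × ℝ => F z.1 z.2) (U ×ˢ Icc 0 1))
    (hF' : ContinuousOn (fun z : ℂ × ℝ => F' z.1 z.2) (U ×ˢ Icc 0 1))
    (hd : ∀ m ∈ U, ∀ s ∈ Icc (0 : ℝ) 1, HasDerivAt (fun m => F m s) (F' m s) m) :
    DifferentiableOn ℂ (fun m => ∫ s in (0 : ℝ)..1, F m s) U := by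
  intro m₀ hm₀
  obtain ⟨r, hr, hball⟩ := Metric.isOpen_iff.1 hU m₀ hm₀
  have hsub : Metric.closedBall m₀ (r / 2) ⊆ U :=
    (Metric.closedBall_subset_ball (by linarith)).trans hball
  have hcomp : IsCompact (Metric.closedBall m₀ (r / 2) ×ˢ Icc (0 : ℝ) 1) :=
    (isCompact_closedBall _ _).prod isCompact_Icc
  obtain ⟨C, hC⟩ := hcomp.exists_bound_of_continuousOn (hF'.mono (prod_mono hsub subset_rfl))
  have hIoc : uIoc (0 : ℝ) 1 = Ioc 0 1 := uIoc_of_le zero_le_one
  have hcs : ∀ m ∈ U, ContinuousOn (F m) (Icc 0 1) := fun m hm =>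
    hF.comp (f := fun s : ℝ => (m, s)) (by fun_prop) (fun s hs => ⟨hm, hs⟩)
  have hcs' : ∀ m ∈ U, ContinuousOn (F' m) (Icc 0 1) := fun m hm =>
    hF'.comp (f := fun s : ℝ => (m, s)) (by fun_prop) (fun s hs => ⟨hm, hs⟩)
  have hmeas : ∀ {g : ℝ → ℂ}, ContinuousOn g (Icc 0 1) →
      AEStronglyMeasurable g (volume.restrict (uIoc (0 : ℝ) 1)) := fun {g} hg => by
    rw [hIoc]
    exact (hg.mono Ioc_subset_Icc_self).aestronglyMeasurable measurableSet_Ioc
  have h := (intervalIntegral.hasDerivAt_integral_of_dominated_loc_of_deriv_le (μ := volume)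
    (a := 0) (b := 1) (F := F) (F' := F')
    (bound := fun _ => C) (Metric.closedBall_mem_nhds m₀ (half_pos hr)) ?_
    ((hcs m₀ hm₀).intervalIntegrable_of_Icc zero_le_one)
    (hmeas (hcs' m₀ hm₀)) ?_ intervalIntegrable_const ?_).2
  · exact h.differentiableAt.differentiableWithinAt
  · filter_upwards [hU.mem_nhds hm₀] with m hm
    exact hmeas (hcs m hm)
  · refine Eventually.of_forall fun s hs m hm => ?_
    rw [hIoc] at hs
    exact hC (m, s) ⟨hm, Ioc_subset_Icc_self hs⟩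
  · refine Eventually.of_forall fun s hs m hm => ?_
    rw [hIoc] at hs
    exact hd m (hsub hm) s (Ioc_subset_Icc_self hs)

/-- the square root of the cubic -/
noncomputable def q (T S : ℂ) : ℂ := (1 + S) ^ (2⁻¹ : ℂ) * (1 + T * S + S ^ 2) ^ (2⁻¹ : ℂ)

/-- the good region -/
def Good (T S : ℂ) : Prop := 0 < (1 + S).re ∧ 0 < (1 + T * S + S ^ 2).re

theorem slit_of_re {z : ℂ} (h : 0 < z.re) : z ∈ Complex.slitPlane := Or.inl h

theorem half_sq {z : ℂ} : (z ^ (2⁻¹ : ℂ)) ^ 2 = z := by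
  simp

theorem q_sq (T S : ℂ) : q T S ^ 2 = (1 + S) * (1 + T * S + S ^ 2) := by
  rw [q, mul_pow, half_sq, half_sq]

theorem ne_zero_of_re {z : ℂ} (h : 0 < z.re) : z ≠ 0 := by
  rintro rfl; simp at h

theorem q_ne {T S : ℂ} (h : Good T S) : q T S ≠ 0 := by
  intro h0
  have := q_sq T S
  rw [h0] at this
  have h2 : (1 + S) * (1 + T * S + S ^ 2) = 0 := by rw [← this]; ring
  rcases mul_eq_zero.1 h2 with h3 | h3
  · exact ne_zero_of_re h.1 h3
  · exact ne_zero_of_re h.2 h3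

theorem q_cont : ContinuousOn (fun z : ℂ × ℂ => q z.1 z.2) {z | Good z.1 z.2} := by
  unfold q
  refine ContinuousOn.mul (ContinuousOn.cpow_const (by fun_prop) fun z hz => slit_of_re hz.1)
    (ContinuousOn.cpow_const (by fun_prop) fun z hz => slit_of_re hz.2)

theorem good_open : IsOpen {z : ℂ × ℂ | Good z.1 z.2} := by
  have h1 : IsOpen {z : ℂ × ℂ | 0 < (1 + z.2).re} :=
    isOpen_lt continuous_const (Complex.continuous_re.comp (by fun_prop))
  have h2 : IsOpen {z : ℂ × ℂ | 0 < (1 + z.1 * z.2 + z.2 ^ 2).re} :=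
    isOpen_lt continuous_const (Complex.continuous_re.comp (by fun_prop))
  exact h1.inter h2

/-- real parameters -/
theorem good_real {T : ℂ} (hT : 0 < T.re) {S : ℝ} (h0 : 0 ≤ S) : Good T (S : ℂ) := by
  constructor
  · simp; linarith
  · have : (1 + T * (S : ℂ) + (S : ℂ) ^ 2).re = 1 + T.re * S + S ^ 2 := by
      simp [pow_two]
    rw [this]
    positivity

theorem sin_real (s : ℝ) : Complex.sin (Real.pi * s) ^ 2 = ((Real.sin (Real.pi * s) ^ 2 : ℝ) : ℂ) := by
  push_cast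
  rfl

theorem good_sin {T : ℂ} (hT : 0 < T.re) (s : ℝ) : Good T (Complex.sin (Real.pi * s) ^ 2) := by
  rw [sin_real]
  exact good_real hT (sq_nonneg _)

/-- the first integral -/
noncomputable def AA (T : ℂ) : ℂ := ∫ s in (0 : ℝ)..1, (q T (Complex.sin (Real.pi * s) ^ 2))⁻¹
/-- the second integral -/
noncomputable def BB (T : ℂ) : ℂ :=
  ∫ s in (0 : ℝ)..1, Complex.sin (Real.pi * s) ^ 2 * (q T (Complex.sin (Real.pi * s) ^ 2))⁻¹

/-- the derivative -/
noncomputable def qd (T S : ℂ) : ℂ :=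
  (1 + S) ^ (2⁻¹ : ℂ) * (2⁻¹ * (1 + T * S + S ^ 2) ^ (2⁻¹ - 1 : ℂ) * S)

theorem q_deriv {T S : ℂ} (h : Good T S) : HasDerivAt (fun T => q T S) (qd T S) T := by
  unfold q qd
  have h1 : HasDerivAt (fun T : ℂ => 1 + T * S + S ^ 2) S T := by
    have := (((hasDerivAt_id T).mul_const S).const_add 1).add_const (S ^ 2)
    simpa using this
  have h2 := h1.cpow_const (c := (2⁻¹ : ℂ)) (slit_of_re h.2)
  exact h2.const_mul _

theorem qd_cont : ContinuousOn (fun z : ℂ × ℂ => qd z.1 z.2) {z | Good z.1 z.2} := by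
  unfold qd
  refine ContinuousOn.mul (ContinuousOn.cpow_const (by fun_prop) fun z hz => slit_of_re hz.1)
    ?_
  refine ContinuousOn.mul (ContinuousOn.mul continuousOn_const
    (ContinuousOn.cpow_const (by fun_prop) fun z hz => slit_of_re hz.2)) (by fun_prop)

theorem diff_general {w : ℝ → ℂ} (hw : Continuous w) :
    DifferentiableOn ℂ (fun T => ∫ s in (0 : ℝ)..1,
      w s * (q T (Complex.sin (Real.pi * s) ^ 2))⁻¹) {T | 0 < T.re} := by
  have hU : IsOpen {T : ℂ | 0 < T.re} := isOpen_lt continuous_const Complex.continuous_re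
  have hmap : MapsTo (fun z : ℂ × ℝ => (z.1, Complex.sin (Real.pi * z.2) ^ 2))
      ({T : ℂ | 0 < T.re} ×ˢ Icc (0 : ℝ) 1) {z | Good z.1 z.2} := fun z hz => good_sin hz.1 z.2
  have hc1 : ContinuousOn (fun z : ℂ × ℝ => q z.1 (Complex.sin (Real.pi * z.2) ^ 2))
      ({T : ℂ | 0 < T.re} ×ˢ Icc (0 : ℝ) 1) := by
    refine q_cont.comp (f := fun z : ℂ × ℝ => (z.1, Complex.sin (Real.pi * z.2) ^ 2)) ?_ hmap
    apply Continuous.continuousOn; fun_prop
  have hc2 : ContinuousOn (fun z : ℂ × ℝ => qd z.1 (Complex.sin (Real.pi * z.2) ^ 2))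
      ({T : ℂ | 0 < T.re} ×ˢ Icc (0 : ℝ) 1) := by
    refine qd_cont.comp (f := fun z : ℂ × ℝ => (z.1, Complex.sin (Real.pi * z.2) ^ 2)) ?_ hmap
    apply Continuous.continuousOn; fun_prop
  have hne : ∀ z ∈ ({T : ℂ | 0 < T.re} ×ˢ Icc (0 : ℝ) 1),
      q z.1 (Complex.sin (Real.pi * z.2) ^ 2) ≠ 0 := fun z hz => q_ne (good_sin hz.1 z.2)
  refine diff_param hU (F' := fun T s => w s * (-(qd T (Complex.sin (Real.pi * s) ^ 2)) /
    (q T (Complex.sin (Real.pi * s) ^ 2)) ^ 2)) ?_ ?_ ?_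
  · exact ContinuousOn.mul (hw.comp continuous_snd).continuousOn (hc1.inv₀ hne)
  · exact ContinuousOn.mul (hw.comp continuous_snd).continuousOn (hc2.neg.div (hc1.pow 2)
      fun z hz => pow_ne_zero 2 (hne z hz))
  · intro T hT s hs
    exact ((q_deriv (good_sin hT s)).inv (q_ne (good_sin hT s))).const_mul (w s)

theorem AA_diff : DifferentiableOn ℂ AA {T | 0 < T.re} := by
  have := diff_general (w := fun _ => 1) continuous_const
  simp only [one_mul] at this
  exact this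

theorem BB_diff : DifferentiableOn ℂ BB {T | 0 < T.re} :=
  diff_general (w := fun s : ℝ => Complex.sin (Real.pi * s) ^ 2) (by fun_prop)

theorem sqrt_re {z : ℂ} (h : 0 < z.re) : 0 < (z ^ (2⁻¹ : ℂ)).re := by
  have hz : z ≠ 0 := ne_zero_of_re h
  rw [Complex.cpow_def_of_ne_zero hz, Complex.exp_re]
  have h1 : (Complex.log z * 2⁻¹).im = Complex.arg z / 2 := by
    rw [Complex.mul_im]
    simp [Complex.log_im]
    ring
  rw [h1]
  have h2 := Complex.abs_arg_lt_pi_div_two_iff.2 (Or.inl h)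
  rw [abs_lt] at h2
  have hpi := Real.pi_pos
  exact mul_pos (Real.exp_pos _) (Real.cos_pos_of_mem_Ioo ⟨by linarith, by linarith⟩)

theorem inv_re {z : ℂ} (h : 0 < z.re) : 0 < (z⁻¹).re := by
  rw [Complex.inv_re]
  exact div_pos h (Complex.normSq_pos.2 (ne_zero_of_re h))

theorem q_real (T : ℂ) {S : ℝ} (h0 : 0 ≤ S) :
    q T S = ((√(1 + S) : ℝ) : ℂ) * (1 + T * S + S ^ 2) ^ (2⁻¹ : ℂ) := by
  rw [q]
  congr 1
  have : (1 + (S : ℂ)) = ((1 + S : ℝ) : ℂ) := by push_cast; rfl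
  rw [this, Real.sqrt_eq_rpow]
  have h1 : (2⁻¹ : ℂ) = ((2⁻¹ : ℝ) : ℂ) := by push_cast; rfl
  rw [h1, ← Complex.ofReal_cpow (by linarith)]
  norm_num

theorem q_int {w : ℝ → ℂ} (hw : Continuous w) {T : ℂ} (hT : 0 < T.re) :
    ContinuousOn (fun s : ℝ => w s * (q T (Complex.sin (Real.pi * s) ^ 2))⁻¹) (Icc 0 1) := by
  refine ContinuousOn.mul hw.continuousOn (ContinuousOn.inv₀ ?_ fun s _ => q_ne (good_sin hT s))
  refine q_cont.comp (f := fun s : ℝ => (T, Complex.sin (Real.pi * s) ^ 2)) ?_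
    fun s _ => good_sin hT s
  apply Continuous.continuousOn; fun_prop

theorem AA_re {T : ℂ} (hT : 0 < T.re) : 0 < (AA T).re := by
  have hc := q_int (w := fun _ => 1) continuous_const hT
  simp only [one_mul] at hc
  have hi : IntervalIntegrable (fun s : ℝ => (q T (Complex.sin (Real.pi * s) ^ 2))⁻¹) volume 0 1 :=
    hc.intervalIntegrable_of_Icc zero_le_one
  have h1 : (AA T).re = ∫ s in (0 : ℝ)..1, ((q T (Complex.sin (Real.pi * s) ^ 2))⁻¹).re := by
    rw [AA]
    have := (Complex.reCLM.intervalIntegral_comp_comm hi).symm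
    simpa using this
  rw [h1]
  apply intervalIntegral.intervalIntegral_pos_of_pos_on _ _ one_pos
  · exact (Complex.continuous_re.comp_continuousOn hc).intervalIntegrable_of_Icc zero_le_one
  · intro s _
    apply inv_re
    rw [sin_real, q_real T (sq_nonneg _), Complex.re_ofReal_mul]
    have h := good_real hT (sq_nonneg (Real.sin (Real.pi * s)))
    exact mul_pos (Real.sqrt_pos.2 (by positivity)) (sqrt_re h.2)

end Pool.Agent.W520
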