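import Mathlib
import Pool.Agent.W520.Integrals

/-!
The asymptotic behaviour of the integrals.
-/

set_option autoImplicit false

open Set Filter Topology MeasureTheory

namespace Pool.Agent.W520

/-- the real square root -/
noncomputable def qr (T S : ℝ) : ℝ := √(1 + S) * √(1 + T * S + S ^ 2)

theorem q_ofReal {T S : ℝ} (hT : 0 ≤ T) (hS : 0 ≤ S) : q (T : ℂ) (S : ℂ) = ((qr T S : ℝ) : ℂ) := by
  rw [q_real _ hS, qr, Complex.ofReal_mul]
  congr 1
  have : (1 + (T : ℂ) * (S : ℂ) + (S : ℂ) ^ 2) = ((1 + T * S + S ^ 2 : ℝ) : ℂ) := by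
    push_cast; rfl
  rw [this, Real.sqrt_eq_rpow]
  have h1 : (2⁻¹ : ℂ) = ((2⁻¹ : ℝ) : ℂ) := by push_cast; rfl
  rw [h1, ← Complex.ofReal_cpow (by positivity)]
  norm_num

/-- the first integral, real version -/
noncomputable def Ar (T : ℝ) : ℝ := ∫ s in (0 : ℝ)..1, (qr T (Real.sin (Real.pi * s) ^ 2))⁻¹
/-- the second integral, real version -/
noncomputable def Br (T : ℝ) : ℝ :=
  ∫ s in (0 : ℝ)..1, Real.sin (Real.pi * s) ^ 2 * (qr T (Real.sin (Real.pi * s) ^ 2))⁻¹

theorem AA_ofReal {T : ℝ} (hT : 0 ≤ T) : AA (T : ℂ) = ((Ar T : ℝ) : ℂ) := by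
  rw [AA, Ar, ← intervalIntegral.integral_ofReal]
  refine intervalIntegral.integral_congr fun s _ => ?_
  rw [sin_real, q_ofReal hT (sq_nonneg _)]
  push_cast; rfl

theorem BB_ofReal {T : ℝ} (hT : 0 ≤ T) : BB (T : ℂ) = ((Br T : ℝ) : ℂ) := by
  rw [BB, Br, ← intervalIntegral.integral_ofReal]
  refine intervalIntegral.integral_congr fun s _ => ?_
  rw [sin_real, q_ofReal hT (sq_nonneg _)]
  push_cast; rfl

theorem qr_pos {T S : ℝ} (hT : 0 ≤ T) (hS : 0 ≤ S) : 0 < qr T S := by
  rw [qr]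
  exact mul_pos (Real.sqrt_pos.2 (by positivity)) (Real.sqrt_pos.2 (by positivity))

theorem qr_ge {T S : ℝ} (hT : 0 ≤ T) (hS : 0 ≤ S) : √(1 + T * S) ≤ qr T S := by
  rw [qr, ← Real.sqrt_mul (by positivity)]
  apply Real.sqrt_le_sqrt
  have : 0 ≤ T * S := by positivity
  nlinarith [mul_nonneg hS this, pow_nonneg hS 3, pow_nonneg hS 2]

theorem qr_le {T S : ℝ} (hT : 0 ≤ T) (hS : 0 ≤ S) (hS1 : S ≤ 1) : qr T S ≤ 2 * √(1 + T * S) := by
  rw [qr, ← Real.sqrt_mul (by positivity)]
  have h0 : 0 ≤ T * S := by positivity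
  have h2 : (2 : ℝ) * √(1 + T * S) = √(4 * (1 + T * S)) := by
    rw [Real.sqrt_mul (by norm_num), show (4 : ℝ) = 2 ^ 2 by norm_num,
      Real.sqrt_sq (by norm_num)]
  rw [h2]
  apply Real.sqrt_le_sqrt
  have hS2 : S ^ 2 ≤ 1 := pow_le_one₀ hS hS1
  calc (1 + S) * (1 + T * S + S ^ 2) ≤ 2 * (1 + T * S + 1) := by
        apply mul_le_mul (by linarith) (by linarith) (by positivity) (by norm_num)
    _ ≤ 4 * (1 + T * S) := by linarith

theorem qr_cont {T : ℝ} : Continuous (fun s : ℝ => qr T (Real.sin (Real.pi * s) ^ 2)) := by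
  unfold qr; fun_prop

theorem inv_cont {T : ℝ} (hT : 0 ≤ T) :
    Continuous (fun s : ℝ => (qr T (Real.sin (Real.pi * s) ^ 2))⁻¹) :=
  qr_cont.inv₀ fun _ => (qr_pos hT (sq_nonneg _)).ne'

theorem log_int {c : ℝ} (hc : 0 < c) :
    ∫ s in (0 : ℝ)..1, (1 + c * s)⁻¹ = Real.log (1 + c) / c := by
  have h : ∀ s ∈ uIcc (0 : ℝ) 1, HasDerivAt (fun s => Real.log (1 + c * s) / c)
      ((1 + c * s)⁻¹) s := by
    intro s hs
    rw [uIcc_of_le zero_le_one] at hs
    have h1 : 0 < 1 + c * s := by have := mul_nonneg hc.le hs.1; linarith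
    have h2 : HasDerivAt (fun s => 1 + c * s) c s := by
      have := ((hasDerivAt_id s).const_mul c).const_add 1
      simpa using this
    have h3 := (h2.log h1.ne').div_const c
    refine h3.congr_deriv ?_
    field_simp
  rw [intervalIntegral.integral_eq_sub_of_hasDerivAt h]
  · simp
  · apply ContinuousOn.intervalIntegrable
    apply ContinuousOn.inv₀ (by fun_prop)
    intro s hs
    rw [uIcc_of_le zero_le_one] at hs
    have := mul_nonneg hc.le hs.1
    have h1 : 0 < 1 + c * s := by linarith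
    exact h1.ne'

theorem inv_cont' {c : ℝ} (hc : 0 < c) : ContinuousOn (fun s : ℝ => (1 + c * s)⁻¹) (Icc 0 1) := by
  apply ContinuousOn.inv₀ (by fun_prop)
  intro s hs
  have := mul_nonneg hc.le hs.1
  have h1 : 0 < 1 + c * s := by linarith
  exact h1.ne'

theorem Ar_ge {T : ℝ} (hT : 0 < T) :
    Real.log (1 + Real.pi * √T) / (Real.pi * √T) / 2 ≤ Ar T := by
  have hsT : 0 < √T := Real.sqrt_pos.2 hT
  have hc : 0 < Real.pi * √T := mul_pos Real.pi_pos hsT
  rw [← log_int hc, ← intervalIntegral.integral_div, Ar]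
  apply intervalIntegral.integral_mono_on zero_le_one
  · exact ((inv_cont' hc).div_const 2).intervalIntegrable_of_Icc zero_le_one
  · exact (inv_cont hT.le).intervalIntegrable _ _
  · intro s hs
    have hsin : Real.sin (Real.pi * s) ^ 2 ≤ (Real.pi * s) ^ 2 := by
      have h0 : 0 ≤ Real.sin (Real.pi * s) := Real.sin_nonneg_of_nonneg_of_le_pi
        (mul_nonneg Real.pi_pos.le hs.1) (by nlinarith [Real.pi_pos, hs.2])
      exact pow_le_pow_left₀ h0 (Real.sin_le (mul_nonneg Real.pi_pos.le hs.1)) 2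
    have h1 := qr_le hT.le (sq_nonneg (Real.sin (Real.pi * s))) (Real.sin_sq_le_one _)
    have hu : 0 ≤ Real.pi * √T * s := mul_nonneg hc.le hs.1
    have h2 : √(1 + T * Real.sin (Real.pi * s) ^ 2) ≤ 1 + Real.pi * √T * s := by
      apply Real.sqrt_le_iff.2
      refine ⟨by linarith, ?_⟩
      have h3 : T * Real.sin (Real.pi * s) ^ 2 ≤ T * (Real.pi * s) ^ 2 :=
        mul_le_mul_of_nonneg_left hsin hT.le
      have h4 : (Real.pi * √T * s) ^ 2 = T * (Real.pi * s) ^ 2 := by
        have := Real.sq_sqrt hT.le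
        calc (Real.pi * √T * s) ^ 2 = √T ^ 2 * (Real.pi * s) ^ 2 := by ring
          _ = _ := by rw [this]
      nlinarith
    have h5 : qr T (Real.sin (Real.pi * s) ^ 2) ≤ 2 * (1 + Real.pi * √T * s) := by linarith
    calc (1 + Real.pi * √T * s)⁻¹ / 2 = (2 * (1 + Real.pi * √T * s))⁻¹ := by
          rw [mul_inv]; ring
      _ ≤ (qr T (Real.sin (Real.pi * s) ^ 2))⁻¹ :=
          inv_anti₀ (qr_pos hT.le (sq_nonneg _)) h5

theorem sin_ge {s : ℝ} (h0 : 0 ≤ s) (h1 : s ≤ 1 / 2) : 2 * s ≤ Real.sin (Real.pi * s) := by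
  have h := Real.mul_le_sin (x := Real.pi * s) (mul_nonneg Real.pi_pos.le h0)
    (by nlinarith [Real.pi_pos])
  have e : 2 / Real.pi * (Real.pi * s) = 2 * s := by
    have := Real.pi_ne_zero
    field_simp
  rwa [e] at h

theorem bound_aux {T u y : ℝ} (hT : 0 < T) (hu : 0 ≤ u) (hy : (2 * u) ^ 2 ≤ y) :
    (qr T y)⁻¹ ≤ 2 * (1 + 2 * √T * u)⁻¹ := by
  have hsT : 0 < √T := Real.sqrt_pos.2 hT
  have hy0 : 0 ≤ y := (sq_nonneg _).trans hy
  have h1 := qr_ge hT.le hy0
  have hw : 0 ≤ 2 * √T * u := by positivity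
  have h2 : (1 + 2 * √T * u) / 2 ≤ √(1 + T * y) := by
    apply Real.le_sqrt_of_sq_le
    have h3 : T * (2 * u) ^ 2 ≤ T * y := mul_le_mul_of_nonneg_left hy hT.le
    have h4 : (2 * √T * u) ^ 2 = T * (2 * u) ^ 2 := by
      have := Real.sq_sqrt hT.le
      calc (2 * √T * u) ^ 2 = √T ^ 2 * (2 * u) ^ 2 := by ring
        _ = _ := by rw [this]
    nlinarith [sq_nonneg (1 - 2 * √T * u)]
  calc (qr T y)⁻¹ ≤ ((1 + 2 * √T * u) / 2)⁻¹ := inv_anti₀ (by positivity) (h2.trans h1)
    _ = 2 * (1 + 2 * √T * u)⁻¹ := by rw [inv_div, div_eq_mul_inv]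

theorem Ar_le {T : ℝ} (hT : 0 < T) : Ar T ≤ 2 * Real.log (1 + 2 * √T) / √T := by
  have hsT : 0 < √T := Real.sqrt_pos.2 hT
  have hc : 0 < 2 * √T := by positivity
  have i1 : IntervalIntegrable (fun s : ℝ => (1 + 2 * √T * s)⁻¹) volume 0 1 :=
    (inv_cont' hc).intervalIntegrable_of_Icc zero_le_one
  have i2 : IntervalIntegrable (fun s : ℝ => (1 + 2 * √T * (1 - s))⁻¹) volume 0 1 := by
    refine ContinuousOn.intervalIntegrable_of_Icc zero_le_one ?_
    apply ContinuousOn.inv₀ (by fun_prop)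
    intro s hs
    have := mul_nonneg hc.le (sub_nonneg.2 hs.2)
    have h1 : 0 < 1 + 2 * √T * (1 - s) := by linarith
    exact h1.ne'
  have e2 : ∫ s in (0 : ℝ)..1, (1 + 2 * √T * (1 - s))⁻¹ =
      ∫ s in (0 : ℝ)..1, (1 + 2 * √T * s)⁻¹ := by
    have := intervalIntegral.integral_comp_sub_left (a := 0) (b := 1)
      (fun s : ℝ => (1 + 2 * √T * s)⁻¹) 1
    simpa using this
  have h : Ar T ≤ ∫ s in (0 : ℝ)..1, (2 * (1 + 2 * √T * s)⁻¹ + 2 * (1 + 2 * √T * (1 - s))⁻¹) := by
    rw [Ar]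
    apply intervalIntegral.integral_mono_on zero_le_one
    · exact (inv_cont hT.le).intervalIntegrable _ _
    · exact (i1.const_mul 2).add (i2.const_mul 2)
    · intro s hs
      have p1 : 0 < 1 + 2 * √T * s := by have := mul_nonneg hc.le hs.1; linarith
      have p2 : 0 < 1 + 2 * √T * (1 - s) := by
        have := mul_nonneg hc.le (sub_nonneg.2 hs.2); linarith
      rcases le_total s (1 / 2) with h | h
      · have h1 := sin_ge hs.1 h
        have h2 := bound_aux hT hs.1 (pow_le_pow_left₀ (by linarith [hs.1]) h1 2)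
        have : 0 < (1 + 2 * √T * (1 - s))⁻¹ := inv_pos.2 p2
        linarith
      · have h1 := sin_ge (sub_nonneg.2 hs.2) (by linarith)
        have e : Real.sin (Real.pi * (1 - s)) = Real.sin (Real.pi * s) := by
          rw [mul_sub, mul_one, Real.sin_pi_sub]
        rw [e] at h1
        have h2 := bound_aux hT (sub_nonneg.2 hs.2) (pow_le_pow_left₀ (by linarith [hs.2]) h1 2)
        have : 0 < (1 + 2 * √T * s)⁻¹ := inv_pos.2 p1
        linarith
  refine h.trans (le_of_eq ?_)
  rw [intervalIntegral.integral_add (i1.const_mul 2) (i2.const_mul 2),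
    intervalIntegral.integral_const_mul, intervalIntegral.integral_const_mul, e2, log_int hc]
  field_simp
  ring

theorem Br_le {T : ℝ} (hT : 0 < T) : Br T ≤ 1 / √T := by
  have hsT : 0 < √T := Real.sqrt_pos.2 hT
  have h : Br T ≤ ∫ _ in (0 : ℝ)..1, 1 / √T := by
    rw [Br]
    apply intervalIntegral.integral_mono_on zero_le_one
    · exact (Continuous.mul (by fun_prop) (inv_cont hT.le)).intervalIntegrable _ _
    · exact intervalIntegrable_const
    · intro s _
      set y := Real.sin (Real.pi * s) ^ 2 with hy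
      have hy0 : 0 ≤ y := sq_nonneg _
      have hy1 : y ≤ 1 := Real.sin_sq_le_one _
      have h1 := qr_ge hT.le hy0
      have h2 : √T * y ≤ √(1 + T * y) := by
        apply Real.le_sqrt_of_sq_le
        rw [mul_pow, Real.sq_sqrt hT.le]
        have : y ^ 2 ≤ y := by nlinarith
        nlinarith
      rw [← div_eq_mul_inv, div_le_div_iff₀ (qr_pos hT.le hy0) hsT]
      linarith
  refine h.trans (le_of_eq ?_)
  simp

theorem int_sin_sq : ∫ s in (0 : ℝ)..1, Real.sin (Real.pi * s) ^ 2 = 1 / 2 := by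
  have h := intervalIntegral.integral_comp_mul_left (a := 0) (b := 1)
    (fun x : ℝ => Real.sin x ^ 2) Real.pi_ne_zero
  rw [h, integral_sin_sq]
  have := Real.pi_ne_zero
  simp
  field_simp

theorem Br_ge {T : ℝ} (hT : 0 < T) : 1 / (4 * √(1 + T)) ≤ Br T := by
  have hs : 0 < √(1 + T) := Real.sqrt_pos.2 (by linarith)
  have h : ∫ s in (0 : ℝ)..1, Real.sin (Real.pi * s) ^ 2 * (2 * √(1 + T))⁻¹ ≤ Br T := by
    rw [Br]
    apply intervalIntegral.integral_mono_on zero_le_one
    · exact (Continuous.intervalIntegrable (by fun_prop) _ _)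
    · exact (Continuous.mul (by fun_prop) (inv_cont hT.le)).intervalIntegrable _ _
    · intro s _
      set y := Real.sin (Real.pi * s) ^ 2 with hy
      have hy0 : 0 ≤ y := sq_nonneg _
      have hy1 : y ≤ 1 := Real.sin_sq_le_one _
      have h1 := qr_le hT.le hy0 hy1
      have h2 : √(1 + T * y) ≤ √(1 + T) := Real.sqrt_le_sqrt (by nlinarith)
      exact mul_le_mul_of_nonneg_left (inv_anti₀ (qr_pos hT.le hy0) (by linarith)) hy0
  refine le_trans (le_of_eq ?_) h
  rw [intervalIntegral.integral_mul_const, int_sin_sq]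
  field_simp
  norm_num

theorem Ar_pos {T : ℝ} (hT : 0 < T) : 0 < Ar T := by
  have hsT : 0 < √T := Real.sqrt_pos.2 hT
  have hc : 0 < Real.pi * √T := mul_pos Real.pi_pos hsT
  refine lt_of_lt_of_le ?_ (Ar_ge hT)
  have := Real.log_pos (by linarith : 1 < 1 + Real.pi * √T)
  positivity

theorem Br_pos {T : ℝ} (hT : 0 < T) : 0 < Br T := by
  have hs : 0 < √(1 + T) := Real.sqrt_pos.2 (by linarith)
  exact lt_of_lt_of_le (by positivity) (Br_ge hT)

/-- the quotient -/
noncomputable def xr (m : ℝ) : ℝ := Br (m + 1 / m) / Ar (m + 1 / m)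

theorem xr_pos {m : ℝ} (hm : 0 < m) : 0 < xr m :=
  div_pos (Br_pos (by positivity)) (Ar_pos (by positivity))

theorem xr_le {m : ℝ} (hm : 0 < m) : xr m ≤ 2 * Real.pi / Real.log (1 + Real.pi * √m) := by
  have hT : 0 < m + 1 / m := by positivity
  have hsT : 0 < √(m + 1 / m) := Real.sqrt_pos.2 hT
  have h1 := Br_le hT
  have h2 := Ar_ge hT
  have hpi := Real.pi_pos
  have hlog : 0 < Real.log (1 + Real.pi * √(m + 1 / m)) :=
    Real.log_pos (by nlinarith [mul_pos hpi hsT])
  have h3 : xr m ≤ 2 * Real.pi / Real.log (1 + Real.pi * √(m + 1 / m)) := by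
    rw [xr]
    calc Br (m + 1 / m) / Ar (m + 1 / m) ≤ (1 / √(m + 1 / m)) /
        (Real.log (1 + Real.pi * √(m + 1 / m)) / (Real.pi * √(m + 1 / m)) / 2) :=
          div_le_div₀ (by positivity) h1 (by positivity) h2
      _ = 2 * Real.pi / Real.log (1 + Real.pi * √(m + 1 / m)) := by field_simp
  refine h3.trans ?_
  have hsm : 0 < √m := Real.sqrt_pos.2 hm
  have h4 : √m ≤ √(m + 1 / m) := Real.sqrt_le_sqrt (by have : 0 < 1 / m := by positivity
                                                       linarith)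
  have h5 : 0 < Real.log (1 + Real.pi * √m) := Real.log_pos (by nlinarith [mul_pos hpi hsm])
  apply div_le_div_of_nonneg_left (by positivity) h5
  apply Real.log_le_log (by positivity)
  have := mul_le_mul_of_nonneg_left h4 hpi.le
  linarith

theorem xr_ge {m : ℝ} (hm : 1 ≤ m) : 1 / (16 * Real.log (5 * m)) ≤ xr m := by
  have hm0 : 0 < m := by linarith
  have hT : 0 < m + 1 / m := by positivity
  have hsT : 0 < √(m + 1 / m) := Real.sqrt_pos.2 hT
  have h1 := Br_ge hT
  have h2 := Ar_le hT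
  have hT1 : 1 ≤ m + 1 / m := by have : 0 < 1 / m := by positivity
                                 linarith
  have hT2 : m + 1 / m ≤ 2 * m := by
    have : 1 / m ≤ 1 := by rw [div_le_one hm0]; exact hm
    linarith
  set T := m + 1 / m with hTdef
  have hlog : 0 < Real.log (1 + 2 * √T) := Real.log_pos (by linarith)
  have hs1 : √(1 + T) ≤ 2 * √T := by
    have : (2 : ℝ) * √T = √(4 * T) := by
      rw [Real.sqrt_mul (by norm_num), show (4 : ℝ) = 2 ^ 2 by norm_num,
        Real.sqrt_sq (by norm_num)]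
    rw [this]
    exact Real.sqrt_le_sqrt (by linarith)
  have hs0 : 0 < √(1 + T) := Real.sqrt_pos.2 (by linarith)
  have h3 : 1 / (16 * Real.log (1 + 2 * √T)) ≤ xr m := by
    rw [xr, ← hTdef]
    calc 1 / (16 * Real.log (1 + 2 * √T)) = (1 / (4 * (2 * √T))) /
        (2 * Real.log (1 + 2 * √T) / √T) := by field_simp; norm_num
      _ ≤ (1 / (4 * √(1 + T))) / (2 * Real.log (1 + 2 * √T) / √T) := by
          apply div_le_div_of_nonneg_right _ (by positivity)
          apply div_le_div_of_nonneg_left (by norm_num) (by positivity)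
          linarith
      _ ≤ Br T / Ar T := div_le_div₀ (Br_pos hT).le h1 (Ar_pos hT) h2
  refine le_trans ?_ h3
  apply div_le_div_of_nonneg_left (by norm_num) (by positivity)
  apply mul_le_mul_of_nonneg_left _ (by norm_num)
  apply Real.log_le_log (by positivity)
  have h4 : √T ≤ 2 * m := by
    apply Real.sqrt_le_iff.2
    constructor
    · linarith
    · nlinarith
  linarith

theorem xr_zero : Tendsto xr atTop (𝓝 0) := by
  have h1 : Tendsto (fun m : ℝ => 2 * Real.pi / Real.log (1 + Real.pi * √m)) atTop (𝓝 0) := by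
    apply Tendsto.const_div_atTop
    apply Real.tendsto_log_atTop.comp
    apply tendsto_atTop_add_const_left
    exact Tendsto.const_mul_atTop Real.pi_pos Real.tendsto_sqrt_atTop
  refine squeeze_zero' ?_ ?_ h1
  · filter_upwards [eventually_gt_atTop 0] with m hm using (xr_pos hm).le
  · filter_upwards [eventually_gt_atTop 0] with m hm using xr_le hm

theorem xr_pow (d : ℕ) : Tendsto (fun m : ℝ => m * xr m ^ d) atTop atTop := by
  have h1 : Tendsto (fun y : ℝ => Real.log y ^ d / y) atTop (𝓝 0) :=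
    (Real.isLittleO_pow_log_id_atTop (n := d)).tendsto_div_nhds_zero
  have h2 : Tendsto (fun m : ℝ => 16 ^ d * 5 * (Real.log (5 * m) ^ d / (5 * m))) atTop (𝓝 0) := by
    have := (h1.comp (tendsto_id.const_mul_atTop (by norm_num : (0 : ℝ) < 5))).const_mul
      ((16 : ℝ) ^ d * 5)
    simpa using this
  have h3 : Tendsto (fun m : ℝ => 16 ^ d * 5 * (Real.log (5 * m) ^ d / (5 * m))) atTop
      (𝓝[>] 0) := by
    apply tendsto_nhdsWithin_iff.2 ⟨h2, ?_⟩
    filter_upwards [eventually_ge_atTop 1] with m hm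
    have : 0 < Real.log (5 * m) := Real.log_pos (by linarith)
    have : 0 < m := by linarith
    show (0 : ℝ) < _
    positivity
  have h4 := h3.inv_tendsto_nhdsGT_zero
  refine tendsto_atTop_mono' _ ?_ h4
  filter_upwards [eventually_ge_atTop 1] with m hm
  have hl : 0 < Real.log (5 * m) := Real.log_pos (by linarith)
  have hm0 : 0 < m := by linarith
  have h5 := xr_ge hm
  have h6 : (1 / (16 * Real.log (5 * m))) ^ d ≤ xr m ^ d := pow_le_pow_left₀ (by positivity) h5 d
  have h7 := mul_le_mul_of_nonneg_left h6 hm0.le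
  refine le_trans (le_of_eq ?_) h7
  simp only [Pi.inv_apply]
  rw [one_div, inv_pow, mul_pow]
  field_simp

end Pool.Agent.W520
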