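import Mathlib

/-!
A criterion for algebraic independence of two functions near infinity.
-/

set_option autoImplicit false

open Set Filter Topology

namespace Pool.Agent.W520

theorem one_var {q : MvPolynomial (Fin 1) ℂ} (hq : q ≠ 0) :
    ∃ r : Polynomial ℂ, r ≠ 0 ∧ ∀ v : ℂ, MvPolynomial.eval (fun _ => v) q = r.eval v := by
  refine ⟨Polynomial.map (MvPolynomial.eval (Fin.elim0 : Fin 0 → ℂ))
    (MvPolynomial.finSuccEquiv ℂ 0 q), ?_, fun v => ?_⟩
  · intro h
    apply hq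
    apply (MvPolynomial.finSuccEquiv ℂ 0).injective
    rw [map_zero]
    have hinj : Function.Injective (MvPolynomial.eval (Fin.elim0 : Fin 0 → ℂ)) := by
      intro f g hfg
      rw [MvPolynomial.eq_C_of_isEmpty f, MvPolynomial.eq_C_of_isEmpty g] at hfg ⊢
      rw [MvPolynomial.eval_C, MvPolynomial.eval_C] at hfg
      rw [hfg]
    apply Polynomial.map_injective _ hinj
    rw [h, Polynomial.map_zero]
  · rw [← MvPolynomial.eval_eq_eval_mv_eval']
    congr 2
    funext i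
    fin_cases i
    rfl

theorem indep {u v : ℝ → ℂ} {C : ℝ} (h1 : ∀ᶠ m in atTop, ‖u m - 1‖ ≤ C / m)
    (h2 : ∀ᶠ m in atTop, u m ≠ 1) (h3 : Tendsto v atTop (𝓝 0))
    (h4 : ∀ d : ℕ, Tendsto (fun m : ℝ => m * ‖v m‖ ^ d) atTop atTop)
    {P : MvPolynomial (Fin 2) ℂ}
    (hP : ∀ᶠ m in atTop, MvPolynomial.eval ![u m, v m] P = 0) : P = 0 := by
  by_contra hP0
  set Q := MvPolynomial.finSuccEquiv ℂ 1 P with hQ
  have hQ0 : Q ≠ 0 := by
    rw [hQ]
    intro h
    exact hP0 ((MvPolynomial.finSuccEquiv ℂ 1).injective (by rw [h, map_zero]))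
  obtain ⟨Q₁, hQ₁, hnd⟩ := Polynomial.exists_eq_pow_rootMultiplicity_mul_and_not_dvd Q hQ0 1
  set k := Polynomial.rootMultiplicity 1 Q
  set q := Q₁.eval 1 with hq
  have hq0 : q ≠ 0 := by
    intro h
    exact hnd (Polynomial.dvd_iff_isRoot.2 h)
  obtain ⟨Q₂, hQ₂⟩ : ∃ Q₂, Q₁ - Polynomial.C q = (Polynomial.X - Polynomial.C 1) * Q₂ := by
    apply Polynomial.dvd_iff_isRoot.2
    simp [Polynomial.IsRoot, hq]
  obtain ⟨r, hr0, hr⟩ := one_var hq0
  obtain ⟨r₁, hr₁, hnd'⟩ := Polynomial.exists_eq_pow_rootMultiplicity_mul_and_not_dvd r hr0 0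
  set d := Polynomial.rootMultiplicity 0 r
  have hr₁0 : r₁.eval 0 ≠ 0 := by
    intro h
    exact hnd' (Polynomial.dvd_iff_isRoot.2 h)
  -- evaluation
  set E : ℂ → ℂ → Polynomial (MvPolynomial (Fin 1) ℂ) → ℂ := fun a b f =>
    Polynomial.eval a (Polynomial.map (MvPolynomial.eval (fun _ => b)) f) with hE
  have hEP : ∀ a b, MvPolynomial.eval ![a, b] P = E a b Q := fun a b => by
    have := MvPolynomial.eval_eq_eval_mv_eval' (fun _ : Fin 1 => b) a P
    refine Eq.trans ?_ this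
    congr 2
    funext i
    fin_cases i <;> rfl
  have hEQ : ∀ a b, E a b Q = (a - 1) ^ k * (r.eval b + (a - 1) * E a b Q₂) := fun a b => by
    have e1 : E a b Q = (a - 1) ^ k * E a b Q₁ := by
      simp only [hE]
      rw [hQ₁]
      simp
    have e2 : E a b Q₁ = r.eval b + (a - 1) * E a b Q₂ := by
      have : Q₁ = Polynomial.C q + (Polynomial.X - Polynomial.C 1) * Q₂ := by
        rw [← hQ₂]; ring
      conv_lhs => rw [this]
      simp only [hE]
      rw [← hr]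
      simp
    rw [e1, e2]
  have hE2 : ∀ a b, E a b Q₂ =
      MvPolynomial.eval ![a, b] ((MvPolynomial.finSuccEquiv ℂ 1).symm Q₂) := fun a b => by
    have := MvPolynomial.eval_eq_eval_mv_eval' (fun _ : Fin 1 => b) a
      ((MvPolynomial.finSuccEquiv ℂ 1).symm Q₂)
    rw [AlgEquiv.apply_symm_apply] at this
    refine Eq.trans this.symm ?_
    congr 2
    funext i
    fin_cases i <;> rfl
  -- limits
  have hu : Tendsto u atTop (𝓝 1) := by
    rw [tendsto_iff_norm_sub_tendsto_zero]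
    refine squeeze_zero' (Eventually.of_forall fun _ => norm_nonneg _) h1 ?_
    exact tendsto_const_nhds.div_atTop tendsto_id
  have hlim2 : Tendsto (fun m => E (u m) (v m) Q₂) atTop (𝓝 (E 1 0 Q₂)) := by
    simp only [hE2]
    have hc : Continuous (fun w : Fin 2 → ℂ => MvPolynomial.eval w
        ((MvPolynomial.finSuccEquiv ℂ 1).symm Q₂)) := MvPolynomial.continuous_eval _
    have hw : Tendsto (fun m => ![u m, v m]) atTop (𝓝 ![1, 0]) := by
      rw [tendsto_pi_nhds]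
      intro i
      fin_cases i
      · simpa using hu
      · simpa using h3
    exact (hc.tendsto _).comp hw
  have hlim1 : Tendsto (fun m => r₁.eval (v m)) atTop (𝓝 (r₁.eval 0)) :=
    (r₁.continuous.tendsto _).comp h3
  set M := ‖E 1 0 Q₂‖ + 1
  have hM : ∀ᶠ m in atTop, ‖E (u m) (v m) Q₂‖ < M :=
    hlim2.norm.eventually_lt_const (by simp [M])
  have hc0 : 0 < ‖r₁.eval 0‖ := norm_pos_iff.2 hr₁0
  have hc : ∀ᶠ m in atTop, ‖r₁.eval 0‖ / 2 < ‖r₁.eval (v m)‖ :=
    hlim1.norm.eventually_const_lt (by linarith)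
  have hbig := (h4 d).eventually_gt_atTop (C * M / (‖r₁.eval 0‖ / 2))
  obtain ⟨m, m1, m2, m3, m4, m5, m6, m7⟩ := (h1.and (h2.and (hP.and (hM.and (hc.and
    (hbig.and (eventually_gt_atTop (0 : ℝ)))))))).exists
  rw [hEP, hEQ, mul_eq_zero] at m3
  have hk : (u m - 1) ^ k ≠ 0 := pow_ne_zero _ (sub_ne_zero.2 m2)
  have h5 : r.eval (v m) = -((u m - 1) * E (u m) (v m) Q₂) := by
    linear_combination m3.resolve_left hk
  have h6 : r.eval (v m) = v m ^ d * r₁.eval (v m) := by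
    conv_lhs => rw [hr₁]
    simp
  have h7 : ‖v m‖ ^ d * ‖r₁.eval (v m)‖ = ‖u m - 1‖ * ‖E (u m) (v m) Q₂‖ := by
    rw [← norm_pow, ← norm_mul, ← h6, h5, norm_neg, norm_mul]
  have h8 : ‖u m - 1‖ * ‖E (u m) (v m) Q₂‖ ≤ C / m * M :=
    mul_le_mul m1 m4.le (norm_nonneg _) ((norm_nonneg _).trans m1)
  have h9 : ‖v m‖ ^ d * (‖r₁.eval 0‖ / 2) ≤ C / m * M :=
    (mul_le_mul_of_nonneg_left m5.le (by positivity)).trans (h7.le.trans h8)
  rw [div_lt_iff₀ (by positivity)] at m6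
  have h10 : m * (‖v m‖ ^ d * (‖r₁.eval 0‖ / 2)) ≤ m * (C / m * M) :=
    mul_le_mul_of_nonneg_left h9 m7.le
  have h11 : m * (C / m * M) = C * M := by field_simp
  rw [h11] at h10
  linarith

end Pool.Agent.W520
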