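import Mathlib
import Pool.Agent.W520.Defs
import Pool.Agent.W520.Curve

/-!
Families of loops over a neighbourhood of a point of the curve.
-/

set_option autoImplicit false

open Set Filter Topology MeasureTheory

namespace Pool.Agent.W520

/-- the parameter `m`, as a function on a neighbourhood of the curve -/
noncomputable def mu (p : Fin 4 → ℂ) : ℂ :=
  (5 * (-p 3 / 10) ^ (2⁻¹ : ℂ) + (-(5 / 2) * p 3 - 4) ^ (2⁻¹ : ℂ)) / 2

/-- the parameter `t` in terms of `m` -/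
noncomputable def tt (m : ℂ) : ℂ := (m + 1 / m) / 5

theorem mu_cont {p : Fin 4 → ℂ} (h1 : -p 3 / 10 ∈ Complex.slitPlane)
    (h2 : -(5 / 2) * p 3 - 4 ∈ Complex.slitPlane) : ContinuousAt mu p := by
  unfold mu
  have hp : ContinuousAt (fun p : Fin 4 → ℂ => p 3) p := (continuous_apply 3).continuousAt
  refine ContinuousAt.div_const (ContinuousAt.add (ContinuousAt.mul continuousAt_const ?_) ?_) 2
  · exact ContinuousAt.cpow (hp.neg.div_const 10) continuousAt_const h1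
  · exact ContinuousAt.cpow ((continuousAt_const.mul hp).sub continuousAt_const)
      continuousAt_const h2

theorem sq_mem_slit {z : ℂ} (h : 0 < z.re) : z ^ 2 ∈ Complex.slitPlane := by
  rw [Complex.mem_slitPlane_iff]
  by_cases h2 : z.im = 0
  · left
    simp [pow_two, h2]
    positivity
  · right
    simp [pow_two]
    have : z.re * z.im ≠ 0 := mul_ne_zero h.ne' h2
    intro h3
    apply this
    linarith

theorem inv_re_le {m : ℂ} (hm : 1 < m.re) : 0 < (1 / m).re ∧ (1 / m).re < m.re := by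
  have h0 : 0 < Complex.normSq m := by
    rw [Complex.normSq_apply]; nlinarith [mul_self_nonneg m.im]
  have h1 : (1 / m).re = m.re / Complex.normSq m := by
    rw [one_div, Complex.inv_re]
  rw [h1]
  refine ⟨by positivity, ?_⟩
  rw [div_lt_iff₀ h0, Complex.normSq_apply]
  nlinarith [mul_self_nonneg m.im, mul_pos (by linarith : 0 < m.re) (by linarith : 0 < m.re - 1)]

theorem ne_of_re {m : ℂ} (hm : 1 < m.re) : m ≠ 0 := by
  rintro rfl; simp at hm; linarith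

theorem tt_re {m : ℂ} (hm : 1 < m.re) : 0 < (tt m).re := by
  have h := (inv_re_le hm).1
  have : (tt m).re = (m.re + (1 / m).re) / 5 := by
    rw [tt]
    have : (m + 1 / m) / 5 = (m + 1 / m) * ((1 / 5 : ℝ) : ℂ) := by push_cast; ring
    rw [this, Complex.re_mul_ofReal, Complex.add_re]
    ring
  rw [this]
  linarith

theorem pt3_a {m : ℂ} : -(pt (tt m)) 3 / 10 = (tt m) ^ 2 := by
  rw [pt_three]; ring

theorem pt3_b {m : ℂ} (hm : 1 < m.re) : -(5 / 2) * (pt (tt m)) 3 - 4 = (m - 1 / m) ^ 2 := by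
  have := ne_of_re hm
  rw [pt_three, tt]
  field_simp
  ring

theorem mu_pt {m : ℂ} (hm : 1 < m.re) : mu (pt (tt m)) = m := by
  have h1 : 0 < (m - 1 / m).re := by
    rw [Complex.sub_re]; linarith [(inv_re_le hm).2]
  rw [mu, pt3_a, pt3_b hm, Complex.sq_cpow_two_inv (tt_re hm), Complex.sq_cpow_two_inv h1, tt]
  ring

theorem slit_a {m : ℂ} (hm : 1 < m.re) : -(pt (tt m)) 3 / 10 ∈ Complex.slitPlane := by
  rw [pt3_a]; exact sq_mem_slit (tt_re hm)

theorem slit_b {m : ℂ} (hm : 1 < m.re) :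
    -(5 / 2) * (pt (tt m)) 3 - 4 ∈ Complex.slitPlane := by
  rw [pt3_b hm]
  apply sq_mem_slit
  rw [Complex.sub_re]; linarith [(inv_re_le hm).2]

theorem pt_cont : Continuous pt := by
  refine continuous_pi fun j => ?_
  fin_cases j
  · show Continuous fun t : ℂ => -4 * t ^ 5 + 5 * t ^ 3 - t
    fun_prop
  · show Continuous fun t : ℂ => -15 * t ^ 4 + 10 * t ^ 2 - 1
    fun_prop
  · show Continuous fun t : ℂ => 5 * t - 20 * t ^ 3
    fun_prop
  · show Continuous fun t : ℂ => -10 * t ^ 2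
    fun_prop

theorem tt_cont {m : ℂ} (hm : m ≠ 0) : ContinuousAt tt m := by
  unfold tt
  exact (continuousAt_id.add (continuousAt_const.div continuousAt_id hm)).div_const 5

/-- the condition on a family of loops on the curves of the family -/
structure LoopFamily (V : Set ℂ) (X Y : ℂ → ℝ → ℂ) : Prop where
  contX : ContinuousOn (fun z : ℂ × ℝ => X z.1 z.2) (V ×ˢ univ)
  contY : ContinuousOn (fun z : ℂ × ℝ => Y z.1 z.2) (V ×ˢ univ)
  smooth : ∀ m ∈ V, ContDiff ℝ 1 (X m)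
  ne : ∀ m ∈ V, ∀ s : ℝ, Y m s ≠ 0
  curve : ∀ m ∈ V, ∀ s : ℝ, Y m s ^ 2 = X m s * (X m s ^ 2 - 1) *
    (X m s ^ 2 - (m + 1 / m) * X m s + 1)
  closedX : ∀ m ∈ V, X m 1 = X m 0
  closedY : ∀ m ∈ V, Y m 1 = Y m 0

theorem comp_fst {f : (Fin 4 → ℂ) → ℂ} {p : Fin 4 → ℂ} (hf : ContinuousAt f p) (s : ℝ) :
    ContinuousAt (fun z : (Fin 4 → ℂ) × ℝ => f z.1) (p, s) := by
  have h : Tendsto (fun z : (Fin 4 → ℂ) × ℝ => z.1) (𝓝 (p, s)) (𝓝 p) := continuousAt_fst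
  exact hf.tendsto.comp h

theorem comp_pair {X : ℂ → ℝ → ℂ} {f : (Fin 4 → ℂ) → ℂ} {p : Fin 4 → ℂ} {s : ℝ}
    (hX : ContinuousAt (fun z : ℂ × ℝ => X z.1 z.2) (f p, s)) (hf : ContinuousAt f p) :
    ContinuousAt (fun z : (Fin 4 → ℂ) × ℝ => X (f z.1) z.2) (p, s) := by
  have h : Tendsto (fun z : (Fin 4 → ℂ) × ℝ => (f z.1, z.2)) (𝓝 (p, s)) (𝓝 (f p, s)) :=
    (comp_fst hf s).prodMk_nhds continuousAt_snd
  exact hX.tendsto.comp h

theorem slice {G : (Fin 4 → ℂ) × ℝ → ℂ} {p : Fin 4 → ℂ} {s : ℝ} (h : ContinuousAt G (p, s)) :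
    ContinuousAt (fun s => G (p, s)) s := by
  have h2 : Tendsto (fun s : ℝ => (p, s)) (𝓝 s) (𝓝 (p, s)) :=
    (Continuous.prodMk_right p).continuousAt
  exact h.tendsto.comp h2

/-- the first coordinate of the extended family -/
noncomputable def xF (X : ℂ → ℝ → ℂ) (p : Fin 4 → ℂ) (s : ℝ) : ℂ := X (mu p) s - tt (mu p)

/-- the quotient of the values -/
noncomputable def rF (X Y : ℂ → ℝ → ℂ) (p : Fin 4 → ℂ) (s : ℝ) : ℂ :=
  (quintic p).eval (xF X p s) / Y (mu p) s ^ 2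

/-- the second coordinate of the extended family -/
noncomputable def yF (X Y : ℂ → ℝ → ℂ) (p : Fin 4 → ℂ) (s : ℝ) : ℂ :=
  Y (mu p) s * (rF X Y p s) ^ (2⁻¹ : ℂ)

section

variable {V : Set ℂ} {X Y : ℂ → ℝ → ℂ} {p : Fin 4 → ℂ} {s : ℝ}

theorem contX_at (hV : IsOpen V) (h : LoopFamily V X Y) (hp : ContinuousAt mu p)
    (hpV : mu p ∈ V) : ContinuousAt (fun z : (Fin 4 → ℂ) × ℝ => X (mu z.1) z.2) (p, s) :=
  comp_pair (h.contX.continuousAt ((hV.prod isOpen_univ).mem_nhds ⟨hpV, mem_univ _⟩)) hp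

theorem contY_at (hV : IsOpen V) (h : LoopFamily V X Y) (hp : ContinuousAt mu p)
    (hpV : mu p ∈ V) : ContinuousAt (fun z : (Fin 4 → ℂ) × ℝ => Y (mu z.1) z.2) (p, s) :=
  comp_pair (h.contY.continuousAt ((hV.prod isOpen_univ).mem_nhds ⟨hpV, mem_univ _⟩)) hp

theorem contx_at (hV : IsOpen V) (hV1 : ∀ m ∈ V, 1 < m.re) (h : LoopFamily V X Y)
    (hp : ContinuousAt mu p) (hpV : mu p ∈ V) :
    ContinuousAt (fun z : (Fin 4 → ℂ) × ℝ => xF X z.1 z.2) (p, s) := by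
  have h4 : ContinuousAt (fun p => tt (mu p)) p :=
    (tt_cont (ne_of_re (hV1 _ hpV))).tendsto.comp hp
  exact (contX_at hV h hp hpV).sub (comp_fst h4 s)

theorem contr_at (hV : IsOpen V) (hV1 : ∀ m ∈ V, 1 < m.re) (h : LoopFamily V X Y)
    (hp : ContinuousAt mu p) (hpV : mu p ∈ V) :
    ContinuousAt (fun z : (Fin 4 → ℂ) × ℝ => rF X Y z.1 z.2) (p, s) := by
  unfold rF
  refine ContinuousAt.div ?_ ((contY_at hV h hp hpV).pow 2) (pow_ne_zero 2 (h.ne _ hpV s))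
  simp only [eval_quintic]
  have hj : ∀ j : Fin 4, ContinuousAt (fun z : (Fin 4 → ℂ) × ℝ => z.1 j) (p, s) := fun j =>
    comp_fst (continuous_apply j).continuousAt s
  have hx1 := contx_at (s := s) hV hV1 h hp hpV
  exact (((((hx1.pow 5).add ((hj 3).mul (hx1.pow 3))).add ((hj 2).mul (hx1.pow 2))).add
    ((hj 1).mul hx1)).add (hj 0))

theorem conty_at (hV : IsOpen V) (hV1 : ∀ m ∈ V, 1 < m.re) (h : LoopFamily V X Y)
    (hp : ContinuousAt mu p) (hpV : mu p ∈ V) (hr : rF X Y p s ∈ Complex.slitPlane) :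
    ContinuousAt (fun z : (Fin 4 → ℂ) × ℝ => yF X Y z.1 z.2) (p, s) := by
  unfold yF
  exact (contY_at hV h hp hpV).mul
    (ContinuousAt.cpow (contr_at hV hV1 h hp hpV) continuousAt_const hr)

theorem xF_pt (hV1 : ∀ m ∈ V, 1 < m.re) {m : ℂ} (hm : m ∈ V) :
    xF X (pt (tt m)) s = X m s - tt m := by
  rw [xF, mu_pt (hV1 m hm)]

theorem rF_pt (hV1 : ∀ m ∈ V, 1 < m.re) (h : LoopFamily V X Y) {m : ℂ} (hm : m ∈ V) :
    rF X Y (pt (tt m)) s = 1 := by
  rw [rF, xF_pt hV1 hm, mu_pt (hV1 m hm), eval_pt, h.curve m hm s]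
  have h5 : 5 * tt m = m + 1 / m := by rw [tt]; ring
  rw [h5, sub_add_cancel]
  apply div_self
  rw [← h.curve m hm s]
  exact pow_ne_zero 2 (h.ne m hm s)

theorem yF_pt (hV1 : ∀ m ∈ V, 1 < m.re) (h : LoopFamily V X Y) {m : ℂ} (hm : m ∈ V) :
    yF X Y (pt (tt m)) s = Y m s := by
  rw [yF, rF_pt hV1 h hm, mu_pt (hV1 m hm), Complex.one_cpow, mul_one]

theorem yF_sq (h : LoopFamily V X Y) (hpV : mu p ∈ V) :
    yF X Y p s ^ 2 = (quintic p).eval (xF X p s) := by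
  have hY0 := h.ne _ hpV s
  have : ((rF X Y p s) ^ (2⁻¹ : ℂ)) ^ 2 = rF X Y p s := by simp
  rw [yF, mul_pow, this, rF]
  field_simp

theorem yF_ne (h : LoopFamily V X Y) (hpV : mu p ∈ V) (hr : rF X Y p s ∈ Complex.slitPlane) :
    yF X Y p s ≠ 0 := by
  rw [yF]
  refine mul_ne_zero (h.ne _ hpV s) ?_
  rw [Ne, Complex.cpow_eq_zero_iff]
  rintro ⟨h0, _⟩
  exact Complex.slitPlane_ne_zero hr h0

/-- the neighbourhood -/
def UF (V : Set ℂ) (X Y : ℂ → ℝ → ℂ) : Set (Fin 4 → ℂ) :=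
  {p | (ContinuousAt mu p ∧ mu p ∈ V) ∧ ∀ s ∈ Icc (0 : ℝ) 1, rF X Y p s ∈ Complex.slitPlane}

theorem UF_nhds (hV : IsOpen V) (hV1 : ∀ m ∈ V, 1 < m.re) (h : LoopFamily V X Y) {m₀ : ℂ}
    (hm₀ : m₀ ∈ V) : UF V X Y ∈ 𝓝 (pt (tt m₀)) := by
  have c0 : ContinuousAt mu (pt (tt m₀)) := mu_cont (slit_a (hV1 _ hm₀)) (slit_b (hV1 _ hm₀))
  have v0 : mu (pt (tt m₀)) ∈ V := by rw [mu_pt (hV1 _ hm₀)]; exact hm₀
  have hc3 : Continuous (fun p : Fin 4 → ℂ => p 3) := continuous_apply 3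
  have h1 : ∀ᶠ p in 𝓝 (pt (tt m₀)), mu p ∈ V := c0 (hV.mem_nhds v0)
  have h2 : ∀ᶠ p in 𝓝 (pt (tt m₀)), -p 3 / 10 ∈ Complex.slitPlane :=
    (hc3.neg.div_const 10).continuousAt
      (Complex.isOpen_slitPlane.mem_nhds (slit_a (hV1 _ hm₀)))
  have h3 : ∀ᶠ p in 𝓝 (pt (tt m₀)), -(5 / 2) * p 3 - 4 ∈ Complex.slitPlane :=
    ((continuous_const.mul hc3).sub continuous_const).continuousAt
      (Complex.isOpen_slitPlane.mem_nhds (slit_b (hV1 _ hm₀)))
  have h4 : ∀ᶠ p in 𝓝 (pt (tt m₀)), ∀ s ∈ Icc (0 : ℝ) 1, rF X Y p s ∈ Complex.slitPlane := by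
    refine isCompact_Icc.eventually_forall_of_forall_eventually fun s _ => ?_
    have h1 := contr_at (s := s) hV hV1 h c0 v0
    refine h1 (Complex.isOpen_slitPlane.mem_nhds ?_)
    show rF X Y (pt (tt m₀)) s ∈ Complex.slitPlane
    rw [rF_pt hV1 h hm₀]
    exact Complex.one_mem_slitPlane
  filter_upwards [h1, h2, h3, h4] with p p1 p2 p3 p4
  exact ⟨⟨mu_cont p2 p3, p1⟩, p4⟩

theorem family (hV : IsOpen V) (hV1 : ∀ m ∈ V, 1 < m.re)
    (h : LoopFamily V X Y) {m₀ : ℂ} (hm₀ : m₀ ∈ V) :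
    IsPeriodFun (pt (tt m₀)) (fun p => period (xF X p) (yF X Y p)) := by
  refine ⟨UF V X Y, UF_nhds hV hV1 h hm₀, xF X, yF X Y, ?_, ?_, fun p hp => ⟨?_, rfl⟩⟩
  · rintro ⟨p, s⟩ ⟨hp, hs⟩
    exact (contx_at hV hV1 h hp.1.1 hp.1.2).continuousWithinAt
  · rintro ⟨p, s⟩ ⟨hp, hs⟩
    exact (conty_at hV hV1 h hp.1.1 hp.1.2 (hp.2 s hs)).continuousWithinAt
  · obtain ⟨⟨hc, hv⟩, hr⟩ := hp
    refine ⟨?_, ?_, fun s hs => yF_ne h hv (hr s hs), fun s hs => yF_sq h hv, ?_, ?_⟩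
    · exact (h.smooth _ hv).sub contDiff_const
    · intro s hs
      have h1 := slice (conty_at hV hV1 h hc hv (hr s hs))
      have h2 : ContinuousAt (fun s => yF X Y p s) s := h1
      exact h2.continuousWithinAt
    · simp only [xF, h.closedX _ hv]
    · simp only [yF, rF, xF, h.closedX _ hv, h.closedY _ hv]

theorem family_eq (hV1 : ∀ m ∈ V, 1 < m.re) (h : LoopFamily V X Y) {m : ℂ} (hm : m ∈ V) :
    period (xF X (pt (tt m))) (yF X Y (pt (tt m))) =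
      ∫ s in (0 : ℝ)..1, deriv (X m) s / Y m s := by
  rw [period]
  refine intervalIntegral.integral_congr fun s _ => ?_
  have e1 : xF X (pt (tt m)) = fun s => X m s - tt m := by
    funext s; exact xF_pt hV1 hm
  simp only [e1, yF_pt hV1 h hm]
  rw [deriv_sub_const]

end

end Pool.Agent.W520
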