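import Mathlib
import Pool.Agent.W520.Integrals
import Pool.Agent.W520.Family

/-!
Three families of loops and their periods.
-/

set_option autoImplicit false

open Set Filter Topology MeasureTheory

namespace Pool.Agent.W520

/-- the shifted point -/
noncomputable def zz (s : ℝ) : ℂ := Real.pi * ((s : ℂ) + ((1 / 16 : ℝ) : ℂ) * Complex.I)

theorem zz_im (s : ℝ) : (zz s).im = Real.pi / 16 := by
  rw [zz, Complex.im_ofReal_mul]
  simp
  ring

/-- the shifted square of the sine -/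
noncomputable def Sg (s : ℝ) : ℂ := Complex.sin (zz s) ^ 2

theorem sinh_sq_le {y : ℝ} (h : |y| ≤ 1 / 4) : Real.sinh y ^ 2 ≤ 1 / 14 := by
  have h1 : Real.cosh (2 * y) = 1 + 2 * Real.sinh y ^ 2 := by
    rw [Real.cosh_two_mul, Real.cosh_sq]; ring
  have h2 := Real.cosh_le_exp_half_sq (2 * y)
  have hy2 : y ^ 2 ≤ 1 / 16 := by
    have := pow_le_pow_left₀ (abs_nonneg y) h 2
    rw [sq_abs] at this
    linarith
  have h3 : Real.exp ((2 * y) ^ 2 / 2) ≤ Real.exp (1 / 8) := Real.exp_le_exp.2 (by nlinarith)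
  have h4 : Real.exp (1 / 8) ≤ 8 / 7 := by
    have h5 := Real.add_one_le_exp (-(1 / 8 : ℝ))
    have h6 : Real.exp (1 / 8) * Real.exp (-(1 / 8)) = 1 := by rw [← Real.exp_add]; norm_num
    have h7 := Real.exp_pos (1 / 8 : ℝ)
    nlinarith
  linarith

theorem strip {z : ℂ} (h : |z.im| ≤ 1 / 4) : -(1 / 14) ≤ (Complex.sin z ^ 2).re ∧
    (Complex.sin z ^ 2).im ^ 2 ≤ 15 / 196 := by
  have hh := sinh_sq_le h
  have hre : (Complex.sin z).re = Real.sin z.re * Real.cosh z.im := by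
    rw [Complex.sin_eq]
    simp [← Complex.ofReal_sin, ← Complex.ofReal_cosh, ← Complex.ofReal_cos, ← Complex.ofReal_sinh]
  have him : (Complex.sin z).im = Real.cos z.re * Real.sinh z.im := by
    rw [Complex.sin_eq]
    simp [← Complex.ofReal_sin, ← Complex.ofReal_cosh, ← Complex.ofReal_cos, ← Complex.ofReal_sinh]
  have h1 : (Complex.sin z ^ 2).re = (Complex.sin z).re ^ 2 - (Complex.sin z).im ^ 2 := by
    simp [pow_two]
  have h2 : (Complex.sin z ^ 2).im = 2 * (Complex.sin z).re * (Complex.sin z).im := by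
    simp [pow_two]; ring
  have h3 := Real.sin_sq_add_cos_sq z.re
  have h4 : Real.cosh z.im ^ 2 = 1 + Real.sinh z.im ^ 2 := by rw [Real.cosh_sq]; ring
  set H := Real.sinh z.im ^ 2 with hH
  have hH0 : 0 ≤ H := sq_nonneg _
  set s2 := Real.sin z.re ^ 2 with hs2
  set c2 := Real.cos z.re ^ 2 with hc2
  have hs0 : 0 ≤ s2 := sq_nonneg _
  have hc0 : 0 ≤ c2 := sq_nonneg _
  have e1 : (Complex.sin z ^ 2).re = s2 * (1 + H) - c2 * H := by
    rw [h1, hre, him, mul_pow, mul_pow, h4]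
  have e2 : (Complex.sin z ^ 2).im ^ 2 = 4 * (s2 * (1 + H)) * (c2 * H) := by
    rw [h2, hre, him, mul_pow, mul_pow, mul_pow, mul_pow, h4]
    ring
  constructor
  · rw [e1]
    have : c2 * H ≤ H := by nlinarith
    nlinarith [mul_nonneg hs0 (by linarith : 0 ≤ 1 + H)]
  · rw [e2]
    have h5 : s2 * c2 ≤ 1 / 4 := by nlinarith [sq_nonneg (s2 - c2)]
    have h6 : H * (1 + H) ≤ 15 / 196 := by nlinarith
    calc 4 * (s2 * (1 + H)) * (c2 * H) = 4 * (s2 * c2) * (H * (1 + H)) := by ring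
      _ ≤ 4 * (1 / 4) * (15 / 196) := by
          apply mul_le_mul (by linarith) h6 (by positivity) (by norm_num)
      _ = 15 / 196 := by norm_num

theorem good_strip {T z : ℂ} (hT : ‖T - 5 / 2‖ ≤ 1 / 4) (h : |z.im| ≤ 1 / 4) :
    Good T (Complex.sin z ^ 2) := by
  obtain ⟨h1, h2⟩ := strip h
  set S := Complex.sin z ^ 2
  have hr := (Complex.abs_re_le_norm (T - 5 / 2)).trans hT
  have hi := (Complex.abs_im_le_norm (T - 5 / 2)).trans hT
  have er : (T - 5 / 2).re = T.re - 5 / 2 := by simp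
  have ei : (T - 5 / 2).im = T.im := by simp
  rw [er, abs_le] at hr
  rw [ei] at hi
  have hi2 : T.im ^ 2 ≤ 1 / 16 := by
    have := pow_le_pow_left₀ (abs_nonneg _) hi 2
    rw [sq_abs] at this
    linarith
  constructor
  · rw [Complex.add_re, Complex.one_re]; linarith
  · have e : (1 + T * S + S ^ 2).re = 1 + (T.re * S.re - T.im * S.im) + (S.re ^ 2 - S.im ^ 2) := by
      simp [pow_two]
    rw [e]
    have h3 : -(11 / 56) ≤ T.re * S.re := by
      rcases le_total 0 S.re with h | h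
      · have : 0 ≤ T.re * S.re := mul_nonneg (by linarith) h
        linarith
      · nlinarith
    have h4 : T.im * S.im ≤ (T.im ^ 2 + S.im ^ 2) / 2 := by nlinarith [sq_nonneg (T.im - S.im)]
    nlinarith [sq_nonneg S.re]

theorem q_diff_S {T S : ℂ} (h : Good T S) : DifferentiableAt ℂ (fun S => q T S) S := by
  unfold q
  refine DifferentiableAt.mul ?_ ?_
  · exact DifferentiableAt.cpow_const (by fun_prop) (slit_of_re h.1)
  · exact DifferentiableAt.cpow_const (by fun_prop) (slit_of_re h.2)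

theorem shift {T : ℂ} (hT : ‖T - 5 / 2‖ ≤ 1 / 4) {w : ℂ → ℂ} (hw : Differentiable ℂ w) :
    ∫ s in (0 : ℝ)..1, w (Sg s) * (q T (Sg s))⁻¹ =
      ∫ s in (0 : ℝ)..1, w (Complex.sin (Real.pi * s) ^ 2) *
        (q T (Complex.sin (Real.pi * s) ^ 2))⁻¹ := by
  have hpi := Real.pi_pos
  have hpi4 := Real.pi_le_four
  have him : ∀ u : ℂ, u.im ∈ Icc (0 : ℝ) (1 / 16) → |((Real.pi : ℂ) * u).im| ≤ 1 / 4 := by
    intro u hu
    rw [Complex.im_ofReal_mul, abs_of_nonneg (mul_nonneg hpi.le hu.1)]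
    nlinarith [hu.1, hu.2]
  set f : ℂ → ℂ := fun u => w (Complex.sin (Real.pi * u) ^ 2) *
        (q T (Complex.sin (Real.pi * u) ^ 2))⁻¹ with hf
  have hd : DifferentiableOn ℂ f (uIcc (0 : ℂ).re (1 + ((1 / 16 : ℝ) : ℂ) * Complex.I).re ×ℂ
      uIcc (0 : ℂ).im (1 + ((1 / 16 : ℝ) : ℂ) * Complex.I).im) := by
    intro u hu
    have hu2 : u.im ∈ Icc (0 : ℝ) (1 / 16) := by
      have h1 := hu.2
      have e1 : (0 : ℂ).im = 0 := rfl
      have e4 : (1 + ((1 / 16 : ℝ) : ℂ) * Complex.I).im = 1 / 16 := by simp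
      rw [e1, e4, uIcc_of_le (by norm_num)] at h1
      exact h1
    have hg := good_strip hT (him u hu2)
    apply DifferentiableAt.differentiableWithinAt
    refine DifferentiableAt.mul ?_ (DifferentiableAt.inv ?_ (q_ne hg))
    · exact (hw _).comp u (by fun_prop)
    · exact DifferentiableAt.comp u (q_diff_S hg) (by fun_prop)
  have h := Complex.integral_boundary_rect_eq_zero_of_differentiableOn f 0
    (1 + ((1 / 16 : ℝ) : ℂ) * Complex.I) hd
  have e1 : (0 : ℂ).re = 0 := rfl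
  have e2 : (0 : ℂ).im = 0 := rfl
  have e3 : (1 + ((1 / 16 : ℝ) : ℂ) * Complex.I).re = 1 := by simp
  have e4 : (1 + ((1 / 16 : ℝ) : ℂ) * Complex.I).im = 1 / 16 := by simp
  rw [e1, e2, e3, e4] at h
  have hper : ∀ y : ℝ, f (((1 : ℝ) : ℂ) + (y : ℂ) * Complex.I) =
      f (((0 : ℝ) : ℂ) + (y : ℂ) * Complex.I) := by
    intro y
    simp only [hf]
    have : Complex.sin ((Real.pi : ℂ) * (((1 : ℝ) : ℂ) + (y : ℂ) * Complex.I)) =
        - Complex.sin ((Real.pi : ℂ) * (((0 : ℝ) : ℂ) + (y : ℂ) * Complex.I)) := by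
      have e : (Real.pi : ℂ) * (((1 : ℝ) : ℂ) + (y : ℂ) * Complex.I) =
          (Real.pi : ℂ) * (((0 : ℝ) : ℂ) + (y : ℂ) * Complex.I) + Real.pi := by
        push_cast; ring
      rw [e, Complex.sin_add_pi]
    rw [this, neg_sq]
  simp only [hper] at h
  rw [add_sub_cancel_right, sub_eq_zero] at h
  have e5 : ∀ s : ℝ, f ((s : ℂ) + ((0 : ℝ) : ℂ) * Complex.I) = w (Complex.sin (Real.pi * s) ^ 2) *
        (q T (Complex.sin (Real.pi * s) ^ 2))⁻¹ := by
    intro s
    simp [hf]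
  simp only [e5] at h
  rw [h]
  rfl

/-! ### the loops -/

/-- the parameter set -/
def VV : Set ℂ := Metric.ball (2 : ℂ) (1 / 8)

theorem VV_open : IsOpen VV := Metric.isOpen_ball

theorem VV_re {m : ℂ} (hm : m ∈ VV) : 15 / 8 < m.re := by
  have h1 : ‖m - 2‖ < 1 / 8 := by
    have := Metric.mem_ball.1 hm
    rwa [dist_eq_norm] at this
  have h2 := (Complex.abs_re_le_norm (m - 2)).trans_lt h1
  have er : (m - 2).re = m.re - 2 := by simp
  rw [er, abs_lt] at h2
  linarith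

theorem VV_one {m : ℂ} (hm : m ∈ VV) : 1 < m.re := by linarith [VV_re hm]

theorem VV_T {m : ℂ} (hm : m ∈ VV) : ‖m + 1 / m - 5 / 2‖ ≤ 1 / 4 := by
  have h1 : ‖m - 2‖ < 1 / 8 := by
    have := Metric.mem_ball.1 hm
    rwa [dist_eq_norm] at this
  have h0 := ne_of_re (VV_one hm)
  have h2 : 15 / 8 < ‖m‖ := (VV_re hm).trans_le ((le_abs_self _).trans (Complex.abs_re_le_norm m))
  have e : m + 1 / m - 5 / 2 = (m - 2) * (1 - 1 / (2 * m)) := by
    field_simp
    ring
  rw [e, norm_mul]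
  have h3 : ‖1 - 1 / (2 * m)‖ ≤ 1 + 4 / 15 := by
    refine (norm_sub_le _ _).trans ?_
    rw [norm_one, norm_div, norm_one, norm_mul, Complex.norm_ofNat]
    have : 1 / (2 * ‖m‖) ≤ 4 / 15 := by
      rw [div_le_div_iff₀ (by positivity) (by norm_num)]
      linarith
    linarith
  calc ‖m - 2‖ * ‖1 - 1 / (2 * m)‖ ≤ 1 / 8 * (1 + 4 / 15) :=
        mul_le_mul h1.le h3 (norm_nonneg _) (by norm_num)
    _ ≤ 1 / 4 := by norm_num

theorem zz_im_abs (s : ℝ) : |(zz s).im| ≤ 1 / 4 := by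
  rw [zz_im, abs_of_pos (by have := Real.pi_pos; positivity)]
  linarith [Real.pi_le_four]

theorem good_VV {m : ℂ} (hm : m ∈ VV) (s : ℝ) : Good (m + 1 / m) (Sg s) :=
  good_strip (VV_T hm) (zz_im_abs s)

theorem sin_ne (s : ℝ) : Complex.sin (zz s) ≠ 0 := by
  intro h
  rw [Complex.sin_eq_zero_iff] at h
  obtain ⟨k, hk⟩ := h
  have h1 := congrArg Complex.im hk
  rw [zz_im] at h1
  have h2 : ((k : ℂ) * (Real.pi : ℂ)).im = 0 := by simp
  rw [h2] at h1
  have := Real.pi_pos
  linarith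

theorem cos_ne (s : ℝ) : Complex.cos (zz s) ≠ 0 := by
  intro h
  rw [Complex.cos_eq_zero_iff] at h
  obtain ⟨k, hk⟩ := h
  have h1 := congrArg Complex.im hk
  rw [zz_im] at h1
  have h2 : ((2 * (k : ℂ) + 1) * (Real.pi : ℂ) / 2).im = 0 := by
    have : ((2 * (k : ℂ) + 1) * (Real.pi : ℂ) / 2) = (((2 * (k : ℝ) + 1) * Real.pi / 2 : ℝ) : ℂ) := by
      push_cast; ring
    rw [this, Complex.ofReal_im]
  rw [h2] at h1
  have := Real.pi_pos
  linarith

theorem Sg_ne (s : ℝ) : Sg s ≠ 0 := pow_ne_zero 2 (sin_ne s)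

theorem zz_cont : Continuous zz := by unfold zz; fun_prop

theorem Sg_cont : Continuous Sg := by
  unfold Sg
  exact (Complex.continuous_sin.comp zz_cont).pow 2

theorem zz_deriv (s : ℝ) : HasDerivAt zz (Real.pi : ℂ) s := by
  have h1 : HasDerivAt (fun s : ℝ => (s : ℂ)) 1 s := Complex.ofRealCLM.hasDerivAt
  have h2 := (h1.add_const (((1 / 16 : ℝ) : ℂ) * Complex.I)).const_mul (Real.pi : ℂ)
  rw [mul_one] at h2
  exact h2

theorem Sg_deriv (s : ℝ) : HasDerivAt Sg
    (2 * Complex.sin (zz s) * Complex.cos (zz s) * Real.pi) s := by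
  have h1 : HasDerivAt (fun s => Complex.sin (zz s)) (Complex.cos (zz s) * Real.pi) s :=
    (Complex.hasDerivAt_sin (zz s)).comp s (zz_deriv s)
  have h2 := h1.pow 2
  refine h2.congr_deriv ?_
  push_cast
  ring

theorem Sg_smooth : ContDiff ℝ 1 Sg := by
  have h1 : ContDiff ℝ 1 (fun s : ℝ => (s : ℂ)) := Complex.ofRealCLM.contDiff
  have h2 : ContDiff ℝ 1 zz := by
    unfold zz
    exact contDiff_const.mul (h1.add contDiff_const)
  have h3 : ContDiff ℝ 1 (fun s => Complex.sin (zz s)) :=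
    (Complex.contDiff_sin.restrict_scalars ℝ).comp h2
  exact h3.pow 2

theorem zz_one : zz 1 = zz 0 + Real.pi := by
  simp only [zz]; push_cast; ring

theorem Sg_closed : Sg 1 = Sg 0 := by
  rw [Sg, Sg, zz_one, Complex.sin_add_pi, neg_sq]

/-- the basic loop -/
noncomputable def Y1 (m : ℂ) (s : ℝ) : ℂ :=
  Complex.sin (zz s) * Complex.cos (zz s) * q (m + 1 / m) (Sg s)

theorem Y1_ne {m : ℂ} (hm : m ∈ VV) (s : ℝ) : Y1 m s ≠ 0 :=
  mul_ne_zero (mul_ne_zero (sin_ne s) (cos_ne s)) (q_ne (good_VV hm s))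

theorem Y1_sq (m : ℂ) (s : ℝ) : Y1 m s ^ 2 =
    Sg s * (1 - Sg s) * ((1 + Sg s) * (1 + (m + 1 / m) * Sg s + Sg s ^ 2)) := by
  have h : Complex.cos (zz s) ^ 2 = 1 - Sg s := by
    rw [Sg]
    linear_combination Complex.sin_sq_add_cos_sq (zz s)
  rw [Y1, mul_pow, mul_pow, q_sq, h]
  rfl

theorem Y1_cont : ContinuousOn (fun z : ℂ × ℝ => Y1 z.1 z.2) (VV ×ˢ univ) := by
  unfold Y1
  refine ContinuousOn.mul ?_ ?_
  · apply Continuous.continuousOn
    have := zz_cont
    fun_prop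
  · refine q_cont.comp (f := fun z : ℂ × ℝ => (z.1 + 1 / z.1, Sg z.2)) ?_
      fun z hz => good_VV hz.1 z.2
    refine ContinuousOn.prodMk ?_ (Sg_cont.comp continuous_snd).continuousOn
    refine ContinuousOn.add continuousOn_fst (ContinuousOn.div continuousOn_const
      continuousOn_fst fun z hz => ne_of_re (VV_one hz.1))

theorem Y1_closed (m : ℂ) : Y1 m 1 = Y1 m 0 := by
  rw [Y1, Y1, Sg_closed, zz_one, Complex.sin_add_pi, Complex.cos_add_pi]
  ring

theorem D_div (m : ℂ) {s : ℝ} (hm : m ∈ VV) :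
    (-(2 * Complex.sin (zz s) * Complex.cos (zz s) * Real.pi)) / Y1 m s =
      -(2 * Real.pi) * (q (m + 1 / m) (Sg s))⁻¹ := by
  have h1 := sin_ne s
  have h2 := cos_ne s
  have h3 := q_ne (good_VV hm s)
  rw [Y1]
  field_simp

/-- the loop `γ` -/
theorem loop1 : LoopFamily VV (fun _ s => -Sg s) Y1 where
  contX := (Sg_cont.comp continuous_snd).neg.continuousOn
  contY := Y1_cont
  smooth := fun _ _ => Sg_smooth.neg
  ne := fun _ hm s => Y1_ne hm s
  curve := fun m _ s => by rw [Y1_sq]; ring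
  closedX := fun _ _ => by rw [Sg_closed]
  closedY := fun m _ => Y1_closed m

/-- the loop `σ γ` -/
theorem loop2 : LoopFamily VV (fun _ s => -(Sg s)⁻¹)
    (fun m s => -(Complex.I * Y1 m s / Sg s ^ 3)) where
  contX := ((Sg_cont.inv₀ Sg_ne).comp continuous_snd).neg.continuousOn
  contY := by
    refine ContinuousOn.neg (ContinuousOn.div (continuousOn_const.mul Y1_cont)
      ((Sg_cont.comp continuous_snd).pow 3).continuousOn fun z _ => pow_ne_zero 3 (Sg_ne z.2))
  smooth := fun _ _ => (Sg_smooth.inv Sg_ne).neg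
  ne := fun _ hm s => neg_ne_zero.2 (div_ne_zero (mul_ne_zero Complex.I_ne_zero (Y1_ne hm s))
    (pow_ne_zero 3 (Sg_ne s)))
  curve := fun m _ s => by
    have h := Sg_ne s
    rw [neg_sq, div_pow, mul_pow, Complex.I_sq, Y1_sq]
    field_simp
    ring
  closedX := fun _ _ => by rw [Sg_closed]
  closedY := fun m _ => by rw [Sg_closed, Y1_closed]

/-- the square root -/
noncomputable def kap (m : ℂ) : ℂ := (m ^ 2 - 1) ^ (2⁻¹ : ℂ)

theorem kap_slit {m : ℂ} (hm : 1 < m.re) : m ^ 2 - 1 ∈ Complex.slitPlane := by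
  rw [Complex.mem_slitPlane_iff]
  by_cases h2 : m.im = 0
  · left
    simp [pow_two, h2]
    nlinarith
  · right
    simp [pow_two]
    have : m.re * m.im ≠ 0 := mul_ne_zero (by linarith) h2
    intro h3
    apply this
    linarith

theorem kap_sq (m : ℂ) : kap m ^ 2 = m ^ 2 - 1 := by
  rw [kap]; simp

theorem kap_ne {m : ℂ} (hm : 1 < m.re) : kap m ≠ 0 := by
  intro h
  have := kap_sq m
  rw [h] at this
  exact Complex.slitPlane_ne_zero (kap_slit hm) (by rw [← this]; ring)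

theorem kap_cont {m : ℂ} (hm : 1 < m.re) : ContinuousAt kap m := by
  unfold kap
  exact ContinuousAt.cpow (by fun_prop) continuousAt_const (kap_slit hm)

theorem Sm_ne {m : ℂ} (hm : m ∈ VV) (s : ℝ) : Sg s + m ≠ 0 := by
  intro h
  have h0 := ne_of_re (VV_one hm)
  have h1 := ne_zero_of_re (good_VV hm s).2
  apply h1
  have : Sg s = -m := by linear_combination h
  rw [this]
  field_simp
  ring

/-- the loop `j γ` -/
theorem loop3 : LoopFamily VV (fun m s => (m * Sg s + 1) / (Sg s + m))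
    (fun m s => -(kap m ^ 3 * Y1 m s / (Sg s + m) ^ 3)) where
  contX := by
    refine ContinuousOn.div ?_ ?_ fun z hz => Sm_ne hz.1 z.2
    · apply Continuous.continuousOn
      have := Sg_cont
      fun_prop
    · apply Continuous.continuousOn
      have := Sg_cont
      fun_prop
  contY := by
    refine ContinuousOn.neg (ContinuousOn.div (ContinuousOn.mul (ContinuousOn.pow ?_ 3) Y1_cont)
      (ContinuousOn.pow ?_ 3) fun z hz => pow_ne_zero 3 (Sm_ne hz.1 z.2))
    · rintro ⟨m, s⟩ ⟨hm, hs⟩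
      have h : Tendsto (fun z : ℂ × ℝ => z.1) (𝓝 (m, s)) (𝓝 m) := continuousAt_fst
      have h2 : ContinuousAt (fun z : ℂ × ℝ => kap z.1) (m, s) :=
        (kap_cont (VV_one hm)).tendsto.comp h
      exact h2.continuousWithinAt
    · apply Continuous.continuousOn
      have := Sg_cont
      fun_prop
  smooth := fun m hm => by
    have h1 : ContDiff ℝ 1 (fun s => m * Sg s + 1) :=
      (contDiff_const.mul Sg_smooth).add contDiff_const
    have h2 : ContDiff ℝ 1 (fun s => (Sg s + m)⁻¹) :=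
      (Sg_smooth.add contDiff_const).inv (Sm_ne hm)
    simp only [div_eq_mul_inv]
    exact h1.mul h2
  ne := fun m hm s => neg_ne_zero.2 (div_ne_zero (mul_ne_zero
    (pow_ne_zero 3 (kap_ne (VV_one hm))) (Y1_ne hm s)) (pow_ne_zero 3 (Sm_ne hm s)))
  curve := fun m hm s => by
    have h := Sm_ne hm s
    have h0 := ne_of_re (VV_one hm)
    have hk : (kap m ^ 3) ^ 2 = (m ^ 2 - 1) ^ 3 := by
      rw [← kap_sq]; ring
    rw [neg_sq, div_pow, mul_pow, hk, Y1_sq]
    field_simp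
    ring
  closedX := fun _ _ => by rw [Sg_closed]
  closedY := fun m _ => by rw [Sg_closed, Y1_closed]

theorem period1 {m : ℂ} (hm : m ∈ VV) :
    ∫ s in (0 : ℝ)..1, deriv (fun s => -Sg s) s / Y1 m s = -(2 * Real.pi) * AA (m + 1 / m) := by
  have h : ∀ s, deriv (fun s => -Sg s) s / Y1 m s =
      -(2 * Real.pi) * (1 * (q (m + 1 / m) (Sg s))⁻¹) := fun s => by
    rw [(Sg_deriv s).fun_neg.deriv, D_div m hm, one_mul]
  simp only [h]
  rw [intervalIntegral.integral_const_mul]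
  have := shift (VV_T hm) (w := fun _ => 1) (differentiable_const _)
  rw [this, AA]
  simp only [one_mul]

theorem period2 {m : ℂ} (hm : m ∈ VV) :
    ∫ s in (0 : ℝ)..1, deriv (fun s => -(Sg s)⁻¹) s / (-(Complex.I * Y1 m s / Sg s ^ 3)) =
      2 * Real.pi * Complex.I * BB (m + 1 / m) := by
  have h : ∀ s, deriv (fun s => -(Sg s)⁻¹) s / (-(Complex.I * Y1 m s / Sg s ^ 3)) =
      2 * Real.pi * Complex.I * (Sg s * (q (m + 1 / m) (Sg s))⁻¹) := fun s => by
    have h1 := Sg_ne s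
    have h2 := Y1_ne hm s
    have hI := Complex.I_ne_zero
    rw [((Sg_deriv s).fun_inv h1).fun_neg.deriv]
    have h3 := D_div m hm (s := s)
    have : -(-(2 * Complex.sin (zz s) * Complex.cos (zz s) * Real.pi) / Sg s ^ 2) /
        (-(Complex.I * Y1 m s / Sg s ^ 3)) =
        -(Sg s / Complex.I) * (-(2 * Complex.sin (zz s) * Complex.cos (zz s) * Real.pi) /
          Y1 m s) * (-1) := by
      field_simp
    rw [this, h3, Complex.div_I]
    ring
  simp only [h]
  rw [intervalIntegral.integral_const_mul]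
  have := shift (VV_T hm) (w := fun z => z) differentiable_id
  rw [this, BB]

theorem period3 {m : ℂ} (hm : m ∈ VV) :
    ∫ s in (0 : ℝ)..1, deriv (fun s => (m * Sg s + 1) / (Sg s + m)) s /
      (-(kap m ^ 3 * Y1 m s / (Sg s + m) ^ 3)) =
      -(2 * Real.pi) / kap m * (m * AA (m + 1 / m) + BB (m + 1 / m)) := by
  have hk := kap_ne (VV_one hm)
  have h : ∀ s, deriv (fun s => (m * Sg s + 1) / (Sg s + m)) s /
      (-(kap m ^ 3 * Y1 m s / (Sg s + m) ^ 3)) =
      -(2 * Real.pi) / kap m * ((Sg s + m) * (q (m + 1 / m) (Sg s))⁻¹) := fun s => by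
    have h1 := Sm_ne hm s
    have h2 := Y1_ne hm s
    have d := (((Sg_deriv s).const_mul m).add_const 1).fun_div ((Sg_deriv s).add_const m) h1
    rw [d.deriv]
    have h3 := D_div m hm (s := s)
    have h4 : (m * (2 * Complex.sin (zz s) * Complex.cos (zz s) * Real.pi) * (Sg s + m) -
        (m * Sg s + 1) * (2 * Complex.sin (zz s) * Complex.cos (zz s) * Real.pi)) /
        (Sg s + m) ^ 2 / (-(kap m ^ 3 * Y1 m s / (Sg s + m) ^ 3)) =
        (m ^ 2 - 1) * (Sg s + m) / kap m ^ 3 *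
        (-(2 * Complex.sin (zz s) * Complex.cos (zz s) * Real.pi) / Y1 m s) := by
      field_simp
      ring
    rw [h4, h3, ← kap_sq]
    field_simp
  simp only [h]
  rw [intervalIntegral.integral_const_mul]
  have h5 := shift (VV_T hm) (w := fun z => z + m) (by fun_prop)
  rw [h5]
  congr 1
  have hT : 0 < (m + 1 / m).re := by
    rw [Complex.add_re]
    linarith [(inv_re_le (VV_one hm)).1, VV_one hm]
  have i1 := (q_int (w := fun _ => 1) continuous_const hT).intervalIntegrable_of_Icc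
    (μ := volume) zero_le_one
  have i2 := (q_int (w := fun s : ℝ => Complex.sin (Real.pi * s) ^ 2) (by fun_prop)
    hT).intervalIntegrable_of_Icc (μ := volume) zero_le_one
  simp only [one_mul] at i1
  rw [AA, BB, ← intervalIntegral.integral_const_mul, ← intervalIntegral.integral_add
    (i1.const_mul m) i2]
  refine intervalIntegral.integral_congr fun s _ => ?_
  ring

end Pool.Agent.W520
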