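import Mathlib
import Pool.Agent.W520.Defs
import Pool.Agent.W520.Curve
import Pool.Agent.W520.Asym
import Pool.Agent.W520.Indep
import Pool.Agent.W520.Loops

/-!
The curve is not bi-algebraic.
-/

set_option autoImplicit false

open Set Filter Topology MeasureTheory

namespace Pool.Agent.W520

/-- the first function -/
noncomputable def uu (m : ℂ) : ℂ := (m + BB (m + 1 / m) / AA (m + 1 / m)) / kap m
/-- the second function -/
noncomputable def vv (m : ℂ) : ℂ := -(Complex.I * (BB (m + 1 / m) / AA (m + 1 / m)))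

theorem T_re {m : ℂ} (hm : 1 < m.re) : 0 < (m + 1 / m).re := by
  rw [Complex.add_re]
  linarith [(inv_re_le hm).1]

theorem AA_ne {T : ℂ} (hT : 0 < T.re) : AA T ≠ 0 := ne_zero_of_re (AA_re hT)

theorem H_open : IsOpen {m : ℂ | 1 < m.re} := isOpen_lt continuous_const Complex.continuous_re

theorem T_diff : DifferentiableOn ℂ (fun m : ℂ => m + 1 / m) {m : ℂ | 1 < m.re} := by
  intro m hm
  have h0 := ne_of_re hm
  apply DifferentiableAt.differentiableWithinAt
  exact differentiableAt_id.add ((differentiableAt_const 1).div differentiableAt_id h0)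

theorem x_diff : DifferentiableOn ℂ (fun m : ℂ => BB (m + 1 / m) / AA (m + 1 / m))
    {m : ℂ | 1 < m.re} :=
  DifferentiableOn.div (BB_diff.comp T_diff fun _ hm => T_re hm)
    (AA_diff.comp T_diff fun _ hm => T_re hm) fun _ hm => AA_ne (T_re hm)

theorem kap_diff : DifferentiableOn ℂ kap {m : ℂ | 1 < m.re} := by
  intro m hm
  apply DifferentiableAt.differentiableWithinAt
  unfold kap
  exact DifferentiableAt.cpow_const (by fun_prop) (kap_slit hm)

theorem uu_diff : DifferentiableOn ℂ uu {m : ℂ | 1 < m.re} :=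
  DifferentiableOn.div (differentiableOn_id.add x_diff) kap_diff fun _ hm => kap_ne hm

theorem vv_diff : DifferentiableOn ℂ vv {m : ℂ | 1 < m.re} :=
  (x_diff.const_mul Complex.I).neg

theorem g_analytic (P : MvPolynomial (Fin 2) ℂ) :
    AnalyticOnNhd ℂ (fun m => MvPolynomial.eval ![uu m, vv m] P) {m : ℂ | 1 < m.re} := by
  have h := AnalyticOnNhd.aeval_mvPolynomial (𝕜 := ℂ) (f := fun m : ℂ => ![uu m, vv m])
    (s := {m : ℂ | 1 < m.re}) (fun i => ?_) P
  · simpa [MvPolynomial.aeval_eq_eval] using h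
  · fin_cases i
    · exact uu_diff.analyticOnNhd H_open
    · exact vv_diff.analyticOnNhd H_open

theorem x_real {m : ℝ} (hm : 0 < m) :
    BB ((m : ℂ) + 1 / (m : ℂ)) / AA ((m : ℂ) + 1 / (m : ℂ)) = ((xr m : ℝ) : ℂ) := by
  have h : (m : ℂ) + 1 / (m : ℂ) = ((m + 1 / m : ℝ) : ℂ) := by push_cast; rfl
  have h1 : 0 ≤ m + 1 / m := by positivity
  rw [h, BB_ofReal h1, AA_ofReal h1, xr]
  push_cast
  rfl

theorem kap_real {m : ℝ} (hm : 1 < m) : kap (m : ℂ) = ((√(m ^ 2 - 1) : ℝ) : ℂ) := by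
  have h : (m : ℂ) ^ 2 - 1 = ((m ^ 2 - 1 : ℝ) : ℂ) := by push_cast; rfl
  rw [kap, h, Real.sqrt_eq_rpow]
  have h1 : (2⁻¹ : ℂ) = ((2⁻¹ : ℝ) : ℂ) := by push_cast; rfl
  rw [h1, ← Complex.ofReal_cpow (by nlinarith)]
  norm_num

theorem vv_norm {m : ℝ} (hm : 0 < m) : ‖vv (m : ℂ)‖ = xr m := by
  rw [vv, x_real hm, norm_neg, norm_mul, Complex.norm_I, one_mul, Complex.norm_real,
    Real.norm_of_nonneg (xr_pos hm).le]

theorem P_zero {P : MvPolynomial (Fin 2) ℂ}
    (h : ∀ᶠ m in 𝓝 (2 : ℂ), MvPolynomial.eval ![uu m, vv m] P = 0) : P = 0 := by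
  have hpre : IsPreconnected {m : ℂ | 1 < m.re} := (convex_halfSpace_re_gt 1).isPreconnected
  have h2 : (2 : ℂ) ∈ {m : ℂ | 1 < m.re} := by simp
  have hz := (g_analytic P).eqOn_zero_of_preconnected_of_eventuallyEq_zero hpre h2 h
  refine indep (u := fun m : ℝ => uu (m : ℂ)) (v := fun m : ℝ => vv (m : ℂ)) (C := 4)
    ?_ ?_ ?_ ?_ ?_
  · filter_upwards [eventually_ge_atTop 2, xr_zero.eventually_le_const (zero_lt_one)] with m hm hx
    have hm0 : 0 < m := by linarith
    have hxp := xr_pos hm0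
    rw [uu, x_real hm0, kap_real (by linarith)]
    set k := √(m ^ 2 - 1) with hk
    have hk2 : k ^ 2 = m ^ 2 - 1 := Real.sq_sqrt (by nlinarith)
    have hk1 : m / 2 ≤ k := by
      apply Real.le_sqrt_of_sq_le
      nlinarith
    have hkm : k ≤ m := by
      apply Real.sqrt_le_iff.2
      constructor
      · linarith
      · linarith
    have hmk : m - k ≤ 1 := by nlinarith
    have hk0 : 0 < k := by linarith
    have e : ((m : ℂ) + ((xr m : ℝ) : ℂ)) / ((k : ℝ) : ℂ) - 1 =
        (((m - k + xr m) / k : ℝ) : ℂ) := by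
      have : (k : ℂ) ≠ 0 := by exact_mod_cast hk0.ne'
      push_cast
      field_simp
      ring
    rw [e, Complex.norm_real, Real.norm_of_nonneg (by
      apply div_nonneg _ hk0.le; linarith)]
    rw [div_le_div_iff₀ hk0 hm0]
    nlinarith
  · filter_upwards [eventually_ge_atTop 2] with m hm
    have hm0 : 0 < m := by linarith
    have hxp := xr_pos hm0
    rw [uu, x_real hm0, kap_real (by linarith)]
    intro h
    set k := √(m ^ 2 - 1) with hk
    have hk0 : 0 < k := Real.sqrt_pos.2 (by nlinarith)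
    have hkm : k ≤ m := by
      apply Real.sqrt_le_iff.2
      constructor
      · linarith
      · linarith
    have hkc : (k : ℂ) ≠ 0 := by exact_mod_cast hk0.ne'
    rw [div_eq_one_iff_eq hkc] at h
    have h3 : m + xr m = k := by exact_mod_cast h
    linarith
  · rw [tendsto_zero_iff_norm_tendsto_zero]
    refine xr_zero.congr' ?_
    filter_upwards [eventually_gt_atTop 0] with m hm
    exact (vv_norm hm).symm
  · intro d
    refine (xr_pow d).congr' ?_
    filter_upwards [eventually_gt_atTop 0] with m hm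
    rw [vv_norm hm]
  · filter_upwards [eventually_gt_atTop 1] with m hm
    have : (m : ℂ) ∈ {m : ℂ | 1 < m.re} := by simpa using hm
    exact hz this

/-- the three period functions -/
noncomputable def F1 (p : Fin 4 → ℂ) : ℂ :=
  period (xF (fun _ s => -Sg s) p) (yF (fun _ s => -Sg s) Y1 p)
/-- the three period functions -/
noncomputable def F2 (p : Fin 4 → ℂ) : ℂ :=
  period (xF (fun _ s => -(Sg s)⁻¹) p)
    (yF (fun _ s => -(Sg s)⁻¹) (fun m s => -(Complex.I * Y1 m s / Sg s ^ 3)) p)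
/-- the three period functions -/
noncomputable def F3 (p : Fin 4 → ℂ) : ℂ :=
  period (xF (fun m s => (m * Sg s + 1) / (Sg s + m)) p)
    (yF (fun m s => (m * Sg s + 1) / (Sg s + m))
      (fun m s => -(kap m ^ 3 * Y1 m s / (Sg s + m) ^ 3)) p)

theorem F1_pt {m : ℂ} (hm : m ∈ VV) : F1 (pt (tt m)) = -(2 * Real.pi) * AA (m + 1 / m) :=
  (family_eq (fun _ h => VV_one h) loop1 hm).trans (period1 hm)

theorem F2_pt {m : ℂ} (hm : m ∈ VV) :
    F2 (pt (tt m)) = 2 * Real.pi * Complex.I * BB (m + 1 / m) :=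
  (family_eq (fun _ h => VV_one h) loop2 hm).trans (period2 hm)

theorem F3_pt {m : ℂ} (hm : m ∈ VV) : F3 (pt (tt m)) =
    -(2 * Real.pi) / kap m * (m * AA (m + 1 / m) + BB (m + 1 / m)) :=
  (family_eq (fun _ h => VV_one h) loop3 hm).trans (period3 hm)

theorem two_mem : (2 : ℂ) ∈ VV := Metric.mem_ball_self (by norm_num)

theorem F1_ne {m : ℂ} (hm : m ∈ VV) : F1 (pt (tt m)) ≠ 0 := by
  rw [F1_pt hm]
  refine mul_ne_zero (neg_ne_zero.2 (mul_ne_zero two_ne_zero ?_)) (AA_ne (T_re (VV_one hm)))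
  exact_mod_cast Real.pi_ne_zero

theorem tt_good {m : ℂ} (hm : 1 < m.re) : (5 * tt m) ^ 2 ≠ 4 := by
  intro h
  have h0 := ne_of_re hm
  have h1 := pt3_b hm
  have h2 : (m - 1 / m) ^ 2 = 0 := by
    have e : 5 * tt m = m + 1 / m := by rw [tt]; ring
    rw [e] at h
    have : (m - 1 / m) ^ 2 = (m + 1 / m) ^ 2 - 4 := by field_simp; ring
    rw [this, h]; ring
  have h3 : m - 1 / m = 0 := pow_eq_zero_iff two_ne_zero |>.1 h2
  have h4 := congrArg Complex.re h3
  rw [Complex.sub_re, Complex.zero_re] at h4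
  linarith [(inv_re_le hm).2]

theorem not_bialgebraic : ¬ IsBialgebraic SS := by
  intro h
  have hp₀ : pt (tt 2) ∈ SS := pt_mem_SS (tt_good (VV_one two_mem))
  have k1 := family VV_open (fun _ h => VV_one h) loop1 two_mem
  have k2 := family VV_open (fun _ h => VV_one h) loop2 two_mem
  have k3 := family VV_open (fun _ h => VV_one h) loop3 two_mem
  obtain ⟨P, hP0, hP⟩ := h _ hp₀ 2 ![fun p => F3 p / F1 p, fun p => F2 p / F1 p] trdeg_SS
    (fun i => by
      fin_cases i
      · exact ⟨F3, F1, k3, k1, F1_ne two_mem, fun _ => rfl⟩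
      · exact ⟨F2, F1, k2, k1, F1_ne two_mem, fun _ => rfl⟩)
  apply hP0
  apply P_zero
  have hlim : Tendsto (fun m => pt (tt m)) (𝓝 (2 : ℂ)) (𝓝[SS] (pt (tt 2))) := by
    apply tendsto_nhdsWithin_iff.2
    constructor
    · exact (pt_cont.continuousAt (x := tt 2)).tendsto.comp (tt_cont (ne_of_re (VV_one two_mem)))
    · filter_upwards [VV_open.mem_nhds two_mem] with m hm
      exact pt_mem_SS (tt_good (VV_one hm))
  filter_upwards [hlim.eventually hP, VV_open.mem_nhds two_mem] with m hm hmV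
  rw [← hm]
  congr 2
  funext i
  have hA := AA_ne (T_re (VV_one hmV))
  have hk := kap_ne (VV_one hmV)
  have hpi : (Real.pi : ℂ) ≠ 0 := by exact_mod_cast Real.pi_ne_zero
  fin_cases i
  · show uu m = F3 (pt (tt m)) / F1 (pt (tt m))
    rw [F3_pt hmV, F1_pt hmV, uu]
    generalize AA (m + 1 / m) = A at hA ⊢
    generalize BB (m + 1 / m) = B
    field_simp
  · show vv m = F2 (pt (tt m)) / F1 (pt (tt m))
    rw [F2_pt hmV, F1_pt hmV, vv]
    generalize AA (m + 1 / m) = A at hA ⊢
    generalize BB (m + 1 / m) = B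
    field_simp

end Pool.Agent.W520
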